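import Pool.Agent.Y531.Mul.Perturb

/-!
# Limits of functions computed by circuits and of determinants
-/

set_option autoImplicit false
set_option linter.unusedSectionVars false
set_option maxHeartbeats 1000000
set_option synthInstance.maxHeartbeats 200000

namespace Pool.Agent.Y531.Mul

open MvPolynomial

universe u

section defs
variable {σ : Type} {F : Type u} [Field F]

/-- The coefficients of `P` are power series in `ε` with constant terms the coefficients of `f`. -/
def TendsTo (P : MvPolynomial σ (LaurentSeries F)) (f : MvPolynomial σ F) : Prop :=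
  ∃ f₃ : MvPolynomial σ (PowerSeries F), map (HahnSeries.ofPowerSeries ℤ F) f₃ = P ∧
    map (PowerSeries.constantCoeff (R := F)) f₃ = f

/-- The quotient `f / h` is the limit for `ε → 0` of a rational function `P / Q` over `F((ε))`, where
`P` tends to `f` and `Q` tends to `h`, which is computed over `F((ε))` by a circuit of depth `Δ` with
at most `n ^ c` gates, which may be arbitrary algebraic functions of `m` inputs, `m ^ q ≤ n`. -/
def ShallowLimit (n c Δ q : ℕ) (f h : MvPolynomial σ F) : Prop :=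
  ∃ (s m : ℕ) (C : Circuit σ (LaurentSeries F) s Δ m) (R : AF σ (LaurentSeries F))
    (P Q : MvPolynomial σ (LaurentSeries F)), s ≤ n ^ c ∧ m ^ q ≤ n ∧ C.Computes R ∧
    R * algebraMap _ (AF σ (LaurentSeries F)) Q = algebraMap _ (AF σ (LaurentSeries F)) P ∧
    TendsTo P f ∧ TendsTo Q h

/-- The addresses `w` are an elimination forest for the matrix `A`, of height `Δ` and with bags of
size at most `b`. -/
def ElimForest {R : Type u} [Zero R] {N : ℕ} (Δ b : ℕ) (w : Fin N → List ℕ)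
    (A : Matrix (Fin N) (Fin N) R) : Prop :=
  (∀ i, (w i).length ≤ Δ) ∧ (∀ v, (Finset.univ.filter fun i => w i = v).card ≤ b) ∧
    ∀ i j, A i j ≠ 0 → w i <+: w j ∨ w j <+: w i

/-- `f` is the limit for `ε → 0` of determinants of `N × N` matrices of polynomials of degree at most
one over `F((ε))`, `N ≤ n ^ c`, which have an elimination forest of height `Δ` with bags of size at
most `b`, `b ^ q ≤ n`. -/
def ForestLimit (n c Δ q : ℕ) (f : MvPolynomial σ F) : Prop :=
  ∃ (N b : ℕ) (w : Fin N → List ℕ) (A : Matrix (Fin N) (Fin N) (MvPolynomial σ (LaurentSeries F))),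
    N ≤ n ^ c ∧ b ^ q ≤ n ∧ (∀ i j, (A i j).totalDegree ≤ 1) ∧ ElimForest Δ b w A ∧
    TendsTo A.det f

/-- Some power of `f` is a multiple of `p`, or the field is algebraically closed and `f` vanishes at
all zeros of `p`. -/
def VanishesWith (p f : MvPolynomial σ F) : Prop :=
  (∃ k : ℕ, p ∣ f ^ k) ∨ (IsAlgClosed F ∧ ∀ x : σ → F, eval x p = 0 → eval x f = 0)

theorem exists_pow [Finite σ] {p f : MvPolynomial σ F} (h : VanishesWith p f) :
    ∃ k : ℕ, p ∣ f ^ k := by
  rcases h with h | ⟨hK, hF⟩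
  · exact h
  · have hmem : f ∈ vanishingIdeal F (zeroLocus F (Ideal.span {p})) := by
      intro x hx
      have hx1 : aeval x p = 0 := hx _ (Ideal.mem_span_singleton_self _)
      have hx2 := hF x (by rw [← hx1, aeval_eq_eval])
      rw [← hx2, aeval_eq_eval]
    rw [vanishingIdeal_zeroLocus_eq_radical] at hmem
    obtain ⟨k, hk⟩ := hmem
    exact ⟨k, Ideal.mem_span_singleton.1 hk⟩

end defs

/-- **The bounds for limits.** -/
theorem limit_bound (c Δ : ℕ) : ∃ d q n₀ : ℕ, 2 ≤ d ∧ ∀ n, n₀ ≤ n →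
    ∀ (F : Type u) [Field F] [CharZero F] (χ : Equiv.Perm (Fin n) → F), χ 1 ≠ 0 →
    (∀ σ : Equiv.Perm (Fin n), σ.IsCycle → σ.support.card = d → χ σ ≠ 0) →
    (∀ f h : MvPolynomial (Fin n × Fin n) F, f ≠ 0 → h ≠ 0 → IsRelPrime f h →
      ShallowLimit n c Δ q f h → ¬ VanishesWith (FX χ) f ∧ ¬ VanishesWith (FX χ) h) ∧
    ∀ f : MvPolynomial (Fin n × Fin n) F, f ≠ 0 → ForestLimit n c Δ q f →
      ¬ VanishesWith (FX χ) f := by
  obtain ⟨d, q, n₀, hd, H⟩ := both_bound c Δ
  refine ⟨d, q, n₀, hd, fun n hn F _ _ χ hχ1 hχd => ?_⟩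
  obtain ⟨H1, H2⟩ := H n hn F χ hχ1 hχd
  constructor
  · rintro f h hf hh hfh ⟨s, m, C, R, P, Q, hs, hm, hC, hR, ⟨f₃, rfl, rfl⟩, ⟨h₃, rfl, rfl⟩⟩
    have h1 := H1 s m hs hm C R f₃ h₃ hC hR hf hh hfh
    constructor
    · intro hv
      obtain ⟨k, hk⟩ := exists_pow hv
      exact (h1 k).1 hk
    · intro hv
      obtain ⟨k, hk⟩ := exists_pow hv
      exact (h1 k).2 hk
  · rintro f hf ⟨N, b, w, A, hN, hb, hA, ⟨hw1, hw2, hw3⟩, ⟨f₃, hf₃, rfl⟩⟩ hv
    obtain ⟨k, hk⟩ := exists_pow hv
    exact H2 N b hN hb w hw1 hw2 A hA hw3 f₃ hf₃.symm hf k hk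

end Pool.Agent.Y531.Mul
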