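import Pool.Agent.Y531.Mul.Main

/-!
# Relatively prime numerators and denominators
-/

set_option autoImplicit false
set_option linter.unusedSectionVars false
set_option maxHeartbeats 1000000
set_option synthInstance.maxHeartbeats 200000

namespace Pool.Agent.Y531.Mul

open Finset Pool.Agent.W942 Pool.Agent.Y531

variable {n : ℕ} {F : Type*} [Field F] (χ : Equiv.Perm (Fin n) → F) (s : Fin n)

/-- Evaluation at the zero of the matrix function. -/
noncomputable def evr : MvPolynomial (Fin n × Fin n) F →+* RF n F :=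
  (Polynomial.evalRingHom (rt χ s)).comp
    ((Polynomial.mapRingHom (algebraMap (MvPolynomial (Fin n × Fin n) F) (RF n F))).comp (bet F s))

theorem evr_apply (f : MvPolynomial (Fin n × Fin n) F) : evr χ s f =
    ((bet F s f).map (algebraMap (MvPolynomial (Fin n × Fin n) F) (RF n F))).eval (rt χ s) := rfl

theorem evr_C (c : F) : evr χ s (MvPolynomial.C c) =
    algebraMap (MvPolynomial (Fin n × Fin n) F) (RF n F) (MvPolynomial.C c) := by
  rw [evr_apply, bet_C, Polynomial.map_C, Polynomial.eval_C]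

theorem evr_self : evr χ s (MvPolynomial.X (s, s)) = rt χ s := by
  rw [evr_apply, bet_self, Polynomial.map_X, Polynomial.eval_X]

theorem evr_X {x : Fin n × Fin n} (hx : x ≠ (s, s)) : evr χ s (MvPolynomial.X x) =
    algebraMap (MvPolynomial (Fin n × Fin n) F) (RF n F) (MvPolynomial.X x) := by
  rw [evr_apply, bet_X s hx, Polynomial.map_C, Polynomial.eval_C]

theorem mul_rt (hP : PP χ s ≠ 0) :
    algebraMap (MvPolynomial (Fin n × Fin n) F) (RF n F) (PP χ s) * rt χ s =
      - algebraMap (MvPolynomial (Fin n × Fin n) F) (RF n F) (RR χ s) := by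
  have h1 : algebraMap (MvPolynomial (Fin n × Fin n) F) (RF n F) (PP χ s) ≠ 0 :=
    fun h0 => hP (algRF_inj (by rw [h0, map_zero]))
  rw [rt]
  field_simp

theorem evr_FX (hP : PP χ s ≠ 0) : evr χ s (FX χ) = 0 := by
  rw [evr_apply, bet_FX, Polynomial.map_add, Polynomial.map_mul, Polynomial.map_C,
    Polynomial.map_C, Polynomial.map_X, Polynomial.eval_add, Polynomial.eval_mul,
    Polynomial.eval_C, Polynomial.eval_C, Polynomial.eval_X, mul_rt χ s hP, neg_add_cancel]

theorem ordr_pos_iff {f : MvPolynomial (Fin n × Fin n) F} (hf : f ≠ 0) :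
    0 < ordr χ s f ↔ evr χ s f = 0 := by
  rw [ordr, Polynomial.rootMultiplicity_pos (bet_map_ne_zero s hf)]
  rfl

/-- Division with remainder. -/
theorem exists_rem (hP : PP χ s ≠ 0) (h : MvPolynomial (Fin n × Fin n) F) :
    ∃ (k : ℕ) (q r : MvPolynomial (Fin n × Fin n) F), PP χ s ^ k * h = q * FX χ + r ∧
      algebraMap (MvPolynomial (Fin n × Fin n) F) (RF n F) r =
        algebraMap (MvPolynomial (Fin n × Fin n) F) (RF n F) (PP χ s) ^ k * evr χ s h := by
  classical
  induction h using MvPolynomial.induction_on with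
  | C a => exact ⟨0, 0, MvPolynomial.C a, by ring, by rw [evr_C, pow_zero, one_mul]⟩
  | add h₁ h₂ ih₁ ih₂ =>
    obtain ⟨k₁, q₁, r₁, h1, h2⟩ := ih₁
    obtain ⟨k₂, q₂, r₂, h3, h4⟩ := ih₂
    refine ⟨k₁ + k₂, PP χ s ^ k₂ * q₁ + PP χ s ^ k₁ * q₂, PP χ s ^ k₂ * r₁ + PP χ s ^ k₁ * r₂,
      ?_, ?_⟩
    · calc PP χ s ^ (k₁ + k₂) * (h₁ + h₂) = PP χ s ^ k₂ * (PP χ s ^ k₁ * h₁) +
            PP χ s ^ k₁ * (PP χ s ^ k₂ * h₂) := by ring
        _ = _ := by rw [h1, h3]; ring
    · rw [map_add, map_mul, map_mul, map_pow, map_pow, h2, h4, map_add]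
      ring
  | mul_X h x ih =>
    obtain ⟨k, q, r, h1, h2⟩ := ih
    by_cases hx : x = (s, s)
    · subst hx
      refine ⟨k + 1, q * (PP χ s * MvPolynomial.X (s, s)) + r, -(r * RR χ s), ?_, ?_⟩
      · calc PP χ s ^ (k + 1) * (h * MvPolynomial.X (s, s)) =
            (PP χ s ^ k * h) * (MvPolynomial.X (s, s) * PP χ s + RR χ s) -
              (PP χ s ^ k * h) * RR χ s := by ring
          _ = (q * FX χ + r) * FX χ - (q * FX χ + r) * RR χ s := by rw [h1, ← FX_eq χ s]
          _ = q * FX χ * (MvPolynomial.X (s, s) * PP χ s + RR χ s - RR χ s) + r * FX χ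
              - r * RR χ s := by rw [← FX_eq χ s]; ring
          _ = _ := by ring
      · rw [map_neg, map_mul, h2, map_mul, evr_self, pow_succ]
        have h3 := mul_rt χ s hP
        linear_combination
          (-(algebraMap (MvPolynomial (Fin n × Fin n) F) (RF n F) (PP χ s) ^ k * evr χ s h)) * h3
    · refine ⟨k, q * MvPolynomial.X x, r * MvPolynomial.X x, ?_, ?_⟩
      · rw [← mul_assoc, h1]; ring
      · rw [map_mul, h2, map_mul, evr_X χ s hx]; ring

/-- A relatively prime polynomial does not vanish at the zero of the matrix function. -/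
theorem evr_ne_zero (hP : PP χ s ≠ 0) {h : MvPolynomial (Fin n × Fin n) F}
    (hh : IsRelPrime (FX χ) h) : evr χ s h ≠ 0 := by
  intro h0
  obtain ⟨k, q, r, h1, h2⟩ := exists_rem χ s hP h
  rw [h0, mul_zero] at h2
  have hr : r = 0 := algRF_inj (by rw [h2, map_zero])
  rw [hr, add_zero] at h1
  have h3 : FX χ ∣ PP χ s ^ k := hh.dvd_of_dvd_mul_right ⟨q, by rw [h1, mul_comm]⟩
  obtain ⟨v, hv⟩ := h3
  have h4 := congrArg (bet F s) hv
  have hbP : bet F s (PP χ s) = Polynomial.C (PP χ s) :=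
    (PP_congr χ s (bet F s) Polynomial.C (bet_C s) (fun x hx => bet_X s hx)).1
  rw [map_pow, hbP, map_mul, bet_FX] at h4
  have hv0 : bet F s v ≠ 0 := by
    intro h5
    rw [h5, mul_zero] at h4
    exact pow_ne_zero _ (Polynomial.C_ne_zero.2 hP) h4
  have h6 := congrArg Polynomial.natDegree h4
  have h7 : (Polynomial.C (PP χ s) * Polynomial.X + Polynomial.C (RR χ s)).natDegree = 1 :=
    Polynomial.natDegree_linear hP
  have h8 : (Polynomial.C (PP χ s) * Polynomial.X + Polynomial.C (RR χ s)) ≠ 0 := by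
    intro h9
    rw [h9, Polynomial.natDegree_zero] at h7
    exact zero_ne_one h7
  rw [← map_pow, Polynomial.natDegree_C, Polynomial.natDegree_mul h8 hv0, h7] at h6
  omega

theorem PP_ne_zero (hχ1 : χ 1 ≠ 0) : PP χ s ≠ 0 := by
  intro h0
  apply hχ1
  have h1 := eval_PP (A := F) χ s (RingHom.id F)
  rw [h0, MvPolynomial.eval₂_zero] at h1
  exact h1.symm

/-- The orders of the numerator and of the denominator. -/
theorem ordr_lt (hχ1 : χ 1 ≠ 0) {f h : MvPolynomial (Fin n × Fin n) F} (hf : f ≠ 0) (hh : h ≠ 0)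
    (hfh : IsRelPrime f h) {k : ℕ} (hk : FX χ ∣ f ^ k) : ordr χ s h < ordr χ s f := by
  have hP := PP_ne_zero χ s hχ1
  have h1 : 0 < ordr χ s f := by
    rw [ordr_pos_iff χ s hf]
    obtain ⟨g, hg⟩ := hk
    have h2 := congrArg (evr χ s) hg
    rw [map_pow, map_mul, evr_FX χ s hP, zero_mul] at h2
    exact eq_zero_of_pow_eq_zero h2
  have h2 : ordr χ s h = 0 := by
    by_contra h3
    have h4 : IsRelPrime (FX χ) h := (hfh.pow_left).of_dvd_left hk
    exact evr_ne_zero χ s hP h4 ((ordr_pos_iff χ s hh).1 (Nat.pos_of_ne_zero h3))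
  omega

end Pool.Agent.Y531.Mul
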