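import Pool.Agent.Y531.Mul.Word

/-!
# Graphs all of whose cycles read both words
-/

set_option autoImplicit false
set_option linter.unusedSectionVars false
set_option maxHeartbeats 1000000

namespace Pool.Agent.Y531.Mul

open Finset Pool.Agent.Y531

variable {a b h n : ℕ}

/-- The vertices. -/
abbrev Vtx (h : ℕ) (e : Fin (a + b) ≃ Fin b ⊕ Fin a) : Type :=
  {x : Fin (a + b) × (Pos a b h → ZMod 2) // x.2 ∈ vals e x.1}

theorem card_vtx (ha : 0 < a) (hb : 0 < b) (hba : b ≤ a) (e : Fin (a + b) ≃ Fin b ⊕ Fin a)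
    (he : StrictMono (key ∘ e)) : Fintype.card (Vtx h e) ≤ (a + b) * 2 ^ (a * h) := by
  classical
  rw [Fintype.card_subtype]
  have h1 : (Finset.univ.filter fun x : Fin (a + b) × (Pos a b h → ZMod 2) =>
      x.2 ∈ vals e x.1) ⊆ (Finset.univ : Finset (Fin (a + b))).biUnion fun t =>
        (vals (h := h) e t).image fun s => (t, s) := by
    intro x hx
    rw [Finset.mem_biUnion]
    exact ⟨x.1, Finset.mem_univ _, Finset.mem_image.2 ⟨x.2, (Finset.mem_filter.1 hx).2, rfl⟩⟩
  refine (Finset.card_le_card h1).trans (Finset.card_biUnion_le.trans ?_)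
  refine (Finset.sum_le_sum fun t _ => Finset.card_image_le.trans
    (card_vals ha hb hba e he t)).trans ?_
  rw [Finset.sum_const, Finset.card_univ, Fintype.card_fin, smul_eq_mul]

section
variable (e : Fin (a + b) ≃ Fin b ⊕ Fin a) (ν : Vtx h e → Fin n)

/-- An edge, for a pair of words. -/
def Edge (p q : Fin n) (u v : Ed a b h → Bool) : Prop :=
  ∃ x y : Vtx h e, ν x = p ∧ ν y = q ∧ (y.1.1 : ℕ) = (x.1.1 + 1) % (a + b) ∧
    y.1.2 = x.1.2 + wd (e x.1.1) u v

/-- The label of a row. -/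
noncomputable def lb (l₀ : Fin b ⊕ Fin a) (p : Fin n) : Fin b ⊕ Fin a := by
  classical exact if hx : ∃ x : Vtx h e, ν x = p then e hx.choose.1.1 else l₀

variable {e ν}

theorem lb_apply (hν : Function.Injective ν) (l₀ : Fin b ⊕ Fin a) (x : Vtx h e) :
    lb e ν l₀ (ν x) = e x.1.1 := by
  have hx : ∃ y : Vtx h e, ν y = ν x := ⟨x, rfl⟩
  rw [lb, dif_pos hx, hν hx.choose_spec]

theorem edge_same (hν : Function.Injective ν) (l₀ : Fin b ⊕ Fin a) {p q : Fin n}
    {u v u' v' : Ed a b h → Bool} (hs : (bitFrame a b h).same (lb e ν l₀ p) u v u' v')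
    (hE : Edge e ν p q u v) : Edge e ν p q u' v' := by
  obtain ⟨x, y, rfl, hy, h1, h2⟩ := hE
  rw [lb_apply hν] at hs
  refine ⟨x, y, rfl, hy, h1, ?_⟩
  rw [h2, wd_same _ u v u' v' hs]

theorem not_edge_self (hν : Function.Injective ν) (hd : 2 ≤ a + b) (p : Fin n)
    (u v : Ed a b h → Bool) : ¬ Edge e ν p p u v := by
  rintro ⟨x, y, hx, hy, h1, _⟩
  have hxy : x = y := hν (hx.trans hy.symm)
  subst hxy
  have h2 := x.1.1.2
  by_cases h3 : (x.1.1 : ℕ) + 1 < a + b
  · rw [Nat.mod_eq_of_lt h3] at h1; omega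
  · have h4 : (x.1.1 : ℕ) + 1 = a + b := by omega
    rw [h4, Nat.mod_self] at h1; omega

/-- The vertex of the layer zero. -/
def star (hd : 2 ≤ a + b) : Vtx h e := ⟨(⟨0, by omega⟩, 0), by
  show (0 : Pos a b h → ZMod 2) ∈ vals e 0
  rw [vals_zero, Finset.mem_singleton]⟩

theorem eq_star (hd : 2 ≤ a + b) (x : Vtx h e) (hx : (x.1.1 : ℕ) = 0) : x = star hd := by
  apply Subtype.ext
  refine Prod.ext (Fin.ext hx) ?_
  have h1 := x.2
  rw [hx, vals_zero, Finset.mem_singleton] at h1
  exact h1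

/-- The vertex read at time `k`. -/
def At (ν : Vtx h e → Fin n) (u v : Ed a b h → Bool) (k : ℕ) (p : Fin n) : Prop :=
  ∃ x : Vtx h e, ν x = p ∧ (x.1.1 : ℕ) = k ∧ x.1.2 = psum e k u v

theorem At.step (hν : Function.Injective ν) (hd : 2 ≤ a + b) {u v : Ed a b h → Bool} {k : ℕ}
    {p q : Fin n} (hA : At ν u v k p) (hE : Edge e ν p q u v) :
    (k + 1 < a + b → At ν u v (k + 1) q) ∧
    (k + 1 = a + b → q = ν (star hd) ∧ psum e (a + b) u v = 0) := by
  obtain ⟨x, hx, hk, hs⟩ := hA
  obtain ⟨x', y, hx', hy, h1, h2⟩ := hE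
  have hxx : x' = x := hν (hx'.trans hx.symm)
  subst hxx
  have h3 : x'.1.2 + wd (e x'.1.1) u v = psum e (k + 1) u v := by
    rw [hs, ← hk, psum_succ]
  rw [h3] at h2
  rw [hk] at h1
  constructor
  · intro hlt
    rw [Nat.mod_eq_of_lt hlt] at h1
    exact ⟨y, hy, h1, h2⟩
  · intro heq
    rw [heq, Nat.mod_self] at h1
    have h4 := eq_star hd y h1
    rw [heq] at h2
    refine ⟨by rw [← hy, h4], ?_⟩
    rw [← h2, h4]
    rfl

/-- The path of a word. -/
def cyc (e : Fin (a + b) ≃ Fin b ⊕ Fin a) (ν : Vtx h e → Fin n) (u : Ed a b h → Bool)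
    (t : Fin (a + b)) : Fin n :=
  ν ⟨(t, psum e t u (mt u)), Finset.mem_image.2 ⟨u, Finset.mem_univ _, rfl⟩⟩

theorem cyc_injective (hν : Function.Injective ν) (u : Ed a b h → Bool) :
    Function.Injective (cyc e ν u) := by
  intro t t' htt
  have h1 := hν htt
  exact congrArg (fun x : Vtx h e => x.1.1) h1

theorem At.eq_cyc (hν : Function.Injective ν) {u : Ed a b h → Bool} {k : ℕ}
    {p : Fin n} (hA : At ν u (mt u) k p) (hk : k < a + b) : p = cyc e ν u ⟨k, hk⟩ := by
  obtain ⟨x, hx, hk', hs⟩ := hA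
  rw [← hx, cyc]
  congr 1
  apply Subtype.ext
  exact Prod.ext (Fin.ext hk') hs

theorem star_eq_cyc (hd : 2 ≤ a + b) (u : Ed a b h → Bool) :
    ν (star hd) = cyc e ν u ⟨0, by omega⟩ := by
  rw [cyc]
  congr 1
  symm
  exact eq_star hd _ rfl

theorem rot_val (d : ℕ) (t : Fin d) : ((finRotate d t : Fin d) : ℕ) = (t + 1) % d := by
  obtain ⟨d, rfl⟩ : ∃ d', d = d' + 1 := ⟨d - 1, by have := t.2; omega⟩
  rw [coe_finRotate]
  by_cases ht : t = Fin.last d
  · rw [if_pos ht, ht, Fin.val_last, Nat.mod_self]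
  · rw [if_neg ht, Nat.mod_eq_of_lt]
    have h1 := t.2
    have h2 : (t : ℕ) ≠ d := fun h => ht (Fin.ext h)
    omega

theorem edge_cyc (u : Ed a b h → Bool) (t : Fin (a + b)) :
    Edge e ν (cyc e ν u t) (cyc e ν u (finRotate (a + b) t)) u (mt u) := by
  refine ⟨_, _, rfl, rfl, rot_val _ _, ?_⟩
  show psum e (finRotate (a + b) t) u (mt u) = psum e t u (mt u) + wd (e t) u (mt u)
  rw [← psum_succ, rot_val]
  by_cases ht : (t : ℕ) + 1 < a + b
  · rw [Nat.mod_eq_of_lt ht]
  · have h1 : (t : ℕ) + 1 = a + b := by have := t.2; omega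
    rw [h1, Nat.mod_self, psum_zero, psum_all, (sum_wd_eq_zero u (mt u)).2 rfl]

open Classical in
/-- The cycle of a word. -/
noncomputable def sig (e : Fin (a + b) ≃ Fin b ⊕ Fin a) (ν : Vtx h e → Fin n)
    (hν : Function.Injective ν) (u : Ed a b h → Bool) : Equiv.Perm (Fin n) :=
  (finRotate (a + b)).viaEmbedding ⟨cyc e ν u, cyc_injective hν u⟩

theorem sig_cyc (hν : Function.Injective ν) (u : Ed a b h → Bool) (t : Fin (a + b)) :
    sig e ν hν u (cyc e ν u t) = cyc e ν u (finRotate (a + b) t) :=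
  Equiv.Perm.viaEmbedding_apply (finRotate (a + b)) ⟨cyc e ν u, cyc_injective hν u⟩ t

theorem sig_of_notMem (hν : Function.Injective ν) (u : Ed a b h → Bool) {p : Fin n}
    (hp : p ∉ Set.range (cyc e ν u)) : sig e ν hν u p = p :=
  Equiv.Perm.viaEmbedding_apply_of_notMem (finRotate (a + b)) ⟨cyc e ν u, cyc_injective hν u⟩ p hp

theorem via_isCycle {α β : Type*} (f : Equiv.Perm α) (ι : α ↪ β) (h : f.IsCycle) :
    (f.viaEmbedding ι).IsCycle := by
  rw [Equiv.Perm.viaEmbedding]
  exact @Equiv.Perm.IsCycle.extendDomain α β f (fun x => x ∈ Set.range ι.1)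
    (fun _ => Classical.propDecidable _) (Equiv.ofInjective ι.1 ι.2) h

theorem via_card {α β : Type*} [Fintype α] [DecidableEq α] [Fintype β] [DecidableEq β]
    (f : Equiv.Perm α) (ι : α ↪ β) : (f.viaEmbedding ι).support.card = f.support.card := by
  have h : (f.viaEmbedding ι).support = f.support.map ι := by
    ext x
    rw [Finset.mem_map, Equiv.Perm.mem_support]
    by_cases hx : x ∈ Set.range ι
    · obtain ⟨y, rfl⟩ := hx
      rw [Equiv.Perm.viaEmbedding_apply]
      constructor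
      · intro h1
        exact ⟨y, Equiv.Perm.mem_support.2 fun h2 => h1 (by rw [h2]), rfl⟩
      · rintro ⟨z, hz, hzy⟩
        rw [ι.injective hzy] at hz
        exact fun h2 => Equiv.Perm.mem_support.1 hz (ι.injective h2)
    · rw [Equiv.Perm.viaEmbedding_apply_of_notMem _ _ _ hx]
      constructor
      · intro h1; exact absurd rfl h1
      · rintro ⟨z, _, rfl⟩
        exact absurd ⟨z, rfl⟩ hx
  rw [h, Finset.card_map]

theorem sig_isCycle (hν : Function.Injective ν) (hd : 2 ≤ a + b) (u : Ed a b h → Bool) :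
    (sig e ν hν u).IsCycle :=
  via_isCycle _ _ (isCycle_finRotate_of_le hd)

theorem sig_card (hν : Function.Injective ν) (hd : 2 ≤ a + b) (u : Ed a b h → Bool) :
    (sig e ν hν u).support.card = a + b := by
  rw [sig, via_card, support_finRotate_of_le hd, Finset.card_univ, Fintype.card_fin]

theorem rot_ne (hd : 2 ≤ a + b) (t : Fin (a + b)) : finRotate (a + b) t ≠ t := by
  intro h1
  have h2 := rot_val _ t
  rw [h1] at h2
  have h3 := t.2
  by_cases h4 : (t : ℕ) + 1 < a + b
  · rw [Nat.mod_eq_of_lt h4] at h2; omega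
  · have h5 : (t : ℕ) + 1 = a + b := by omega
    rw [h5, Nat.mod_self] at h2; omega

/-- The entries of the matrix near the unit matrix. -/
noncomputable def ent (R : Type*) [CommRing R] (e : Fin (a + b) ≃ Fin b ⊕ Fin a)
    (ν : Vtx h e → Fin n) (l₀ : Fin b ⊕ Fin a) (u v : Ed a b h → Bool) (p q : Fin n) :
    SF (Fin b ⊕ Fin a) R := by
  classical
  exact SF.cst (if p = q then 1 else 0) +
    SF.sgl {lb e ν l₀ p} (if Edge e ν p q u v then 1 else 0)

variable {R : Type*} [CommRing R] {l₀ : Fin b ⊕ Fin a} {u v : Ed a b h → Bool}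

theorem sgl_zero {ι : Type*} [DecidableEq ι] (S : Finset ι) :
    (SF.sgl S (0 : R) : SF ι R) = 0 := by
  refine SF.ext' fun T => ?_
  rw [SF.sgl_apply, SF.zero_def, ite_self]

theorem ent_self (hν : Function.Injective ν) (hd : 2 ≤ a + b) (p : Fin n) :
    ent R e ν l₀ u v p p = 1 := by
  rw [ent, if_pos rfl, if_neg (not_edge_self hν hd p u v), sgl_zero, add_zero, map_one]

theorem ent_of_not {p q : Fin n} (hpq : p ≠ q) (hE : ¬ Edge e ν p q u v) :
    ent R e ν l₀ u v p q = 0 := by
  rw [ent, if_neg hpq, if_neg hE, sgl_zero, add_zero, map_zero]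

theorem ent_edge {p q : Fin n} (hpq : p ≠ q) (hE : Edge e ν p q u v) :
    ent R e ν l₀ u v p q = SF.sgl {lb e ν l₀ p} 1 := by
  rw [ent, if_neg hpq, if_pos hE, map_zero, zero_add]

/-- **The products over permutations which move the first vertex.** -/
theorem prod_ent (hν : Function.Injective ν) (hd : 2 ≤ a + b) (σ : Equiv.Perm (Fin n))
    (hσ : σ (ν (star hd)) ≠ ν (star hd)) :
    (¬ (v = mt u ∧ σ = sig e ν hν u) → ∏ p, ent R e ν l₀ u v p (σ p) = 0) ∧
    (v = mt u → σ = sig e ν hν u →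
      ∏ p, ent R e ν l₀ u v p (σ p) = SF.sgl Finset.univ 1) := by
  classical
  constructor
  · intro hnot
    by_cases hall : ∀ p, σ p ≠ p → Edge e ν p (σ p) u v
    · -- the orbit of the first vertex
      have horb : ∀ k, k < a + b → At ν u v k ((σ ^ k) (ν (star hd))) ∧
          σ ((σ ^ k) (ν (star hd))) ≠ (σ ^ k) (ν (star hd)) := by
        intro k
        induction k with
        | zero =>
          intro _
          rw [pow_zero, Equiv.Perm.one_apply]
          exact ⟨⟨star hd, rfl, rfl, (psum_zero e u v).symm⟩, hσ⟩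
        | succ k ih =>
          intro hk
          obtain ⟨h1, h2⟩ := ih (by omega)
          rw [pow_succ', Equiv.Perm.mul_apply]
          exact ⟨(h1.step hν hd (hall _ h2)).1 hk, fun h => h2 (σ.injective h)⟩
      have hdd : a + b - 1 + 1 = a + b := by omega
      obtain ⟨h1, h2⟩ := horb (a + b - 1) (by omega)
      have h3 := (h1.step hν hd (hall _ h2)).2 hdd
      have hv : v = mt u := by
        rw [← sum_wd_eq_zero, ← psum_all e]
        exact h3.2
      subst hv
      have hc : ∀ t : Fin (a + b), (σ ^ (t : ℕ)) (ν (star hd)) = cyc e ν u t := fun t =>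
        (horb t t.2).1.eq_cyc hν t.2
      have hsc : ∀ t, σ (cyc e ν u t) = cyc e ν u (finRotate (a + b) t) := by
        intro t
        by_cases ht : (t : ℕ) + 1 < a + b
        · have h4 := hc (finRotate (a + b) t)
          rw [rot_val, Nat.mod_eq_of_lt ht, pow_succ', Equiv.Perm.mul_apply, hc t] at h4
          exact h4
        · have h4 : (t : ℕ) + 1 = a + b := by have := t.2; omega
          have h5 : (t : ℕ) = a + b - 1 := by omega
          have h6 : finRotate (a + b) t = ⟨0, by omega⟩ := by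
            apply Fin.ext
            rw [rot_val, h4, Nat.mod_self]
          rw [h6, ← star_eq_cyc hd u, ← h3.1, ← hc t, h5]
      have hne : ∃ p, p ∉ Set.range (cyc e ν u) ∧ σ p ≠ p := by
        by_contra hcon
        push Not at hcon
        apply hnot
        refine ⟨rfl, Equiv.ext fun p => ?_⟩
        by_cases hp : p ∈ Set.range (cyc e ν u)
        · obtain ⟨t, rfl⟩ := hp
          rw [hsc, sig_cyc]
        · rw [hcon p hp, sig_of_notMem hν u hp]
      obtain ⟨p, hp, hp'⟩ := hne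
      obtain ⟨x, y, hx, _, _, _⟩ := hall p hp'
      have hpc : cyc e ν u x.1.1 ≠ p := fun h => hp ⟨_, h⟩
      have h4 : ent R e ν l₀ u (mt u) p (σ p) = SF.sgl {e x.1.1} 1 := by
        rw [ent_edge hp'.symm (hall p hp'), ← hx, lb_apply hν]
      have h5 : ent R e ν l₀ u (mt u) (cyc e ν u x.1.1) (σ (cyc e ν u x.1.1)) =
          SF.sgl {e x.1.1} 1 := by
        rw [hsc, ent_edge _ (edge_cyc u _)]
        · rw [cyc, lb_apply hν]
        · intro h6
          exact rot_ne hd _ (cyc_injective hν u h6).symm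
      rw [← Finset.mul_prod_erase _ _ (Finset.mem_univ p),
        ← Finset.mul_prod_erase _ _ (Finset.mem_erase.2 ⟨hpc, Finset.mem_univ _⟩), h4, h5,
        ← mul_assoc, SF.sgl_mul_zero, zero_mul]
      simp
    · push Not at hall
      obtain ⟨p, hp, hE⟩ := hall
      exact Finset.prod_eq_zero (Finset.mem_univ p) (ent_of_not hp.symm hE)
  · rintro rfl rfl
    have h1 : ∏ p, ent R e ν l₀ u (mt u) p (sig e ν hν u p) =
        ∏ t, ent R e ν l₀ u (mt u) (cyc e ν u t) (sig e ν hν u (cyc e ν u t)) := by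
      have h2 := Finset.prod_map Finset.univ ⟨cyc e ν u, cyc_injective hν u⟩
        (fun p => ent R e ν l₀ u (mt u) p (sig e ν hν u p))
      refine Eq.trans ?_ h2
      symm
      refine Finset.prod_subset (Finset.subset_univ _) fun p _ hp => ?_
      have hp' : p ∉ Set.range (cyc e ν u) := by
        rintro ⟨t, rfl⟩
        exact hp (Finset.mem_map.2 ⟨t, Finset.mem_univ _, rfl⟩)
      rw [sig_of_notMem hν u hp', ent_self hν hd]
    rw [h1]
    have h2 : ∀ t, ent R e ν l₀ u (mt u) (cyc e ν u t) (sig e ν hν u (cyc e ν u t)) =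
        SF.sgl {e t} 1 := by
      intro t
      rw [sig_cyc, ent_edge _ (edge_cyc u t)]
      · rw [cyc, lb_apply hν]
      · intro h6
        exact rot_ne hd _ (cyc_injective hν u h6).symm
    rw [Finset.prod_congr rfl fun t _ => h2 t,
      Equiv.prod_comp e (fun l => (SF.sgl {l} 1 : SF (Fin b ⊕ Fin a) R)), SF.prod_sgl,
      Finset.prod_const_one]

end

end Pool.Agent.Y531.Mul
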