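import Pool.Agent.Y531.Prod

/-!
# Expansions of algebraic functions
-/

set_option autoImplicit false
set_option linter.unusedSectionVars false
set_option maxHeartbeats 1000000
set_option synthInstance.maxHeartbeats 200000

namespace Pool.Agent.Y531.Mul

open Finset Pool.Agent.Y531

section
variable (ι U V K : Type*) [DecidableEq ι] [Field K]

/-- The set functions whose value at the empty set is a constant function. -/
def csub : Subring (SF ι (U → V → K)) where
  carrier := {f | ∃ c : K, f ∅ = fun _ _ => c}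
  mul_mem' := by
    rintro f g ⟨c, hc⟩ ⟨d, hd⟩
    refine ⟨c * d, ?_⟩
    have h1 : (f * g) ∅ = f ∅ * g ∅ := map_mul (SF.ev0 (ι := ι) (R := U → V → K)) f g
    rw [h1, hc, hd]
    rfl
  one_mem' := ⟨1, by rw [SF.one_def, if_pos rfl]; rfl⟩
  add_mem' := by
    rintro f g ⟨c, hc⟩ ⟨d, hd⟩
    refine ⟨c + d, ?_⟩
    rw [SF.add_def, hc, hd]
    rfl
  zero_mem' := ⟨0, rfl⟩
  neg_mem' := by
    rintro f ⟨c, hc⟩
    refine ⟨-c, ?_⟩
    rw [SF.neg_def, hc]
    rfl

variable {ι U V K}

theorem mem_csub {f : SF ι (U → V → K)} : f ∈ csub ι U V K ↔ ∃ c : K, f ∅ = fun _ _ => c := Iff.rfl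

theorem isUnit_csub [Fintype ι] {f : csub ι U V K} {c : K} (hc : c ≠ 0)
    (hf : (f : SF ι (U → V → K)) ∅ = fun _ _ => c) : IsUnit f := by
  have h1 : IsUnit (f : SF ι (U → V → K)) := by
    apply SF.isUnit_of_apply_empty
    rw [hf]
    exact (isUnit_iff_ne_zero.2 hc).map (algebraMap K (U → V → K))
  obtain ⟨g, hg⟩ := h1.exists_right_inv
  have h2 : (f : SF ι (U → V → K)) ∅ * g ∅ = 1 := by
    have h3 := map_mul (SF.ev0 (ι := ι) (R := U → V → K)) (f : SF ι (U → V → K)) g
    rw [hg, map_one] at h3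
    exact h3.symm
  have h3 : g ∈ csub ι U V K := by
    refine ⟨c⁻¹, ?_⟩
    funext u v
    have h4 := congrFun (congrFun h2 u) v
    rw [hf, Pi.mul_apply, Pi.mul_apply, Pi.one_apply, Pi.one_apply] at h4
    exact (eq_inv_of_mul_eq_one_right h4)
  exact IsUnit.of_mul_eq_one (⟨g, h3⟩ : csub ι U V K) (Subtype.ext hg)

/-- The constant term at a pair. -/
def evc (u : U) (v : V) : csub ι U V K →+* K :=
  ((Pi.evalRingHom (fun _ : V => K) v).comp (Pi.evalRingHom (fun _ : U => V → K) u)).comp
    ((SF.ev0 (ι := ι) (R := U → V → K)).comp (csub ι U V K).subtype)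

theorem evc_apply (u : U) (v : V) (f : csub ι U V K) :
    evc u v f = (f : SF ι (U → V → K)) ∅ u v := rfl

theorem evc_surjective (u : U) (v : V) : Function.Surjective (evc (ι := ι) (K := K) u v) := by
  intro c
  refine ⟨⟨SF.cst (fun _ _ => c), ⟨c, ?_⟩⟩, ?_⟩
  · rw [SF.cst_apply, if_pos rfl]
  · rw [evc_apply]
    show (SF.cst (fun _ _ => c) : SF ι (U → V → K)) ∅ u v = c
    rw [SF.cst_apply, if_pos rfl]

theorem ker_evc_nilpotent [Fintype ι] (u : U) (v : V) :
    IsNilpotent (RingHom.ker (evc (ι := ι) (K := K) u v)) := by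
  have key : ∀ k : ℕ, ∀ f ∈ (RingHom.ker (evc (ι := ι) (K := K) u v)) ^ k, ∀ S : Finset ι,
      S.card < k → (f : SF ι (U → V → K)) S = 0 := by
    intro k
    induction k with
    | zero => intro f _ S hS; exact absurd hS (Nat.not_lt_zero _)
    | succ k ih =>
      intro f hf
      rw [pow_succ] at hf
      refine Submodule.mul_induction_on hf ?_ ?_
      · intro g hg h hh S hS
        have h0 : (h : SF ι (U → V → K)) ∅ = 0 := by
          obtain ⟨c, hc⟩ := h.2
          rw [RingHom.mem_ker, evc_apply, hc] at hh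
          rw [hc]
          funext _ _
          exact hh
        show ((g : SF ι (U → V → K)) * (h : SF ι (U → V → K)) : SF ι (U → V → K)) S = 0
        rw [SF.mul_def]
        refine Finset.sum_eq_zero fun T hT => ?_
        rw [Finset.mem_powerset] at hT
        by_cases hST : S \ T = ∅
        · rw [hST, h0, mul_zero]
        · rw [ih g hg T, zero_mul]
          have h1 : (S \ T).card + T.card = S.card := Finset.card_sdiff_add_card_eq_card hT
          have h2 : 0 < (S \ T).card := Finset.card_pos.2 (Finset.nonempty_iff_ne_empty.2 hST)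
          omega
      · intro x y hx hy S hS
        show (x : SF ι (U → V → K)) S + (y : SF ι (U → V → K)) S = 0
        rw [hx S hS, hy S hS, add_zero]
  refine ⟨Fintype.card ι + 1, ?_⟩
  rw [Ideal.zero_eq_bot, eq_bot_iff]
  intro f hf
  rw [Ideal.mem_bot]
  apply Subtype.ext
  refine SF.ext' fun S => ?_
  rw [key _ f hf S (Nat.lt_succ_of_le (Finset.card_le_univ S))]
  rfl

end

/-- **Expansions of algebraic functions.** -/
theorem exists_expansion {ι U V K L σ : Type*} [DecidableEq ι] [Fintype ι] [Nonempty U] [Nonempty V]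
    [Field K] [IsAlgClosed K] [Field L] [CharZero L]
    (φ : MvPolynomial σ L →+* SF ι (U → V → K))
    (hc : ∀ p, ∃ c : K, φ p ∅ = fun _ _ => c) (hinj : ∀ p, p ≠ 0 → φ p ∅ ≠ 0) :
    ∃ Φ : AlgebraicClosure (FractionRing (MvPolynomial σ L)) →+* SF ι (U → V → K),
      (∀ p, Φ (algebraMap (MvPolynomial σ L) _ p) = φ p) ∧
      ∀ w, ∃ c : K, Φ w ∅ = fun _ _ => c := by
  classical
  set R := MvPolynomial σ L with hR
  set E := FractionRing R with hE
  set Ω := AlgebraicClosure E with hΩ
  set B := csub ι U V K with hB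
  let φ₀ : R →+* B := φ.codRestrict B hc
  have hunit : ∀ y : nonZeroDivisors R, IsUnit (φ₀ y) := by
    rintro ⟨y, hy⟩
    have hy0 : y ≠ 0 := nonZeroDivisors.ne_zero hy
    obtain ⟨c, hc'⟩ := hc y
    refine isUnit_csub (c := c) ?_ hc'
    rintro rfl
    exact hinj y hy0 hc'
  let φE : E →+* B := IsLocalization.lift hunit
  have hφE : ∀ p, φE (algebraMap R E p) = φ₀ p := fun p => IsLocalization.lift_eq hunit p
  obtain ⟨u₀⟩ := (inferInstance : Nonempty U)
  obtain ⟨v₀⟩ := (inferInstance : Nonempty V)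
  let _ : Algebra E B := φE.toAlgebra
  let _ : Algebra E K := ((evc u₀ v₀).comp φE).toAlgebra
  let g : B →ₐ[E] K := { evc u₀ v₀ with commutes' := fun _ => rfl }
  have : Module.IsTorsionFree E K := Module.isTorsionFree_iff_algebraMap_injective.2
    (algebraMap E K).injective
  let f : Ω →ₐ[E] K := IsAlgClosed.lift
  have : CharZero E := charZero_of_injective_algebraMap (R := L) (algebraMap L E).injective
  have : Algebra.FormallyEtale E Ω := Algebra.FormallyEtale.of_isSeparable E Ω
  let Ψ : Ω →ₐ[E] B := Algebra.FormallySmooth.liftOfSurjective f g (evc_surjective u₀ v₀)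
    (ker_evc_nilpotent u₀ v₀)
  refine ⟨B.subtype.comp (Ψ : Ω →+* B), fun p => ?_, fun w => (Ψ w).2⟩
  have h1 : algebraMap R Ω p = algebraMap E Ω (algebraMap R E p) :=
    IsScalarTower.algebraMap_apply R E Ω p
  rw [RingHom.comp_apply, h1]
  show ((Ψ (algebraMap E Ω (algebraMap R E p)) : B) : SF ι (U → V → K)) = φ p
  rw [Ψ.commutes]
  show ((φE (algebraMap R E p) : B) : SF ι (U → V → K)) = φ p
  rw [hφE]
  rfl

end Pool.Agent.Y531.Mul
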