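import Pool.Agent.Y531.Mul.Coprime

/-!
# Building circuits
-/

set_option autoImplicit false
set_option linter.unusedSectionVars false
set_option maxHeartbeats 1000000
set_option synthInstance.maxHeartbeats 200000

namespace Pool.Agent.Y531.Mul

open Finset MvPolynomial

variable {σ L : Type*} [Field L]

theorem Lin_mono {S S' : Set (AF σ L)} (h : S ⊆ S') : Lin S ≤ Lin S' :=
  Submodule.span_mono (Set.insert_subset_insert (Set.union_subset_union_right _ h))

theorem mem_Lin {S : Set (AF σ L)} {f : AF σ L} (h : f ∈ S) : f ∈ Lin S :=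
  Submodule.subset_span (Or.inr (Or.inr h))

theorem one_mem_Lin {S : Set (AF σ L)} : (1 : AF σ L) ∈ Lin S :=
  Submodule.subset_span (Or.inl rfl)

theorem X_mem_Lin {S : Set (AF σ L)} (j : σ) :
    algebraMap (MvPolynomial σ L) (AF σ L) (X j) ∈ Lin S :=
  Submodule.subset_span (Or.inr (Or.inl ⟨j, rfl⟩))

theorem IsGate.mono {s s' m : ℕ} (hs : s ≤ s') {S S' : Set (AF σ L)} (h : S ⊆ S') {f : AF σ L}
    (hf : IsGate s m S f) : IsGate s' m S' f := by
  rcases hf with ⟨p, e₀, l, e, e', hp, he₀, hl, hne, hf⟩ | ⟨l, hl, hf⟩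
  · exact Or.inl ⟨p, e₀, l, e, e', hp.trans hs, he₀, fun j => Lin_mono h (hl j), hne, hf⟩
  · exact Or.inr ⟨l, fun j => Lin_mono h (hl j), hf⟩

/-- The empty product. -/
theorem isGate_one (s m : ℕ) (S : Set (AF σ L)) : IsGate s m S (1 : AF σ L) :=
  Or.inl ⟨0, 1, fun i => i.elim0, fun i => i.elim0, fun i => i.elim0, Nat.zero_le _, one_ne_zero,
    fun j => j.elim0, by simp, by simp⟩

/-- A circuit with gates which are indexed in any way. -/
theorem exists_circuit {J : Type*} [Fintype J] {s Δ m : ℕ} (γ : J → AF σ L) (dep : J → ℕ)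
    (hdep : ∀ j, dep j ≤ Δ)
    (hgate : ∀ j, IsGate s m {f | ∃ j', dep j' < dep j ∧ f = γ j'} (γ j))
    (hcard : Fintype.card J ≤ s) :
    ∃ C : Circuit σ L s Δ m, ∀ f, f ∈ Lin (Set.range γ) → C.Computes f := by
  classical
  obtain ⟨e⟩ : Nonempty (J ↪ Fin s) :=
    Function.Embedding.nonempty_of_card_le (by rw [Fintype.card_fin]; exact hcard)
  have hg : ∀ j, Function.extend e γ (fun _ => 1) (e j) = γ j := fun j =>
    e.injective.extend_apply _ _ _
  have hd : ∀ j, Function.extend e dep (fun _ => 0) (e j) = dep j := fun j =>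
    e.injective.extend_apply _ _ _
  refine ⟨⟨Function.extend e γ (fun _ => 1), Function.extend e dep (fun _ => 0), ?_, ?_⟩, ?_⟩
  · intro i
    by_cases h : ∃ j, e j = i
    · obtain ⟨j, rfl⟩ := h
      rw [hd]; exact hdep j
    · rw [Function.extend_apply' _ _ _ h]; exact Nat.zero_le _
  · intro i
    by_cases h : ∃ j, e j = i
    · obtain ⟨j, rfl⟩ := h
      rw [hd, hg]
      refine (hgate j).mono le_rfl ?_
      rintro f ⟨j', hj', rfl⟩
      exact ⟨e j', by rw [hd]; exact hj', (hg j').symm⟩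
    · have h1 : Function.extend e γ (fun _ => 1) i = 1 := Function.extend_apply' γ _ i h
      rw [h1]
      exact isGate_one _ _ _
  · intro f hf
    refine Lin_mono ?_ hf
    rintro _ ⟨j, rfl⟩
    exact ⟨e j, hg j⟩

/-- One more inversion. -/
theorem exists_circuit_inv {s Δ m : ℕ} (C : Circuit σ L s Δ m) {f : AF σ L} (hf : C.Computes f)
    (hf0 : f ≠ 0) : ∃ C' : Circuit σ L (s + 1) (Δ + 1) m, C'.Computes f⁻¹ := by
  classical
  obtain ⟨C', hC'⟩ := exists_circuit (s := s + 1) (Δ := Δ + 1) (m := m) (J := Option (Fin s))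
    (fun j => j.elim f⁻¹ C.g) (fun j => j.elim (Δ + 1) C.depth) (by
      rintro (_ | i)
      · exact le_rfl
      · exact (C.depth_le i).trans (Nat.le_succ _)) (by
      rintro (_ | i)
      · refine Or.inl ⟨1, 1, fun _ => f, fun _ => 0, fun _ => 1, Nat.le_add_left _ _,
          one_ne_zero, fun _ => ?_, by simpa using hf0, by simp [hf0]⟩
        refine Lin_mono ?_ hf
        rintro _ ⟨i, rfl⟩
        exact ⟨some i, Nat.lt_succ_of_le (C.depth_le i), rfl⟩
      · refine (C.isGate i).mono (Nat.le_succ _) ?_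
        rintro _ ⟨i', hi', rfl⟩
        exact ⟨some i', hi', rfl⟩) (by rw [Fintype.card_option, Fintype.card_fin])
  exact ⟨C', hC' _ (mem_Lin ⟨none, rfl⟩)⟩

theorem inc_injective {σ L : Type*} [Field L] :
    Function.Injective (algebraMap (MvPolynomial σ L) (AF σ L)) :=
  (algebraMap (FractionRing (MvPolynomial σ L)) (AF σ L)).injective.comp
    (IsFractionRing.injective _ _)

/-- The bound for quotients. -/
theorem quot_bound (c Δ : ℕ) : ∃ d q₀ n₀ : ℕ, 2 ≤ d ∧ ∀ n, n₀ ≤ n →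
    ∀ (F : Type*) [Field F] [CharZero F] (χ : Equiv.Perm (Fin n) → F), χ 1 ≠ 0 →
    (∀ σ : Equiv.Perm (Fin n), σ.IsCycle → σ.support.card = d → χ σ ≠ 0) →
    ∀ (s m : ℕ), s ≤ n ^ c → m ^ q₀ ≤ n →
    ∀ (C : Circuit (Fin n × Fin n) (LaurentSeries F) s Δ m)
      (R₀ : AF (Fin n × Fin n) (LaurentSeries F))
      (f₃ h₃ : MvPolynomial (Fin n × Fin n) (PowerSeries F)), C.Computes R₀ →
      R₀ * algebraMap (MvPolynomial (Fin n × Fin n) (LaurentSeries F)) _
          (MvPolynomial.map (HahnSeries.ofPowerSeries ℤ F) h₃) =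
        algebraMap (MvPolynomial (Fin n × Fin n) (LaurentSeries F)) _
          (MvPolynomial.map (HahnSeries.ofPowerSeries ℤ F) f₃) →
      MvPolynomial.map PowerSeries.constantCoeff f₃ ≠ 0 →
      MvPolynomial.map PowerSeries.constantCoeff h₃ ≠ 0 →
      IsRelPrime (MvPolynomial.map PowerSeries.constantCoeff f₃)
        (MvPolynomial.map PowerSeries.constantCoeff h₃) →
      ∀ k : ℕ, ¬ FX χ ∣ (MvPolynomial.map PowerSeries.constantCoeff f₃) ^ k ∧
        ¬ FX χ ∣ (MvPolynomial.map PowerSeries.constantCoeff h₃) ^ k := by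
  obtain ⟨d, q₀, n₀, hd, H⟩ := mul_bound (c + 1) (Δ + 1)
  refine ⟨d, q₀, n₀ + 2, hd, ?_⟩
  intro n hn F _ _ χ hχ1 hχd s m hs hm C R₀ f₃ h₃ hC hR hf hh hfh k
  have h1 : s + 1 ≤ n ^ (c + 1) := by
    have h2 : 1 ≤ n ^ c := Nat.one_le_pow _ _ (by omega)
    calc s + 1 ≤ n ^ c + n ^ c := by omega
      _ = n ^ c * 2 := by ring
      _ ≤ n ^ c * n := Nat.mul_le_mul_left _ (by omega)
      _ = n ^ (c + 1) := (pow_succ _ _).symm
  have hf₃ : algebraMap (MvPolynomial (Fin n × Fin n) (LaurentSeries F))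
      (AF (Fin n × Fin n) (LaurentSeries F))
      (MvPolynomial.map (HahnSeries.ofPowerSeries ℤ F) f₃) ≠ 0 := by
    intro h0
    apply hf
    have h2 : f₃ = 0 := by
      apply MvPolynomial.map_injective (HahnSeries.ofPowerSeries ℤ F)
        HahnSeries.ofPowerSeries_injective
      apply inc_injective
      rw [h0, map_zero, map_zero]
    rw [h2, map_zero]
  have hR0 : R₀ ≠ 0 := by
    rintro rfl
    rw [zero_mul] at hR
    exact hf₃ hR.symm
  constructor
  · intro hk
    obtain ⟨t, ht⟩ := H n (by omega) F χ hχ1 hχd s m (by omega) hm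
      ⟨C.g, C.depth, fun i => (C.depth_le i).trans (Nat.le_succ _), C.isGate⟩ R₀ f₃ h₃ hC hR hf hh
    exact absurd (ordr_lt χ t hχ1 hf hh hfh hk) (not_lt.2 ht)
  · intro hk
    obtain ⟨C', hC'⟩ := exists_circuit_inv C hC hR0
    obtain ⟨t, ht⟩ := H n (by omega) F χ hχ1 hχd (s + 1) m h1 hm C' R₀⁻¹ h₃ f₃ hC'
      (by rw [← hR, ← mul_assoc, inv_mul_cancel₀ hR0, one_mul]) hh hf
    exact absurd (ordr_lt χ t hχ1 hh hf hfh.symm hk) (not_lt.2 ht)

end Pool.Agent.Y531.Mul
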