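import Pool.Agent.Y531.Mul.Full
import Pool.Agent.Y531.Hit.Rank

/-!
# Fields of iterated Laurent series
-/

set_option autoImplicit false
set_option linter.unusedSectionVars false
set_option maxHeartbeats 1000000
set_option synthInstance.maxHeartbeats 200000

namespace Pool.Agent.Y531.Mul

open Finset Pool.Agent.W942 Pool.Agent.Y531

/-- The rank does not depend on the field. -/
theorem HasRk_descend {K K' U V : Type*} [Field K] [Field K'] (j : K →+* K') :
    ∀ (r : ℕ) (M : U → V → K), HasRk (fun u v => j (M u v)) r → HasRk M r := by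
  intro r
  induction r with
  | zero =>
    rintro M ⟨f, g, h⟩
    refine ⟨fun i => i.elim0, fun i => i.elim0, fun u v => ?_⟩
    apply j.injective
    have h1 := h u v
    simp only [Finset.univ_eq_empty, Finset.sum_empty] at h1
    rw [h1]
    simp
  | succ r ih =>
    intro M hM
    by_cases h0 : ∃ u v, M u v ≠ 0
    · obtain ⟨u₀, v₀, h1⟩ := h0
      have h2 := hasRk_elim hM u₀ v₀ (fun h => h1 (j.injective (by rw [h, map_zero])))
      have h3 : HasRk (fun u v => M u v - M u v₀ * (M u₀ v₀)⁻¹ * M u₀ v) r := by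
        refine ih _ (h2.congr fun u v => ?_)
        rw [map_sub, map_mul, map_mul, map_inv₀]
      have h4 : HasRk (fun u v => (M u v₀ * (M u₀ v₀)⁻¹) * M u₀ v) 1 :=
        HasRk.one_of_mul (fun u => M u v₀ * (M u₀ v₀)⁻¹) (fun v => M u₀ v) fun _ _ => rfl
      refine (h3.add h4).congr fun u v => ?_
      ring
    · push Not at h0
      exact (HasRk.zero.mono (Nat.zero_le _)).congr fun u v => h0 u v

section hmap
variable {R S : Type*} [Field R] [Field S] (δ : R →+* S)

/-- Laurent series with the coefficients mapped. -/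
noncomputable def hmap : LaurentSeries R →+* LaurentSeries S where
  toFun x := HahnSeries.map x δ
  map_one' := HahnSeries.map_one δ.toMonoidWithZeroHom
  map_mul' _ _ := HahnSeries.map_mul (δ : R →ₙ+* S)
  map_zero' := by ext; simp
  map_add' _ _ := HahnSeries.map_add (δ : R →+ S)

theorem coeff_hmap (x : LaurentSeries R) (k : ℤ) :
    HahnSeries.coeff (hmap δ x) k = δ (HahnSeries.coeff x k) := rfl

theorem hmap_ofPS (p : PowerSeries R) : hmap δ (HahnSeries.ofPowerSeries ℤ R p) =
    HahnSeries.ofPowerSeries ℤ S (PowerSeries.map δ p) := by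
  ext k
  rw [coeff_hmap]
  have h1 := PowerSeries.coeff_coe p k
  have h2 := PowerSeries.coeff_coe (PowerSeries.map δ p) k
  refine (congrArg δ h1).trans (Eq.trans ?_ h2.symm)
  by_cases hk : k < 0
  · rw [if_pos hk, if_pos hk, map_zero]
  · rw [if_neg hk, if_neg hk, PowerSeries.coeff_map]

theorem eval_ne_zero {σ : Type*} (z : σ → S)
    (hinj : ∀ q : MvPolynomial σ R, q ≠ 0 → q.eval₂ δ z ≠ 0)
    (p : MvPolynomial σ (LaurentSeries R)) (hp : p ≠ 0) :
    p.eval₂ (hmap δ) (fun x => (HahnSeries.C (z x) : LaurentSeries S)) ≠ 0 := by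
  classical
  obtain ⟨μ, hμ⟩ := MvPolynomial.exists_coeff_ne_zero hp
  obtain ⟨k, hk⟩ : ∃ k, HahnSeries.coeff (MvPolynomial.coeff μ p) k ≠ 0 := by
    by_contra hcon
    push Not at hcon
    exact hμ (HahnSeries.ext (funext hcon))
  set q : MvPolynomial σ R := ∑ μ ∈ p.support, MvPolynomial.monomial μ
    (HahnSeries.coeff (MvPolynomial.coeff μ p) k) with hq
  have hq0 : q ≠ 0 := by
    intro h0
    apply hk
    have h1 : MvPolynomial.coeff μ q = HahnSeries.coeff (MvPolynomial.coeff μ p) k := by
      rw [hq, MvPolynomial.coeff_sum, Finset.sum_eq_single μ]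
      · rw [MvPolynomial.coeff_monomial, if_pos rfl]
      · intro μ' _ hne
        rw [MvPolynomial.coeff_monomial, if_neg hne]
      · intro h2
        rw [MvPolynomial.notMem_support_iff] at h2
        exact absurd h2 hμ
    rw [← h1, h0, MvPolynomial.coeff_zero]
  intro h0
  apply hinj q hq0
  have h1 : q.eval₂ δ z = HahnSeries.coeff (p.eval₂ (hmap δ)
      (fun x => (HahnSeries.C (z x) : LaurentSeries S))) k := by
    rw [hq, MvPolynomial.eval₂_sum, MvPolynomial.eval₂_eq (hmap δ), HahnSeries.coeff_sum]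
    refine Finset.sum_congr rfl fun μ' _ => ?_
    have h2 : (∏ i ∈ μ'.support, (HahnSeries.C (z i) : LaurentSeries S) ^ μ' i) =
        HahnSeries.C (∏ i ∈ μ'.support, z i ^ μ' i) := by
      rw [map_prod]
      exact Finset.prod_congr rfl fun i _ => (map_pow _ _ _).symm
    rw [h2, coeff_mul_C, coeff_hmap, MvPolynomial.eval₂_monomial]
    rfl
  rw [h1, h0, HahnSeries.coeff_zero]

end hmap

end Pool.Agent.Y531.Mul
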