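import Mathlib

/-!
# Elimination of a set of indices
-/

set_option autoImplicit false
set_option linter.unusedSectionVars false
set_option maxHeartbeats 1000000

namespace Pool.Agent.Y531.Mul

open Finset Matrix

section comm
variable {ι R : Type*} [Fintype ι] [DecidableEq ι] [CommRing R]

/-- The matrix `M` on `v × v`, the identity elsewhere. -/
def res (v : Finset ι) (M : Matrix ι ι R) : Matrix ι ι R :=
  Matrix.of fun i j => if i ∈ v ∧ j ∈ v then M i j else (1 : Matrix ι ι R) i j

theorem res_apply (v : Finset ι) (M : Matrix ι ι R) (i j : ι) :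
    res v M i j = if i ∈ v ∧ j ∈ v then M i j else (1 : Matrix ι ι R) i j := rfl

theorem res_res {v w : Finset ι} (h : v ⊆ w) (M : Matrix ι ι R) : res v (res w M) = res v M := by
  ext i j
  rw [res_apply v (res w M), res_apply v M]
  by_cases h1 : i ∈ v ∧ j ∈ v
  · rw [if_pos h1, if_pos h1, res_apply, if_pos ⟨h h1.1, h h1.2⟩]
  · rw [if_neg h1, if_neg h1]

theorem res_univ (M : Matrix ι ι R) : res Finset.univ M = M := by
  ext i j
  rw [res_apply, if_pos ⟨Finset.mem_univ _, Finset.mem_univ _⟩]

/-- All principal minors are different from zero. -/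
def AllPrin (M : Matrix ι ι R) : Prop := ∀ v, (res v M).det ≠ 0

end comm

variable {ι K : Type*} [Fintype ι] [DecidableEq ι] [Field K]

/-- The term which is subtracted when the indices in `v` are eliminated. -/
noncomputable def con (v : Finset ι) (M : Matrix ι ι K) (i j : ι) : K :=
  ∑ k ∈ v, ∑ l ∈ v, M i k * (res v M)⁻¹ k l * M l j

/-- The matrix after the elimination of the indices in `v`. -/
noncomputable def red (v : Finset ι) (M : Matrix ι ι K) : Matrix ι ι K :=
  Matrix.of fun i j => if i ∈ v ∨ j ∈ v then (1 : Matrix ι ι K) i j else M i j - con v M i j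

theorem red_apply (v : Finset ι) (M : Matrix ι ι K) (i j : ι) : red v M i j =
    if i ∈ v ∨ j ∈ v then (1 : Matrix ι ι K) i j else M i j - con v M i j := rfl

theorem det_red {v : Finset ι} {M : Matrix ι ι K} (h : (res v M).det ≠ 0) :
    M.det = (res v M).det * (red v M).det := by
  set P : Matrix ι ι K := Matrix.diagonal fun i => if i ∈ v then 1 else 0 with hP
  set Q : Matrix ι ι K := Matrix.diagonal fun i => if i ∈ v then 0 else 1 with hQ
  have hPQ : P + Q = 1 := by
    rw [hP, hQ, Matrix.diagonal_add, ← Matrix.diagonal_one]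
    congr 1
    funext i
    split_ifs <;> simp
  have hPP : P * P = P := by
    rw [hP, Matrix.diagonal_mul_diagonal]
    congr 1
    funext i
    split_ifs <;> simp
  have hPQ0 : P * Q = 0 := by
    rw [hP, hQ, Matrix.diagonal_mul_diagonal, ← Matrix.diagonal_zero]
    congr 1
    funext i
    split_ifs <;> simp
  have hQP0 : Q * P = 0 := by
    rw [hP, hQ, Matrix.diagonal_mul_diagonal, ← Matrix.diagonal_zero]
    congr 1
    funext i
    split_ifs <;> simp
  have hQQ : Q * Q = Q := by
    rw [hQ, Matrix.diagonal_mul_diagonal]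
    congr 1
    funext i
    split_ifs <;> simp
  have hPl : ∀ (X : Matrix ι ι K) i j, (P * X) i j = if i ∈ v then X i j else 0 := by
    intro X i j
    rw [hP, Matrix.diagonal_mul]
    split_ifs <;> simp
  have hPr : ∀ (X : Matrix ι ι K) i j, (X * P) i j = if j ∈ v then X i j else 0 := by
    intro X i j
    rw [hP, Matrix.mul_diagonal]
    split_ifs <;> simp
  have hQl : ∀ (X : Matrix ι ι K) i j, (Q * X) i j = if i ∈ v then 0 else X i j := by
    intro X i j
    rw [hQ, Matrix.diagonal_mul]
    split_ifs <;> simp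
  have hQr : ∀ (X : Matrix ι ι K) i j, (X * Q) i j = if j ∈ v then 0 else X i j := by
    intro X i j
    rw [hQ, Matrix.mul_diagonal]
    split_ifs <;> simp
  set D := res v M with hD
  have hD1 : D = P * M * P + Q := by
    ext i j
    rw [Matrix.add_apply, hPr, hPl, hD, res_apply, hQ, Matrix.diagonal_apply, Matrix.one_apply]
    by_cases hi : i ∈ v <;> by_cases hj : j ∈ v <;> by_cases hij : i = j
    all_goals simp_all
  have hDu : IsUnit D.det := isUnit_iff_ne_zero.2 h
  have hDi : D * D⁻¹ = 1 := Matrix.mul_nonsing_inv D hDu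
  have hDi' : D⁻¹ * D = 1 := Matrix.nonsing_inv_mul D hDu
  have hPD : P * D = P * M * P := by
    rw [hD1, Matrix.mul_add, hPQ0, add_zero, ← Matrix.mul_assoc, ← Matrix.mul_assoc, hPP]
  have hDP : D * P = P * M * P := by
    rw [hD1, Matrix.add_mul, hQP0, add_zero, Matrix.mul_assoc (P * M), hPP]
  have hDQ : D * Q = Q := by
    rw [hD1, Matrix.add_mul, Matrix.mul_assoc (P * M), hPQ0, Matrix.mul_zero, zero_add, hQQ]
  set R := P * D⁻¹ * P with hR
  have hPMR : P * M * R = P := by
    rw [hR]
    calc P * M * (P * D⁻¹ * P) = (P * M * P) * D⁻¹ * P := by simp only [Matrix.mul_assoc]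
      _ = P * (D * D⁻¹) * P := by rw [← hPD]; simp only [Matrix.mul_assoc]
      _ = P := by rw [hDi, Matrix.mul_one, hPP]
  have hRMP : R * M * P = P := by
    rw [hR]
    calc P * D⁻¹ * P * M * P = P * D⁻¹ * (P * M * P) := by simp only [Matrix.mul_assoc]
      _ = P * (D⁻¹ * D) * P := by rw [← hDP]; simp only [Matrix.mul_assoc]
      _ = P := by rw [hDi', Matrix.mul_one, hPP]
  have hRQ : R * Q = 0 := by rw [hR, Matrix.mul_assoc, hPQ0, Matrix.mul_zero]
  have hQR : Q * R = 0 := by
    rw [hR, ← Matrix.mul_assoc, ← Matrix.mul_assoc, hQP0, Matrix.zero_mul, Matrix.zero_mul]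
  have hPR : P * R = R := by rw [hR, ← Matrix.mul_assoc, ← Matrix.mul_assoc, hPP]
  have hRP : R * P = R := by rw [hR, Matrix.mul_assoc, hPP]
  have hRMR : R * M * R = R := by
    calc R * M * R = R * M * (P * R) := by rw [hPR]
      _ = (R * M * P) * R := by simp only [Matrix.mul_assoc]
      _ = R := by rw [hRMP, hPR]
  have hred : red v M = P + Q * (M - M * R * M) * Q := by
    have hMR : ∀ i j, (M * R * M) i j = con v M i j := by
      intro i j
      have h1 : ∀ l, (M * R) i l = if l ∈ v then ∑ k ∈ v, M i k * D⁻¹ k l else 0 := by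
        intro l
        rw [Matrix.mul_apply]
        rw [hR]
        simp only [hPr, hPl]
        by_cases hl : l ∈ v
        · simp only [hl, if_true, mul_ite, mul_zero]
          rw [Finset.sum_ite_mem, Finset.univ_inter]
        · simp [hl]
      rw [Matrix.mul_apply]
      simp only [h1, ite_mul, zero_mul]
      rw [Finset.sum_ite_mem, Finset.univ_inter, con, Finset.sum_comm]
      refine Finset.sum_congr rfl fun l _ => ?_
      rw [Finset.sum_mul]
    ext i j
    rw [red_apply, Matrix.add_apply, hQr, hQl, Matrix.sub_apply, hMR, hP, Matrix.diagonal_apply,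
      Matrix.one_apply]
    by_cases hi : i ∈ v <;> by_cases hj : j ∈ v <;> by_cases hij : i = j
    all_goals simp_all
  have hDred : D * red v M = P * M * P + Q * (M - M * R * M) * Q := by
    rw [hred, Matrix.mul_add, hDP, ← Matrix.mul_assoc, ← Matrix.mul_assoc, hDQ]
  have hkey : (1 - Q * M * R) * M * (1 - R * (M * Q)) = D * red v M := by
    have e1 : Q * M * R * M = Q * M * P + Q * M * R * M * Q := by
      calc Q * M * R * M = Q * M * R * M * (P + Q) := by rw [hPQ, Matrix.mul_one]
        _ = Q * M * (R * M * P) + Q * M * R * M * Q := by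
          rw [Matrix.mul_add]; simp only [Matrix.mul_assoc]
        _ = _ := by rw [hRMP]
    have e2 : M * (R * (M * Q)) = P * M * Q + Q * M * R * M * Q := by
      calc M * (R * (M * Q)) = (P + Q) * (M * (R * (M * Q))) := by rw [hPQ, Matrix.one_mul]
        _ = (P * M * R) * (M * Q) + Q * M * R * M * Q := by
          rw [Matrix.add_mul]; simp only [Matrix.mul_assoc]
        _ = _ := by rw [hPMR]; simp only [Matrix.mul_assoc]
    have e3 : M = P * M * P + P * M * Q + Q * M * P + Q * M * Q := by
      calc M = (P + Q) * M * (P + Q) := by rw [hPQ, Matrix.one_mul, Matrix.mul_one]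
        _ = _ := by rw [Matrix.add_mul, Matrix.mul_add, Matrix.add_mul, Matrix.add_mul]; abel
    have e4 : Q * M * R * M * (R * (M * Q)) = Q * M * R * M * Q := by
      calc Q * M * R * M * (R * (M * Q)) = Q * M * (R * M * R) * M * Q := by
            simp only [Matrix.mul_assoc]
        _ = _ := by rw [hRMR]
    have e5 : (1 - Q * M * R) * M * (1 - R * (M * Q)) =
        M - M * (R * (M * Q)) - Q * M * R * M + Q * M * R * M * (R * (M * Q)) := by
      rw [Matrix.sub_mul, Matrix.one_mul, Matrix.mul_sub, Matrix.mul_one, Matrix.sub_mul]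
      abel
    have e6 : Q * (M - M * R * M) * Q = Q * M * Q - Q * M * R * M * Q := by
      rw [Matrix.mul_sub, Matrix.sub_mul]
      simp only [Matrix.mul_assoc]
    rw [e5, e4, e2, e1, hDred, e6]
    nth_rewrite 1 [e3]
    abel
  have hdet1 : (1 - Q * M * R).det = 1 := by
    rw [Matrix.det_one_sub_mul_comm, ← Matrix.mul_assoc, hRQ, Matrix.zero_mul, sub_zero,
      Matrix.det_one]
  have hdet2 : (1 - R * (M * Q)).det = 1 := by
    rw [Matrix.det_one_sub_mul_comm, Matrix.mul_assoc, hQR, Matrix.mul_zero, sub_zero,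
      Matrix.det_one]
  have h1 := congrArg Matrix.det hkey
  rw [Matrix.det_mul, Matrix.det_mul, hdet1, hdet2, one_mul, mul_one, Matrix.det_mul] at h1
  exact h1

theorem res_red (v w : Finset ι) (M : Matrix ι ι K) :
    res w (red v M) = red v (res (w ∪ v) M) := by
  have hv : v ⊆ w ∪ v := Finset.subset_union_right
  ext i j
  rw [res_apply, red_apply, red_apply]
  by_cases hi : i ∈ v
  · rw [if_pos (Or.inl hi), if_pos (Or.inl hi), ite_self]
  by_cases hj : j ∈ v
  · rw [if_pos (Or.inr hj), if_pos (Or.inr hj), ite_self]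
  have hij : ¬(i ∈ v ∨ j ∈ v) := fun h => h.elim hi hj
  rw [if_neg hij, if_neg hij]
  by_cases hw : i ∈ w ∧ j ∈ w
  · rw [if_pos hw, res_apply, if_pos ⟨Finset.mem_union_left _ hw.1, Finset.mem_union_left _ hw.2⟩,
      con, con, res_res hv]
    congr 1
    refine Finset.sum_congr rfl fun k hk => Finset.sum_congr rfl fun l hl => ?_
    rw [res_apply, if_pos ⟨Finset.mem_union_left _ hw.1, hv hk⟩, res_apply,
      if_pos ⟨hv hl, Finset.mem_union_left _ hw.2⟩]
  · have h1 : ¬(i ∈ w ∪ v ∧ j ∈ w ∪ v) := by
      rintro ⟨h1, h2⟩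
      exact hw ⟨(Finset.mem_union.1 h1).resolve_right hi, (Finset.mem_union.1 h2).resolve_right hj⟩
    rw [if_neg hw, res_apply, if_neg h1]
    have h2 : con v (res (w ∪ v) M) i j = 0 := by
      rw [con]
      refine Finset.sum_eq_zero fun k hk => Finset.sum_eq_zero fun l hl => ?_
      rw [not_and_or] at hw
      rcases hw with hw | hw
      · rw [res_apply, if_neg (fun h => (Finset.mem_union.1 h.1).elim hw hi), Matrix.one_apply_ne,
          zero_mul, zero_mul]
        rintro rfl
        exact hi hk
      · rw [res_apply _ _ l j, if_neg (fun h => (Finset.mem_union.1 h.2).elim hw hj),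
          Matrix.one_apply_ne, mul_zero]
        rintro rfl
        exact hj hl
    rw [h2, sub_zero]

theorem AllPrin.red {v : Finset ι} {M : Matrix ι ι K} (h : AllPrin M) : AllPrin (red v M) := by
  intro w
  have h1 := det_red (v := v) (M := res (w ∪ v) M) (by
    rw [res_res Finset.subset_union_right]; exact h v)
  rw [← res_red] at h1
  exact right_ne_zero_of_mul (h1 ▸ h (w ∪ v))

theorem con_eq_zero_left {v : Finset ι} {M : Matrix ι ι K} {i : ι} (h : ∀ k ∈ v, M i k = 0)
    (j : ι) : con v M i j = 0 := by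
  rw [con]
  refine Finset.sum_eq_zero fun k hk => Finset.sum_eq_zero fun l _ => ?_
  rw [h k hk, zero_mul, zero_mul]

theorem con_eq_zero_right {v : Finset ι} {M : Matrix ι ι K} {j : ι} (h : ∀ l ∈ v, M l j = 0)
    (i : ι) : con v M i j = 0 := by
  rw [con]
  refine Finset.sum_eq_zero fun k _ => Finset.sum_eq_zero fun l hl => ?_
  rw [h l hl, mul_zero]

end Pool.Agent.Y531.Mul
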