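import Pool.Agent.Y531.Mul.Ext
import Pool.Agent.Y531.Mul.Schur

/-!
# Determinants with a small elimination forest
-/

set_option autoImplicit false
set_option linter.unusedSectionVars false
set_option maxHeartbeats 1000000
set_option synthInstance.maxHeartbeats 200000

namespace Pool.Agent.Y531.Mul

open Finset MvPolynomial Matrix

/-! ## Gates for rational functions -/

section gates
variable {σ L : Type*} [Field L]

theorem isGate_of_finset {s m : ℕ} {S : Set (AF σ L)} (I : Finset (AF σ L))
    (hI : ∀ x ∈ I, x ∈ Lin S) (hc : I.card ≤ m) {f y : AF σ L}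
    (hy : y ∈ Algebra.adjoin L (I : Set (AF σ L))) (hy0 : y ≠ 0)
    (hfy : f * y ∈ Algebra.adjoin L (I : Set (AF σ L))) : IsGate s m S f := by
  classical
  obtain ⟨e⟩ : Nonempty ({x // x ∈ I} ↪ Fin m) :=
    Function.Embedding.nonempty_of_card_le (by
      rw [Fintype.card_fin, Fintype.card_coe]; exact hc)
  set l : Fin m → AF σ L := Function.extend e (fun x => (x : AF σ L)) (fun _ => 0) with hl
  have hle : ∀ x, l (e x) = x := fun x => e.injective.extend_apply _ _ _
  have hle' : ∀ i, (¬∃ x, e x = i) → l i = 0 := fun i hi => Function.extend_apply' _ _ _ hi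
  have hsub : Algebra.adjoin L (I : Set (AF σ L)) ≤ Algebra.adjoin L (Set.range l) := by
    apply Algebra.adjoin_mono
    intro x hx
    exact ⟨e ⟨x, hx⟩, hle _⟩
  refine Or.inr ⟨l, fun i => ?_, ?_⟩
  · by_cases h : ∃ x, e x = i
    · obtain ⟨x, rfl⟩ := h
      rw [hle]
      exact hI _ x.2
    · rw [hle' i h]
      exact Submodule.zero_mem _
  · refine ⟨Polynomial.C ⟨y, hsub hy⟩ * Polynomial.X - Polynomial.C ⟨f * y, hsub hfy⟩, ?_, ?_⟩
    · intro h0
      have h1 := congrArg (fun p => Polynomial.coeff p 1) h0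
      simp only [Polynomial.coeff_sub, Polynomial.coeff_C_mul, Polynomial.coeff_X_one, mul_one,
        Polynomial.coeff_C_succ, sub_zero, Polynomial.coeff_zero] at h1
      exact hy0 (congrArg Subtype.val h1)
    · rw [map_sub, map_mul, Polynomial.aeval_C, Polynomial.aeval_X, Polynomial.aeval_C]
      show y * f - f * y = 0
      ring

variable {ι : Type*} [Fintype ι] [DecidableEq ι]

theorem adjugate_mem {K : Type*} [Field K] [Algebra L K] (B : Subalgebra L K)
    {X : Matrix ι ι K} (h : ∀ i j, X i j ∈ B) :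
    X.det ∈ B ∧ ∀ i j, X.adjugate i j ∈ B := by
  set X' : Matrix ι ι B := Matrix.of fun i j => ⟨X i j, h i j⟩ with hX'
  have h1 : X = B.val.toRingHom.mapMatrix X' := by
    ext i j
    rfl
  constructor
  · rw [h1, ← RingHom.map_det]
    exact (X'.det).2
  · intro i j
    rw [h1, ← RingHom.map_adjugate]
    exact (X'.adjugate i j).2

theorem res_mem {K : Type*} [Field K] [Algebra L K] (B : Subalgebra L K) {v : Finset ι}
    {X : Matrix ι ι K} (h : ∀ i ∈ v, ∀ j ∈ v, X i j ∈ B) (i j : ι) : res v X i j ∈ B := by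
  rw [res_apply]
  split_ifs with h1
  · exact h i h1.1 j h1.2
  · rw [Matrix.one_apply]
    split_ifs
    · exact B.one_mem
    · exact B.zero_mem

theorem isGate_det {s m : ℕ} {S : Set (AF σ L)} {v : Finset ι} {X : Matrix ι ι (AF σ L)}
    (hv : v.card * (v.card + 2) ≤ m) (h1 : ∀ a ∈ v, ∀ b ∈ v, X a b ∈ Lin S) :
    IsGate s m S (res v X).det := by
  classical
  refine isGate_of_finset ((v ×ˢ v).image fun p => X p.1 p.2) ?_ ?_ (y := 1)
    (Subalgebra.one_mem _) one_ne_zero ?_
  · intro x hx
    obtain ⟨p, hp, rfl⟩ := Finset.mem_image.1 hx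
    rw [Finset.mem_product] at hp
    exact h1 _ hp.1 _ hp.2
  · refine Finset.card_image_le.trans ?_
    rw [Finset.card_product]
    exact (Nat.mul_le_mul_left _ (Nat.le_add_right _ _)).trans hv
  · rw [mul_one]
    refine (adjugate_mem _ (res_mem _ fun a ha b hb => Algebra.subset_adjoin ?_)).1
    exact Finset.mem_coe.2 (Finset.mem_image.2 ⟨(a, b), Finset.mem_product.2 ⟨ha, hb⟩, rfl⟩)

theorem isGate_con {s m : ℕ} {S : Set (AF σ L)} {v : Finset ι} {X : Matrix ι ι (AF σ L)}
    {i j : ι} (hv : v.card * (v.card + 2) ≤ m) (h1 : ∀ a ∈ v, ∀ b ∈ v, X a b ∈ Lin S)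
    (h2 : ∀ b ∈ v, X i b ∈ Lin S) (h3 : ∀ a ∈ v, X a j ∈ Lin S) (hdet : (res v X).det ≠ 0) :
    IsGate s m S (con v X i j) := by
  classical
  set I : Finset (AF σ L) := ((v ×ˢ v).image fun p => X p.1 p.2) ∪
    ((v.image fun b => X i b) ∪ v.image fun a => X a j) with hI
  have hI1 : ∀ a ∈ v, ∀ b ∈ v, X a b ∈ Algebra.adjoin L (I : Set (AF σ L)) := by
    intro a ha b hb
    apply Algebra.subset_adjoin
    rw [Finset.mem_coe, hI, Finset.mem_union]
    exact Or.inl (Finset.mem_image.2 ⟨(a, b), Finset.mem_product.2 ⟨ha, hb⟩, rfl⟩)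
  have hI2 : ∀ b ∈ v, X i b ∈ Algebra.adjoin L (I : Set (AF σ L)) := by
    intro b hb
    apply Algebra.subset_adjoin
    rw [Finset.mem_coe, hI, Finset.mem_union, Finset.mem_union]
    exact Or.inr (Or.inl (Finset.mem_image.2 ⟨b, hb, rfl⟩))
  have hI3 : ∀ a ∈ v, X a j ∈ Algebra.adjoin L (I : Set (AF σ L)) := by
    intro a ha
    apply Algebra.subset_adjoin
    rw [Finset.mem_coe, hI, Finset.mem_union, Finset.mem_union]
    exact Or.inr (Or.inr (Finset.mem_image.2 ⟨a, ha, rfl⟩))
  obtain ⟨hd, hadj⟩ := adjugate_mem (Algebra.adjoin L (I : Set (AF σ L)))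
    (res_mem (Algebra.adjoin L (I : Set (AF σ L))) hI1)
  refine isGate_of_finset I ?_ ?_ hd hdet ?_
  · intro x hx
    rw [hI, Finset.mem_union, Finset.mem_union] at hx
    rcases hx with hx | hx | hx
    · obtain ⟨p, hp, rfl⟩ := Finset.mem_image.1 hx
      rw [Finset.mem_product] at hp
      exact h1 _ hp.1 _ hp.2
    · obtain ⟨b, hb, rfl⟩ := Finset.mem_image.1 hx
      exact h2 b hb
    · obtain ⟨a, ha, rfl⟩ := Finset.mem_image.1 hx
      exact h3 a ha
  · have e1 : ((v ×ˢ v).image fun p => X p.1 p.2).card ≤ v.card * v.card :=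
      Finset.card_image_le.trans (Finset.card_product _ _).le
    have e2 : (v.image fun b => X i b).card ≤ v.card := Finset.card_image_le
    have e3 : (v.image fun a => X a j).card ≤ v.card := Finset.card_image_le
    have e4 := Finset.card_union_le ((v ×ˢ v).image fun p => X p.1 p.2)
      ((v.image fun b => X i b) ∪ v.image fun a => X a j)
    have e5 := Finset.card_union_le (v.image fun b => X i b) (v.image fun a => X a j)
    rw [← hI] at e4
    have e6 : v.card * (v.card + 2) = v.card * v.card + (v.card + v.card) := by ring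
    omega
  · rw [con, Finset.sum_mul]
    refine Subalgebra.sum_mem _ fun k hk => ?_
    rw [Finset.sum_mul]
    refine Subalgebra.sum_mem _ fun l hl => ?_
    have h4 : (res v X)⁻¹ k l * (res v X).det = (res v X).adjugate k l := by
      rw [Matrix.inv_def, Matrix.smul_apply, smul_eq_mul, Ring.inverse_eq_inv', mul_comm,
        ← mul_assoc, mul_inv_cancel₀ hdet, one_mul]
    have h5 : X i k * (res v X)⁻¹ k l * X l j * (res v X).det =
        X i k * (res v X).adjugate k l * X l j := by
      rw [← h4]; ring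
    rw [h5]
    exact Subalgebra.mul_mem _ (Subalgebra.mul_mem _ (hI2 k hk) (hadj k l)) (hI3 l hl)

end gates

/-! ## The elimination -/

section seq
variable {ι K : Type*} [Fintype ι] [DecidableEq ι] [Field K]

/-- The indices with address `v`. -/
def bag (w : ι → List ℕ) (v : List ℕ) : Finset ι := Finset.univ.filter fun i => w i = v

theorem mem_bag {w : ι → List ℕ} {v : List ℕ} {i : ι} : i ∈ bag w v ↔ w i = v := by
  rw [bag, Finset.mem_filter]
  exact ⟨fun h => h.2, fun h => ⟨Finset.mem_univ _, h⟩⟩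

/-- The matrices during the elimination. -/
noncomputable def sq (w : ι → List ℕ) (vs : ℕ → List ℕ) (M : Matrix ι ι K) : ℕ → Matrix ι ι K
  | 0 => M
  | k + 1 => red (bag w (vs k)) (sq w vs M k)

variable {w : ι → List ℕ} {vs : ℕ → List ℕ} {M : Matrix ι ι K} {r : ℕ}

theorem sq_prin (hM : AllPrin M) : ∀ k, AllPrin (sq w vs M k)
  | 0 => hM
  | k + 1 => (sq_prin hM k).red

theorem sq_det (hM : AllPrin M) : ∀ k, M.det =
    (∏ k' ∈ Finset.range k, (res (bag w (vs k')) (sq w vs M k')).det) * (sq w vs M k).det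
  | 0 => by rw [Finset.range_zero, Finset.prod_empty, one_mul]; rfl
  | k + 1 => by
    rw [Finset.prod_range_succ, mul_assoc]
    have h1 := det_red (v := bag w (vs k)) (M := sq w vs M k) (sq_prin hM k _)
    have h2 : sq w vs M (k + 1) = red (bag w (vs k)) (sq w vs M k) := rfl
    rw [h2, ← h1]
    exact sq_det hM k

/-- `u` is a proper initial segment of `v`. -/
def Below (u v : List ℕ) : Prop := u <+: v ∧ u ≠ v

structure Ord (w : ι → List ℕ) (vs : ℕ → List ℕ) (r : ℕ) : Prop where
  ord : ∀ k k', k < r → k' < r → Below (vs k) (vs k') → k' < k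
  all : ∀ i, ∃ k < r, w i = vs k

variable (H : Ord w vs r)

theorem con_below_aux {k : ℕ} (hk : k < r) (H : Ord w vs r)
    {X : Matrix ι ι K} {i a : ι} (hi : i ∉ bag w (vs k)) (ha : a ∈ bag w (vs k))
    (hc : w i <+: w a ∨ w a <+: w i) : Below (w i) (vs k) ∨ ∃ k' < k, w i = vs k' := by
  rw [mem_bag] at hi ha
  rw [ha] at hc
  rcases hc with hc | hc
  · exact Or.inl ⟨hc, hi⟩
  · obtain ⟨k', hk', hw⟩ := H.all i
    exact Or.inr ⟨k', H.ord k k' hk hk' ⟨hw ▸ hc, fun h => hi (by rw [hw, h])⟩, hw⟩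

/-- The invariants. -/
theorem sq_inv (H : Ord w vs r) (hst : ∀ i j, M i j ≠ 0 → w i <+: w j ∨ w j <+: w i) :
    ∀ k ≤ r, (∀ i, (∃ k' < k, w i = vs k') → ∀ j, sq w vs M k i j = (1 : Matrix ι ι K) i j ∧
      sq w vs M k j i = (1 : Matrix ι ι K) j i) ∧
      (∀ i j, sq w vs M k i j ≠ 0 → w i <+: w j ∨ w j <+: w i) := by
  intro k
  induction k with
  | zero =>
    intro _
    refine ⟨?_, hst⟩
    rintro i ⟨k', hk', _⟩
    exact absurd hk' (Nat.not_lt_zero _)
  | succ k ih =>
    intro hk
    obtain ⟨h1, h2⟩ := ih (by omega)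
    have hs : ∀ i j, sq w vs M (k + 1) i j = if i ∈ bag w (vs k) ∨ j ∈ bag w (vs k) then
        (1 : Matrix ι ι K) i j else sq w vs M k i j - con (bag w (vs k)) (sq w vs M k) i j :=
      fun i j => rfl
    constructor
    · rintro i ⟨k', hk', hw⟩ j
      rw [hs i j, hs j i]
      by_cases hij : i ∈ bag w (vs k) ∨ j ∈ bag w (vs k)
      · rw [if_pos hij, if_pos hij.symm]
        exact ⟨rfl, rfl⟩
      · rw [if_neg hij, if_neg (fun h => hij h.symm)]
        have hi : i ∉ bag w (vs k) := fun h => hij (Or.inl h)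
        have hne : k' ≠ k := by
          rintro rfl
          exact hi (mem_bag.2 hw)
        have h3 := h1 i ⟨k', by omega, hw⟩
        rw [(h3 j).1, (h3 j).2, con_eq_zero_left (fun a ha => by
          rw [(h3 a).1, Matrix.one_apply_ne]
          rintro rfl
          exact hi ha), con_eq_zero_right (fun a ha => by
          rw [(h3 a).2, Matrix.one_apply_ne]
          rintro rfl
          exact hi ha), sub_zero, sub_zero]
        exact ⟨rfl, rfl⟩
    · intro i j hne
      rw [hs i j] at hne
      by_cases hij : i ∈ bag w (vs k) ∨ j ∈ bag w (vs k)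
      · rw [if_pos hij, Matrix.one_apply] at hne
        have h3 : i = j := by
          by_contra h4
          rw [if_neg h4] at hne
          exact hne rfl
        rw [h3]
        exact Or.inl (List.prefix_refl _)
      · rw [if_neg hij] at hne
        by_cases h3 : sq w vs M k i j = 0
        · rw [h3, zero_sub, neg_ne_zero] at hne
          have hi : i ∉ bag w (vs k) := fun h => hij (Or.inl h)
          have hj : j ∉ bag w (vs k) := fun h => hij (Or.inr h)
          obtain ⟨a, ha, ha'⟩ : ∃ a ∈ bag w (vs k), sq w vs M k i a ≠ 0 := by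
            by_contra hcon
            push Not at hcon
            exact hne (con_eq_zero_left hcon j)
          obtain ⟨b, hb, hb'⟩ : ∃ b ∈ bag w (vs k), sq w vs M k b j ≠ 0 := by
            by_contra hcon
            push Not at hcon
            exact hne (con_eq_zero_right hcon i)
          have hia : i ≠ a := fun h => hi (h ▸ ha)
          have hjb : b ≠ j := fun h => hj (h ▸ hb)
          have h4 : Below (w i) (vs k) := by
            rcases con_below_aux (K := K) (by omega) H (X := M) hi ha (h2 i a ha') with h | h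
            · exact h
            · exact absurd ((h1 i h a).1.trans (Matrix.one_apply_ne hia)) ha'
          have h5 : Below (w j) (vs k) := by
            rcases con_below_aux (K := K) (by omega) H (X := M) hj hb (h2 b j hb').symm with h | h
            · exact h
            · exact absurd ((h1 j h b).2.trans (Matrix.one_apply_ne hjb)) hb'
          exact List.prefix_or_prefix_of_prefix h4.1 h5.1
        · exact h2 i j h3

theorem con_below (H : Ord w vs r) (hst : ∀ i j, M i j ≠ 0 → w i <+: w j ∨ w j <+: w i)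
    {k : ℕ} (hk : k < r) {i j : ι} (hij : ¬(i ∈ bag w (vs k) ∨ j ∈ bag w (vs k)))
    (hne : con (bag w (vs k)) (sq w vs M k) i j ≠ 0) :
    Below (w i) (vs k) ∧ Below (w j) (vs k) := by
  obtain ⟨h1, h2⟩ := sq_inv H hst k hk.le
  have hi : i ∉ bag w (vs k) := fun h => hij (Or.inl h)
  have hj : j ∉ bag w (vs k) := fun h => hij (Or.inr h)
  obtain ⟨a, ha, ha'⟩ : ∃ a ∈ bag w (vs k), sq w vs M k i a ≠ 0 := by
    by_contra hcon
    push Not at hcon
    exact hne (con_eq_zero_left hcon j)
  obtain ⟨b, hb, hb'⟩ : ∃ b ∈ bag w (vs k), sq w vs M k b j ≠ 0 := by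
    by_contra hcon
    push Not at hcon
    exact hne (con_eq_zero_right hcon i)
  have hia : i ≠ a := fun h => hi (h ▸ ha)
  have hjb : b ≠ j := fun h => hj (h ▸ hb)
  constructor
  · rcases con_below_aux (K := K) hk H (X := M) hi ha (h2 i a ha') with h | h
    · exact h
    · exact absurd ((h1 i h a).1.trans (Matrix.one_apply_ne hia)) ha'
  · rcases con_below_aux (K := K) hk H (X := M) hj hb (h2 b j hb').symm with h | h
    · exact h
    · exact absurd ((h1 j h b).2.trans (Matrix.one_apply_ne hjb)) hb'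

theorem sq_end (H : Ord w vs r) (hst : ∀ i j, M i j ≠ 0 → w i <+: w j ∨ w j <+: w i) :
    sq w vs M r = 1 := by
  ext i j
  exact ((sq_inv H hst r le_rfl).1 i (H.all i) j).1

end seq

section circ
variable {σ L : Type*} [Field L] {ι : Type*} [Fintype ι] [DecidableEq ι]
variable {w : ι → List ℕ} {vs : ℕ → List ℕ} {M : Matrix ι ι (AF σ L)} {r : ℕ}

theorem sq_lin (H : Ord w vs r) (hst : ∀ i j, M i j ≠ 0 → w i <+: w j ∨ w j <+: w i)
    (hM : ∀ i j, M i j ∈ Lin (∅ : Set (AF σ L))) : ∀ k ≤ r, ∀ i j, sq w vs M k i j ∈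
      Lin {f | ∃ k' < k, Below (w i) (vs k') ∧ Below (w j) (vs k') ∧
        ∃ a b, f = con (bag w (vs k')) (sq w vs M k') a b} := by
  intro k
  induction k with
  | zero =>
    intro _ i j
    exact Lin_mono (Set.empty_subset _) (hM i j)
  | succ k ih =>
    intro hk i j
    have hs : sq w vs M (k + 1) i j = if i ∈ bag w (vs k) ∨ j ∈ bag w (vs k) then
        (1 : Matrix ι ι (AF σ L)) i j else
        sq w vs M k i j - con (bag w (vs k)) (sq w vs M k) i j := rfl
    rw [hs]
    by_cases hij : i ∈ bag w (vs k) ∨ j ∈ bag w (vs k)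
    · rw [if_pos hij, Matrix.one_apply]
      split_ifs
      · exact one_mem_Lin
      · exact Submodule.zero_mem _
    · rw [if_neg hij]
      refine Submodule.sub_mem _ (Lin_mono ?_ (ih (by omega) i j)) ?_
      · rintro f ⟨k', hk', h⟩
        exact ⟨k', by omega, h⟩
      · by_cases hne : con (bag w (vs k)) (sq w vs M k) i j = 0
        · rw [hne]; exact Submodule.zero_mem _
        · obtain ⟨h1, h2⟩ := con_below H hst (by omega) hij hne
          exact mem_Lin ⟨k, by omega, h1, h2, i, j, rfl⟩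

/-- **The circuit for the determinant.** -/
theorem exists_circuit_det {s Δ m b : ℕ} (H : Ord w vs r)
    (hst : ∀ i j, M i j ≠ 0 → w i <+: w j ∨ w j <+: w i)
    (hM : ∀ i j, M i j ∈ Lin (∅ : Set (AF σ L))) (hP : AllPrin M)
    (hlen : ∀ k < r, (vs k).length ≤ Δ) (hb : ∀ v, (bag w v).card ≤ b) (hbm : b * (b + 2) ≤ m)
    (hs : r * (Fintype.card ι ^ 2 + 1) + 1 ≤ s) :
    ∃ C : Circuit σ L s (Δ + 1) m, C.Computes M.det := by
  classical
  have hr : r ≤ s := by
    have h1 : r * 1 ≤ r * (Fintype.card ι ^ 2 + 1) := Nat.mul_le_mul_left _ (Nat.le_add_left _ _)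
    omega
  have hbc : ∀ v, (bag w v).card * ((bag w v).card + 2) ≤ m := fun v =>
    (Nat.mul_le_mul (hb v) (Nat.add_le_add_right (hb v) 2)).trans hbm
  let γ : Option (Fin r × Option (ι × ι)) → AF σ L := fun x => x.elim M.det fun y =>
    y.2.elim (res (bag w (vs y.1)) (sq w vs M y.1)).det
      fun z => con (bag w (vs y.1)) (sq w vs M y.1) z.1 z.2
  let dep : Option (Fin r × Option (ι × ι)) → ℕ := fun x =>
    x.elim (Δ + 1) fun y => Δ - (vs y.1).length
  suffices hg : ∀ x, IsGate s m {f | ∃ j', dep j' < dep x ∧ f = γ j'} (γ x) by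
    obtain ⟨C, hC⟩ := exists_circuit (s := s) (Δ := Δ + 1) (m := m) γ dep (by
      rintro (_ | y)
      · exact le_rfl
      · exact (Nat.sub_le _ _).trans (Nat.le_succ _)) hg (by
      rw [Fintype.card_option, Fintype.card_prod, Fintype.card_option, Fintype.card_prod,
        Fintype.card_fin, ← pow_two]
      exact hs)
    exact ⟨C, hC _ (mem_Lin ⟨none, rfl⟩)⟩
  · rintro (_ | ⟨k, z⟩)
    · refine Or.inl ⟨r, 1, fun k => γ (some (k, none)), fun _ => 1, fun _ => 0, hr, one_ne_zero,
        fun k => mem_Lin ⟨some (k, none), ?_, rfl⟩, by simp, ?_⟩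
      · exact Nat.lt_succ_of_le (Nat.sub_le _ _)
      · simp only [pow_one, pow_zero, Finset.prod_const_one, mul_one]
        show M.det = ∏ k : Fin r, (res (bag w (vs k)) (sq w vs M k)).det
        rw [Fin.prod_univ_eq_prod_range
          (fun k => (res (bag w (vs k)) (sq w vs M k)).det) r]
        have h1 := sq_det (w := w) (vs := vs) hP r
        rw [sq_end H hst, Matrix.det_one, mul_one] at h1
        exact h1
    · have key : ∀ a c, (a ∈ bag w (vs k) ∨ c ∈ bag w (vs k)) →
          sq w vs M k a c ∈ Lin {f | ∃ j', dep j' < dep (some (k, z)) ∧ f = γ j'} := by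
        intro a c hac
        refine Lin_mono ?_ (sq_lin H hst hM k k.2.le a c)
        rintro f ⟨k', hk', h1, h2, a', b', rfl⟩
        refine ⟨some (⟨k', hk'.trans k.2⟩, some (a', b')), ?_, rfl⟩
        show Δ - (vs k').length < Δ - (vs k).length
        have h3 : Below (vs k) (vs k') := by
          rcases hac with h | h
          · rw [mem_bag] at h; rw [← h]; exact h1
          · rw [mem_bag] at h; rw [← h]; exact h2
        have h4 : (vs k).length < (vs k').length := by
          refine lt_of_le_of_ne h3.1.length_le fun h => h3.2 ?_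
          exact h3.1.eq_of_length h
        have h5 := hlen k' (hk'.trans k.2)
        omega
      rcases z with _ | z
      · exact isGate_det (hbc _) fun a ha c _ => key a c (Or.inl ha)
      · exact isGate_con (hbc _) (fun a ha c _ => key a c (Or.inl ha))
          (fun c hc => key z.1 c (Or.inr hc)) (fun a ha => key a z.2 (Or.inl ha))
          (sq_prin hP k _)

/-- The order of the elimination. -/
theorem exists_ord (w : ι → List ℕ) {Δ : ℕ} (hw : ∀ i, (w i).length ≤ Δ) :
    ∃ (vs : ℕ → List ℕ) (r : ℕ), r ≤ Fintype.card ι ∧ Ord w vs r ∧ ∀ k < r, (vs k).length ≤ Δ := by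
  classical
  set W : Finset (List ℕ) := Finset.univ.image w with hW
  set r := W.card with hr
  let o : {v // v ∈ W} ≃ Fin r := W.equivFin
  have hWlen : ∀ v ∈ W, v.length ≤ Δ := by
    intro v hv
    obtain ⟨i, _, rfl⟩ := Finset.mem_image.1 hv
    exact hw i
  let f : {v // v ∈ W} → ℕ := fun v => (Δ - v.1.length) * r + o v
  have hf : Function.Injective f := by
    intro v v' h
    have h1 : (f v) % r = (f v') % r := by rw [h]
    have h2 : ((o v : ℕ)) = o v' := by
      simp only [f, Nat.mul_add_mod_self_right, Nat.mod_eq_of_lt (o v).2,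
        Nat.mod_eq_of_lt (o v').2] at h1
      exact h1
    exact o.injective (Fin.ext h2)
  obtain ⟨e, he⟩ := exists_sort (d := r) (by rw [Fintype.card_coe]) f hf
  refine ⟨fun k => if h : k < r then (e ⟨k, h⟩).1 else [], r, ?_, ⟨?_, ?_⟩, ?_⟩
  · rw [hr, hW]
    exact Finset.card_image_le.trans Finset.card_univ.le
  · intro k k' hk hk' hb
    rw [dif_pos hk, dif_pos hk'] at hb
    have hne : k ≠ k' := by
      rintro rfl
      exact hb.2 rfl
    by_contra hcon
    have hlt : k < k' := by omega
    have h1 : f (e ⟨k, hk⟩) < f (e ⟨k', hk'⟩) := he (show (⟨k, hk⟩ : Fin r) < ⟨k', hk'⟩ from hlt)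
    have h4 : (e ⟨k, hk⟩).1.length < (e ⟨k', hk'⟩).1.length := by
      refine lt_of_le_of_ne hb.1.length_le fun h => hb.2 ?_
      exact hb.1.eq_of_length h
    have h5 := hWlen _ (e ⟨k', hk'⟩).2
    have h6 : (Δ - (e ⟨k', hk'⟩).1.length + 1) * r ≤ (Δ - (e ⟨k, hk⟩).1.length) * r :=
      Nat.mul_le_mul_right _ (by omega)
    have h7 := (o (e ⟨k', hk'⟩)).2
    have h8 : f (e ⟨k', hk'⟩) = (Δ - (e ⟨k', hk'⟩).1.length) * r + o (e ⟨k', hk'⟩) := rfl
    have h9 : f (e ⟨k, hk⟩) = (Δ - (e ⟨k, hk⟩).1.length) * r + o (e ⟨k, hk⟩) := rfl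
    rw [h8, h9] at h1
    rw [add_mul, one_mul] at h6
    omega
  · intro i
    have hi : w i ∈ W := Finset.mem_image.2 ⟨i, Finset.mem_univ _, rfl⟩
    refine ⟨e.symm ⟨w i, hi⟩, (e.symm ⟨w i, hi⟩).2, ?_⟩
    rw [dif_pos (e.symm ⟨w i, hi⟩).2]
    simp
  · intro k hk
    simp only [dif_pos hk]
    exact hWlen _ (e ⟨k, hk⟩).2

end circ

end Pool.Agent.Y531.Mul
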