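import Pool.Agent.Y531.Mul.Theta

/-!
# The rank of the top coefficient of the root at the generic point
-/

set_option autoImplicit false
set_option linter.unusedSectionVars false
set_option maxHeartbeats 1000000
set_option synthInstance.maxHeartbeats 200000

namespace Pool.Agent.Y531.Mul

open Finset Pool.Agent.W942 Pool.Agent.Y531

variable {a b h n : ℕ}

theorem mapR_empty {ι R R' : Type*} [DecidableEq ι] [CommRing R] [CommRing R'] (φ : R →+* R')
    (f : SF ι R) (S : Finset ι) : SF.mapR φ f S = φ (f S) := rfl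

/-- The field of rational functions of the entries. -/
abbrev RF (n : ℕ) (F : Type*) [Field F] : Type _ := FractionRing (MvPolynomial (Fin n × Fin n) F)

/-- The generic point. -/
noncomputable def zg (n : ℕ) (F : Type*) [Field F] (x : Fin n × Fin n) : RF n F :=
  algebraMap (MvPolynomial (Fin n × Fin n) F) (RF n F) (MvPolynomial.X x)

/-- **The rank of the top coefficient of the root is full.** -/
theorem full_rank {F : Type*} [Field F] {e : Fin (a + b) ≃ Fin b ⊕ Fin a} {ν : Vtx h e → Fin n}
    {l₀ : Fin b ⊕ Fin a} (hν : Function.Injective ν) (hd : 2 ≤ a + b)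
    (χ : Equiv.Perm (Fin n) → F) (hχ1 : χ 1 ≠ 0) (hχ : ∀ u, χ (sig e ν hν u) ≠ 0)
    (ψ : SF (Fin b ⊕ Fin a) (FF a b h (RF n F)))
    (hψ : thR e ν l₀ (algebraMap F (RF n F)) (zg n F) (PP χ (ν (star hd))) * ψ =
      - thR e ν l₀ (algebraMap F (RF n F)) (zg n F) (RR χ (ν (star hd))))
    {r : ℕ} (hr : HasRk (ψ Finset.univ) r) : 2 ^ Fintype.card (Ed a b h) ≤ r := by
  classical
  set s := ν (star hd) with hs
  set P : MvPolynomial (Fin n × Fin n) F := PP χ s with hP
  set Q : MvPolynomial (Fin n × Fin n) F := RR χ s with hQ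
  have hev : (P).eval₂ (RingHom.id F) (one' F) = χ 1 := by
    rw [hP, eval_PP]; rfl
  have hP0 : P ≠ 0 := by
    intro h0
    rw [h0] at hev
    apply hχ1
    rw [← hev]
    exact MvPolynomial.eval₂_zero _ _
  set AP := Localization.Away P with hAP
  have hinjAP : Function.Injective (algebraMap (MvPolynomial (Fin n × Fin n) F) AP) :=
    IsLocalization.injective AP (Submonoid.powers_le.2 (mem_nonZeroDivisors_of_ne_zero hP0))
  have hinjFz : Function.Injective (algebraMap (MvPolynomial (Fin n × Fin n) F) (RF n F)) := IsFractionRing.injective _ _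
  -- the two specialisations
  have hu1 : IsUnit (algebraMap (MvPolynomial (Fin n × Fin n) F) (RF n F) P) := isUnit_iff_ne_zero.2 fun h0 =>
    hP0 (hinjFz (by rw [h0, map_zero]))
  let δ₁ : AP →+* (RF n F) := IsLocalization.Away.lift P hu1
  have hδ₁ : ∀ x, δ₁ (algebraMap (MvPolynomial (Fin n × Fin n) F) AP x) = algebraMap (MvPolynomial (Fin n × Fin n) F) (RF n F) x := fun x =>
    IsLocalization.Away.lift_eq P hu1 x
  have hu2 : IsUnit (MvPolynomial.eval₂Hom (RingHom.id F) (one' F) P) := by
    rw [MvPolynomial.coe_eval₂Hom, hev]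
    exact isUnit_iff_ne_zero.2 hχ1
  let δ₂ : AP →+* F := IsLocalization.Away.lift P hu2
  have hδ₂ : ∀ x, δ₂ (algebraMap (MvPolynomial (Fin n × Fin n) F) AP x) = MvPolynomial.eval₂Hom (RingHom.id F) (one' F) x :=
    fun x => IsLocalization.Away.lift_eq P hu2 x
  have hδinj : Function.Injective δ₁ := by
    show Function.Injective (IsLocalization.lift _)
    rw [IsLocalization.lift_injective_iff]
    intro x y
    constructor
    · intro h1
      rw [hinjAP h1]
    · intro h1
      rw [hinjFz h1]
  -- the root over `AP`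
  set γA : F →+* AP := (algebraMap (MvPolynomial (Fin n × Fin n) F) AP).comp MvPolynomial.C with hγA
  set zA : Fin n × Fin n → AP := fun x => algebraMap (MvPolynomial (Fin n × Fin n) F) AP (MvPolynomial.X x) with hzA
  have hevA : ∀ p : MvPolynomial (Fin n × Fin n) F, p.eval₂ γA zA = algebraMap (MvPolynomial (Fin n × Fin n) F) AP p := by
    intro p
    have h1 : MvPolynomial.eval₂Hom γA zA = algebraMap (MvPolynomial (Fin n × Fin n) F) AP := by
      refine MvPolynomial.ringHom_ext (fun r => ?_) (fun x => ?_)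
      · rw [MvPolynomial.eval₂Hom_C]; rfl
      · rw [MvPolynomial.eval₂Hom_X']
    exact congrFun (congrArg DFunLike.coe h1) p
  have huA : IsUnit (thR e ν l₀ γA zA P) := by
    apply SF.isUnit_of_apply_empty
    rw [thR_empty, hevA]
    exact (IsLocalization.Away.algebraMap_isUnit P).map _
  obtain ⟨w, hw⟩ := huA.exists_right_inv
  set ψA := -(thR e ν l₀ γA zA Q * w) with hψA
  -- its image over `(RF n F)`
  have hγ1 : δ₁.comp γA = algebraMap F (RF n F) := by
    refine RingHom.ext fun r => ?_
    show δ₁ (algebraMap (MvPolynomial (Fin n × Fin n) F) AP (MvPolynomial.C r)) = _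
    rw [hδ₁, IsScalarTower.algebraMap_apply F (MvPolynomial (Fin n × Fin n) F) (RF n F)]
    rfl
  have hz1 : (fun x => δ₁ (zA x)) = zg n F := by
    funext x
    exact hδ₁ _
  have hψ1 : SF.mapR (SF.push δ₁) ψA = ψ := by
    have h1 : thR e ν l₀ (algebraMap F (RF n F)) (zg n F) P *
        SF.mapR (SF.push δ₁) w = 1 := by
      rw [← hγ1, ← hz1, ← thR_map, ← map_mul, hw, map_one]
    rw [hψA, map_neg, map_mul, thR_map, hγ1, hz1, ← neg_mul, ← hψ, mul_right_comm, h1, one_mul]
  -- its image over `F`
  have hγ2 : δ₂.comp γA = RingHom.id F := by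
    refine RingHom.ext fun r => ?_
    show δ₂ (algebraMap (MvPolynomial (Fin n × Fin n) F) AP (MvPolynomial.C r)) = _
    rw [hδ₂, MvPolynomial.eval₂Hom_C]
  have hz2 : (fun x => δ₂ (zA x)) = one' F := by
    funext x
    show δ₂ (algebraMap (MvPolynomial (Fin n × Fin n) F) AP (MvPolynomial.X x)) = _
    rw [hδ₂, MvPolynomial.eval₂Hom_X']
  have hdet2 : (Matrix.of fun u v => δ₂ (ψA Finset.univ u v)).det ≠ 0 := by
    refine det_mt_ne_zero _ fun u v => ?_
    have h1 : SF.pe u v (SF.mapR (SF.push δ₂) ψA) = -((if v = mt u then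
        SF.sgl Finset.univ (χ (sig e ν hν u)) else 0) * SF.pe u v (SF.mapR (SF.push δ₂) w)) := by
      have h2 := thR_RR (l₀ := l₀) (RingHom.id F) hν hd χ u v
      rw [hψA, map_neg, map_neg, map_mul, map_mul, thR_map, hγ2, hz2, hQ, hs, h2]
      rfl
    have h2 : Matrix.of (fun u v => δ₂ (ψA Finset.univ u v)) u v =
        SF.pe u v (SF.mapR (SF.push δ₂) ψA) Finset.univ := rfl
    have h3 : SF.pe u v (SF.mapR (SF.push δ₂) w) ∅ = (χ 1)⁻¹ := by
      have h4 : SF.pe u v (thR e ν l₀ (RingHom.id F) (one' F) P) *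
          SF.pe u v (SF.mapR (SF.push δ₂) w) = 1 := by
        rw [← map_mul, ← hγ2, ← hz2, ← thR_map, ← map_mul, hw, map_one, map_one]
      have h5 := congrArg (SF.ev0 (ι := Fin b ⊕ Fin a) (R := F)) h4
      rw [map_mul, map_one, SF.ev0_apply, SF.ev0_apply, SF.pe_apply, thR_empty, hev] at h5
      exact eq_inv_of_mul_eq_one_right h5
    rw [h2, h1, SF.neg_def, neg_eq_zero]
    by_cases hv : v = mt u
    · rw [if_pos hv, SF.sgl_mul_apply, if_pos (Finset.Subset.refl _), Finset.sdiff_self, h3]
      exact iff_of_false (mul_ne_zero (hχ u) (inv_ne_zero hχ1)) (not_not.2 hv)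
    · rw [if_neg hv, zero_mul]
      exact iff_of_true rfl hv
  -- the determinant over `AP`
  set M : Matrix (Ed a b h → Bool) (Ed a b h → Bool) AP := Matrix.of fun u v => ψA Finset.univ u v
    with hM
  have hM0 : M.det ≠ 0 := by
    intro h0
    apply hdet2
    have h1 : (Matrix.of fun u v => δ₂ (ψA Finset.univ u v)) = δ₂.mapMatrix M := by
      ext u v; rfl
    rw [h1, ← RingHom.map_det, h0, map_zero]
  have hM1 : (Matrix.of fun u v => ψ Finset.univ u v).det ≠ 0 := by
    intro h0
    apply hM0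
    apply hδinj
    have h1 : (Matrix.of fun u v => ψ Finset.univ u v) = δ₁.mapMatrix M := by
      ext u v
      rw [← hψ1]
      rfl
    rw [RingHom.map_det, ← h1, h0, map_zero]
  have h6 := Matrix.mul_nonsing_inv _ (isUnit_iff_ne_zero.2 hM1)
  have h7 := hr.lower (P := Ed a b h → Bool) id id (Matrix.of fun u v => ψ Finset.univ u v)⁻¹
    (fun i j => by
      have h8 := congrFun (congrFun h6 i) j
      rw [Matrix.mul_apply, Matrix.one_apply] at h8
      exact h8)
  rw [Fintype.card_fun, Fintype.card_bool] at h7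
  exact h7

end Pool.Agent.Y531.Mul
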