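import Mathlib

/-!
# Circuits which compute algebraic functions

A circuit computes algebraic functions of the variables `x j`, that is, elements of the algebraic
closure `AF σ L` of the field of rational functions. Linear combinations of `1`, of the variables
and of gates are free. A gate is one of the following, where its inputs are linear combinations of
`1`, of the variables and of gates of smaller depth:
* a function some power of which is a product or a quotient of products of arbitrary powers of at
  most `s` inputs;
* a function which is algebraic over the field generated by `m` inputs.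
-/

set_option autoImplicit false

namespace Pool.Agent.Y531.Mul

open MvPolynomial

/-- The algebraic functions: the algebraic closure of the field of rational functions. -/
abbrev AF (σ L : Type*) [Field L] : Type _ :=
  AlgebraicClosure (FractionRing (MvPolynomial σ L))

variable {σ L : Type*} [Field L]

/-- Linear combinations of `1`, of the variables and of members of `S`. -/
noncomputable def Lin (S : Set (AF σ L)) : Submodule L (AF σ L) :=
  Submodule.span L (insert 1 (Set.range (fun j => algebraMap (MvPolynomial σ L) (AF σ L) (X j)) ∪ S))

/-- `f` is computed by one gate from linear combinations of `1`, of the variables and of members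
of `S`. -/
def IsGate (s m : ℕ) (S : Set (AF σ L)) (f : AF σ L) : Prop :=
  (∃ (p e₀ : ℕ) (l : Fin p → AF σ L) (e e' : Fin p → ℕ),
    p ≤ s ∧ e₀ ≠ 0 ∧ (∀ j, l j ∈ Lin S) ∧ ∏ j, l j ^ e' j ≠ 0 ∧
      f ^ e₀ * ∏ j, l j ^ e' j = ∏ j, l j ^ e j) ∨
  (∃ l : Fin m → AF σ L,
    (∀ j, l j ∈ Lin S) ∧ IsAlgebraic (Algebra.adjoin L (Set.range l)) f)

/-- A circuit with `s` gates, of depth at most `Δ`. -/
structure Circuit (σ L : Type*) [Field L] (s Δ m : ℕ) where
  /-- the algebraic function computed at a gate -/
  g : Fin s → AF σ L
  /-- the depth of a gate -/
  depth : Fin s → ℕ
  depth_le : ∀ i, depth i ≤ Δ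
  isGate : ∀ i, IsGate s m {f | ∃ i', depth i' < depth i ∧ f = g i'} (g i)

/-- `f` is a linear combination of `1`, of the variables and of gates of the circuit. -/
def Circuit.Computes {s Δ m : ℕ} (C : Circuit σ L s Δ m) (f : AF σ L) : Prop :=
  f ∈ Lin (Set.range C.g)

end Pool.Agent.Y531.Mul
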