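import Pool.Agent.Y531.Hit.Gates
import Pool.Agent.Y531.Mul.Model
import Pool.Agent.Y531.Mul.Expand

/-!
# All gates keep the coefficients of large sets of labels small
-/

set_option autoImplicit false
set_option linter.unusedSectionVars false
set_option maxHeartbeats 1000000
set_option synthInstance.maxHeartbeats 200000

namespace Pool.Agent.Y531.Mul

open Finset Pool.Agent.W942 Pool.Agent.Y531 Pool.Agent.Y531.Hit

/-- The minimal equation of an algebraic function of `m` arguments. -/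
theorem exists_min_eq {F A : Type*} [Field F] [CharZero F] [CommRing A] [IsDomain A] [Algebra F A]
    {m : ℕ} (l : Fin m → A) {f : A} (hf : IsAlgebraic (Algebra.adjoin F (Set.range l)) f) :
    ∃ P : Polynomial (MvPolynomial (Fin m) F),
      P.eval₂ (MvPolynomial.aeval l : MvPolynomial (Fin m) F →ₐ[F] A).toRingHom f = 0 ∧
      P.derivative.eval₂
        (MvPolynomial.aeval l : MvPolynomial (Fin m) F →ₐ[F] A).toRingHom f ≠ 0 := by
  classical
  set B := Algebra.adjoin F (Set.range l) with hB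
  have hex : ∃ k, ∃ P : Polynomial B, P ≠ 0 ∧ Polynomial.aeval f P = 0 ∧ P.natDegree = k := by
    obtain ⟨P, hP, hPf⟩ := hf
    exact ⟨_, P, hP, hPf, rfl⟩
  obtain ⟨P, hP0, hPf, hPk⟩ := Nat.find_spec hex
  have hmin : ∀ Q : Polynomial B, Q ≠ 0 → Polynomial.aeval f Q = 0 →
      P.natDegree ≤ Q.natDegree := by
    intro Q hQ hQf
    rw [hPk]
    exact Nat.find_min' hex ⟨Q, hQ, hQf, rfl⟩
  have hdeg : P.natDegree ≠ 0 := by
    intro h0
    obtain ⟨c, rfl⟩ := Polynomial.natDegree_eq_zero.1 h0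
    rw [Polynomial.aeval_C] at hPf
    apply hP0
    have h1 : c = 0 := by
      apply Subtype.ext
      exact hPf
    rw [h1, Polynomial.C_0]
  have hchB : CharZero B := charZero_of_injective_algebraMap (algebraMap F B).injective
  have hder0 : P.derivative ≠ 0 := by
    intro h0
    exact hdeg (Polynomial.derivative_eq_zero.1 h0)
  have hder : Polynomial.aeval f P.derivative ≠ 0 := by
    intro h0
    have h1 := hmin _ hder0 h0
    have h2 := Polynomial.natDegree_derivative_lt hdeg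
    omega
  -- lift the coefficients
  have hmem : ∀ x, (MvPolynomial.aeval l : MvPolynomial (Fin m) F →ₐ[F] A) x ∈ B := by
    intro x
    rw [hB, Algebra.adjoin_range_eq_range_aeval]
    exact ⟨x, rfl⟩
  let ψ : MvPolynomial (Fin m) F →ₐ[F] B :=
    (MvPolynomial.aeval l : MvPolynomial (Fin m) F →ₐ[F] A).codRestrict B hmem
  have hψ : Function.Surjective ψ := by
    rintro ⟨y, hy⟩
    rw [hB, Algebra.adjoin_range_eq_range_aeval] at hy
    obtain ⟨x, hx⟩ := hy
    exact ⟨x, Subtype.ext hx⟩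
  obtain ⟨P', hP'⟩ := Polynomial.map_surjective ψ.toRingHom hψ P
  have key : ∀ Q : Polynomial (MvPolynomial (Fin m) F),
      Polynomial.aeval f (Q.map ψ.toRingHom) =
      Q.eval₂ (MvPolynomial.aeval l : MvPolynomial (Fin m) F →ₐ[F] A).toRingHom f := by
    intro Q
    rw [Polynomial.aeval_def, Polynomial.eval₂_map]
    rfl
  refine ⟨P', ?_, ?_⟩
  · rw [← key, hP', hPf]
  · rw [← key, ← Polynomial.derivative_map, hP']
    exact hder

section
variable {σ F K : Type*} [Fintype σ] [Field F] [Field K] [Algebra F K] {ι U V : Type}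
  [Fintype ι] [DecidableEq ι] {Φ : Frame ι U V}

/-- Linear combinations of `1`, of variables and of gates. -/
theorem lin_good {T : ℕ} {X : ℝ} (hT : 1 ≤ T) (hX : 0 ≤ X) {s : ℕ}
    {g : Fin s → AF σ F} {p : Fin s → Prop} {Θ : AF σ F →ₐ[F] SF ι (U → V → K)}
    (hv : ∀ j, Good Φ T X (Θ (algebraMap (MvPolynomial σ F) (AF σ F) (MvPolynomial.X j))))
    (hg : ∀ i, p i → Good Φ T X (Θ (g i)))
    {f : AF σ F} (hf : f ∈ Lin {f | ∃ i, p i ∧ f = g i}) :
    Good Φ T (((Fintype.card σ : ℝ) + s) * X) (Θ f) := by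
  have h1 : f ∈ Submodule.span F (insert (1 : AF σ F)
      {f | ∃ i : σ ⊕ Fin s, Sum.elim (fun _ => True) p i ∧
        f = Sum.elim (fun j => algebraMap (MvPolynomial σ F) (AF σ F) (MvPolynomial.X j)) g i}) := by
    refine Submodule.span_mono ?_ hf
    refine Set.insert_subset_insert ?_
    rintro x (⟨j, rfl⟩ | ⟨i, hi, rfl⟩)
    · exact ⟨Sum.inl j, trivial, rfl⟩
    · exact ⟨Sum.inr i, hi, rfl⟩
  have h2 := span_good (Φ := Φ) (Θ := Θ) hT hX (fun i hi => by
    rcases i with j | i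
    · exact hv j
    · exact hg i hi) h1
  refine h2.mono le_rfl (le_of_eq ?_)
  rw [Fintype.card_sum, Fintype.card_fin]
  push_cast
  ring

end

/-- **Every gate.** -/
theorem gate_good {σ F K : Type*} [Field F] [Field K] [Algebra F K] [CharZero F] {ι U V : Type}
    [Fintype ι] [DecidableEq ι] [Nonempty U] [Nonempty V] {Φ : Frame ι U V} {s m : ℕ}
    {S : Set (AF σ F)} {f : AF σ F} (hf : IsGate s m S f) (Θ : AF σ F →ₐ[F] SF ι (U → V → K))
    (hc : ∀ g, ∃ c : K, Θ g ∅ = algebraMap K (U → V → K) c)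
    {T T' T'' : ℕ} {z z' X ϑ : ℝ} (hT : T ≤ T') (hT' : T' ≤ T'') (ht : Triv K Φ)
    (hz0 : 0 ≤ z) (hz1 : z ≤ 1) (hz0' : 0 ≤ z') (hz1' : z' ≤ 1) (hϑ : 0 ≤ ϑ) (hX : ϑ ≤ X)
    (hs : Scale K Φ T z) (hs' : Scale K Φ T' z') (hzT : z ^ T' ≤ ϑ) (hzT' : z' ^ T'' ≤ ϑ)
    (hlin : ∀ g ∈ Lin S, Good Φ T X (Θ g)) :
    Good Φ T'' (((s : ℝ) + 1) * 2 ^ (2 * Fintype.card ι ^ 2) *
      ((m : ℝ) + 1) ^ Fintype.card ι * X) (Θ f) := by
  classical
  have hchK : CharZero K := charZero_of_injective_algebraMap (algebraMap F K).injective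
  have hX0 : 0 ≤ X := hϑ.trans hX
  have hbig : ∀ y : ℝ, y ≤ ((s : ℝ) + 1) * 2 ^ (2 * Fintype.card ι ^ 2) *
      ((m : ℝ) + 1) ^ Fintype.card ι → y * X ≤
      ((s : ℝ) + 1) * 2 ^ (2 * Fintype.card ι ^ 2) *
      ((m : ℝ) + 1) ^ Fintype.card ι * X := fun y hy =>
    mul_le_mul_of_nonneg_right hy hX0
  have hs1 : (1:ℝ) ≤ (s : ℝ) + 1 := by
    have : (0:ℝ) ≤ s := Nat.cast_nonneg s
    linarith
  have h21 : (1:ℝ) ≤ 2 ^ (2 * Fintype.card ι ^ 2) := one_le_pow₀ (by norm_num)
  have hm0 : (1:ℝ) ≤ (m : ℝ) + 1 := by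
    have : (0:ℝ) ≤ (m : ℝ) := by positivity
    linarith
  have hm1 : (1:ℝ) ≤ ((m : ℝ) + 1) ^ Fintype.card ι := one_le_pow₀ hm0
  obtain ⟨u₀⟩ := (inferInstance : Nonempty U)
  obtain ⟨v₀⟩ := (inferInstance : Nonempty V)
  have hne : Nontrivial (SF ι (U → V → K)) := by
    refine ⟨0, 1, fun h => ?_⟩
    have h1 := congrFun (congrFun (congrFun h ∅) u₀) v₀
    have h2 : ((1 : SF ι (U → V → K)) ∅) u₀ v₀ = 1 := by rw [SF.one_def, if_pos rfl]; rfl
    rw [h2] at h1
    exact zero_ne_one h1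
  have hnz : ∀ g, g ≠ 0 → ∃ c : K, c ≠ 0 ∧ Θ g ∅ = algebraMap K (U → V → K) c := by
    intro g hg
    obtain ⟨c, hc⟩ := hc g
    refine ⟨c, ?_, hc⟩
    rintro rfl
    have h1 : (Θ g) * (Θ g⁻¹) = 1 := by rw [← map_mul, mul_inv_cancel₀ hg, map_one]
    have h2 := map_mul (SF.ev0 (ι := ι) (R := U → V → K)) (Θ g) (Θ g⁻¹)
    rw [h1, map_one, SF.ev0_apply, hc, map_zero, zero_mul] at h2
    exact one_ne_zero (congrFun (congrFun h2 u₀) v₀)
  rcases hf with ⟨p, e₀, l, e, e', hp, he₀, hl, hne', heq⟩ | ⟨l, hl, halg⟩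
  · set s' := Finset.univ.filter fun j => l j ≠ 0 with hs'def
    by_cases hf0 : f = 0
    · rw [hf0, map_zero]
      exact Good.zero (by positivity)
    obtain ⟨c₀, hc₀, hc₀'⟩ := hnz f hf0
    have he' : ∀ j, j ∉ s' → e' j = 0 := by
      intro j hj
      by_contra h
      apply hne'
      refine Finset.prod_eq_zero (Finset.mem_univ j) ?_
      have h1 : l j = 0 := by
        by_contra h2
        exact hj (Finset.mem_filter.2 ⟨Finset.mem_univ j, h2⟩)
      rw [h1, zero_pow h]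
    have he : ∀ j, j ∉ s' → e j = 0 := by
      intro j hj
      by_contra h
      have h1 : l j = 0 := by
        by_contra h2
        exact hj (Finset.mem_filter.2 ⟨Finset.mem_univ j, h2⟩)
      have h2 : ∏ j, l j ^ e j = 0 := by
        refine Finset.prod_eq_zero (Finset.mem_univ j) ?_
        rw [h1, zero_pow h]
      rw [h2] at heq
      exact mul_ne_zero (pow_ne_zero _ hf0) hne' heq
    have h1 : ∏ j, l j ^ e j = ∏ j ∈ s', l j ^ e j := by
      symm
      refine Finset.prod_subset (Finset.subset_univ _) fun j _ hj => ?_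
      rw [he j hj, pow_zero]
    have h1' : ∏ j, l j ^ e' j = ∏ j ∈ s', l j ^ e' j := by
      symm
      refine Finset.prod_subset (Finset.subset_univ _) fun j _ hj => ?_
      rw [he' j hj, pow_zero]
    rw [h1, h1'] at heq
    have heq' := congrArg Θ heq
    rw [map_mul, map_pow, map_prod, map_prod] at heq'
    simp only [map_pow] at heq'
    have h2 := quot_good ht hz0 hz1 hz0' hz1' hϑ hX hs hs' hzT hzT' s'
      (fun j => Θ (l j)) e e' e₀ he₀ (Θ f) heq' (fun j _ => hlin _ (hl j))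
      (fun j hj => hnz _ (Finset.mem_filter.1 hj).2)
      hc₀ hc₀'
    refine h2.mono le_rfl (hbig _ ?_)
    have h3 : (s'.card : ℝ) ≤ (s : ℝ) := by
      have h4 : s'.card ≤ s := by
        refine (Finset.card_le_univ _).trans ?_
        rw [Fintype.card_fin]; exact hp
      exact_mod_cast h4
    calc ((s'.card : ℝ) + 1) * 2 ^ (2 * Fintype.card ι ^ 2)
        ≤ ((s : ℝ) + 1) * 2 ^ (2 * Fintype.card ι ^ 2) * 1 := by rw [mul_one]; gcongr
      _ ≤ _ := by gcongr
  · obtain ⟨P, hP, hD⟩ := exists_min_eq l halg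
    set D := P.derivative.eval₂
      (MvPolynomial.aeval l : MvPolynomial (Fin m) F →ₐ[F] AF σ F).toRingHom f with hDdef
    have hc' := fun j => hc (l j)
    choose c hcl using hc'
    obtain ⟨c₀, hc₀⟩ := hc f
    set L : Fin m → SF ι (U → V → K) := fun j => Θ (l j) with hL
    set P' : Polynomial (MvPolynomial (Fin m) K) := P.map (MvPolynomial.map (algebraMap F K))
      with hP'
    have key : ∀ Q : Polynomial (MvPolynomial (Fin m) F),
        (Q.map (MvPolynomial.map (algebraMap F K))).eval₂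
          (MvPolynomial.aeval L : MvPolynomial (Fin m) K →ₐ[K] SF ι (U → V → K)).toRingHom (Θ f) =
        Θ (Q.eval₂
          (MvPolynomial.aeval l : MvPolynomial (Fin m) F →ₐ[F] AF σ F).toRingHom f) := by
      intro Q
      rw [Polynomial.eval₂_map]
      show _ = Θ.toRingHom _
      rw [Polynomial.hom_eval₂]
      congr 1
      refine MvPolynomial.ringHom_ext (fun r => ?_) (fun j => ?_)
      · show MvPolynomial.aeval L (MvPolynomial.map (algebraMap F K) (MvPolynomial.C r)) =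
          Θ (MvPolynomial.aeval l (MvPolynomial.C r))
        rw [MvPolynomial.map_C, MvPolynomial.algHom_C, MvPolynomial.algHom_C, AlgHom.commutes,
          ← IsScalarTower.algebraMap_apply]
      · show MvPolynomial.aeval L (MvPolynomial.map (algebraMap F K) (MvPolynomial.X j)) =
          Θ (MvPolynomial.aeval l (MvPolynomial.X j))
        rw [MvPolynomial.map_X, MvPolynomial.aeval_X, MvPolynomial.aeval_X]
    obtain ⟨cD, hcD, hcD'⟩ := hnz D hD
    obtain ⟨N, hN⟩ := exists_aeval_eq L (Θ f) c c₀ hcl hc₀ P' (by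
      rw [hP', key, hP, map_zero]) (by
      rw [hP', Polynomial.derivative_map, key, ← hDdef, hcD']
      intro h0
      exact hcD (congrFun (congrFun h0 u₀) v₀))
    rw [hN]
    have h2 := poly_good ht hz0 hz1 hϑ hX hs hzT L
      (fun j => hlin _ (hl j)) ((m : ℝ) + 1) hm0 (by
        rw [Fintype.card_fin]
        linarith) N
    refine h2.mono hT' (hbig _ ?_)
    have h3 : (2:ℝ) ^ (Fintype.card ι ^ 2) ≤ 2 ^ (2 * Fintype.card ι ^ 2) :=
      pow_le_pow_right₀ (by norm_num) (by omega)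
    calc ((m : ℝ) + 1) ^ Fintype.card ι * 2 ^ (Fintype.card ι ^ 2)
        ≤ ((m : ℝ) + 1) ^ Fintype.card ι * 2 ^ (2 * Fintype.card ι ^ 2) := by gcongr
      _ = 1 * 2 ^ (2 * Fintype.card ι ^ 2) * ((m : ℝ) + 1) ^ Fintype.card ι := by ring
      _ ≤ _ := by gcongr

end Pool.Agent.Y531.Mul
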