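import Pool.Agent.Y531.Mul.Rank

/-!
# The parameters
-/

set_option autoImplicit false
set_option linter.unusedSectionVars false
set_option maxHeartbeats 1000000
set_option synthInstance.maxHeartbeats 200000

namespace Pool.Agent.Y531.Mul

open Finset Pool.Agent.W942 Pool.Agent.Y531 Pool.Agent.Y531.Hit

/-- An algebraically closed field which contains the field of iterated Laurent series. -/
theorem exists_closure.{u} (R : Type u) [Field R] :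
    ∃ (K : Type u) (_ : Field K) (_ : IsAlgClosed K),
      Nonempty (LaurentSeries (LaurentSeries R) →+* K) :=
  ⟨AlgebraicClosure (LaurentSeries (LaurentSeries R)), inferInstance, inferInstance,
    ⟨algebraMap (LaurentSeries (LaurentSeries R))
      (AlgebraicClosure (LaurentSeries (LaurentSeries R)))⟩⟩

/-- **The thresholds.** -/
theorem mul_bound (c Δ : ℕ) : ∃ d q₀ n₀ : ℕ, 2 ≤ d ∧ ∀ n, n₀ ≤ n →
    ∀ (F : Type*) [Field F] [CharZero F] (χ : Equiv.Perm (Fin n) → F), χ 1 ≠ 0 →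
    (∀ σ : Equiv.Perm (Fin n), σ.IsCycle → σ.support.card = d → χ σ ≠ 0) →
    ∀ (s m : ℕ), s ≤ n ^ c → m ^ q₀ ≤ n →
    ∀ (C : Circuit (Fin n × Fin n) (LaurentSeries F) s Δ m)
      (R₀ : AF (Fin n × Fin n) (LaurentSeries F))
      (f₃ h₃ : MvPolynomial (Fin n × Fin n) (PowerSeries F)), C.Computes R₀ →
      R₀ * algebraMap (MvPolynomial (Fin n × Fin n) (LaurentSeries F)) _
          (MvPolynomial.map (HahnSeries.ofPowerSeries ℤ F) h₃) =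
        algebraMap (MvPolynomial (Fin n × Fin n) (LaurentSeries F)) _
          (MvPolynomial.map (HahnSeries.ofPowerSeries ℤ F) f₃) →
      MvPolynomial.map PowerSeries.constantCoeff f₃ ≠ 0 →
      MvPolynomial.map PowerSeries.constantCoeff h₃ ≠ 0 →
      ∃ t : Fin n, ordr χ t (MvPolynomial.map PowerSeries.constantCoeff f₃) ≤
        ordr χ t (MvPolynomial.map PowerSeries.constantCoeff h₃) := by
  set k := c + 2 with hk
  set w := k + 2 * k * (Δ + 1) + 2 with hw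
  obtain ⟨a, b, T, ha, hb, hba, hT0, hTm, hTK, hsc⟩ := exists_thresholds (2 * Δ + 3) w 2
  set d := a + b with hd
  have hd0 : 0 < d := by omega
  have hd2 : 2 ≤ d := by omega
  obtain ⟨e, he⟩ := exists_sort (ι := Fin b ⊕ Fin a) (d := a + b)
    (by rw [Fintype.card_sum, Fintype.card_fin, Fintype.card_fin, add_comm]) key (key_inj ha hb)
  set C₁ : ℕ := d * 2 ^ (d ^ 2) * (3 * (6 ^ (Δ + 1) * 2 ^ (2 * d ^ 2 * (Δ + 1)) *
    2 ^ (d * (Δ + 1)))) with hC₁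
  set C₂ : ℕ := d * 2 ^ a with hC₂
  refine ⟨d, d * (Δ + 1), C₂ ^ w * C₁ + C₂ + 1, hd2, ?_⟩
  intro n hn F _ _ χ hχ1 hχd s m hs hm C R₀ f₃ h₃ hC hR hf hh0
  by_contra hord
  push Not at hord
  obtain ⟨hna, hnc, hn1⟩ : C₂ ^ w * C₁ < n ∧ C₂ < n ∧ 1 ≤ n := by
    have h1 : ∀ x z : ℕ, x + z + 1 ≤ n → x < n ∧ z < n ∧ 1 ≤ n := by
      intro x z hxz
      omega
    exact h1 _ _ hn
  set h := Nat.log (2 ^ a) (n / d) with hh
  have h2a : 1 < 2 ^ a := Nat.one_lt_pow (by omega) (by norm_num)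
  have hC₂' : d ≤ C₂ := Nat.le_mul_of_pos_right _ (by positivity)
  have hnd : n / d ≠ 0 := by
    have : 0 < n / d := Nat.div_pos (by omega) hd0
    omega
  have hlow : (2 ^ a) ^ h ≤ n / d := Nat.pow_log_le_self _ hnd
  have hup : n / d < (2 ^ a) ^ (h + 1) := Nat.lt_pow_succ_log_self h2a _
  have hcardle : Fintype.card (Vtx h e) ≤ Fintype.card (Fin n) := by
    rw [Fintype.card_fin]
    refine (card_vtx ha hb hba e he).trans ?_
    rw [← hd, pow_mul]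
    exact (Nat.mul_le_mul_left _ hlow).trans (Nat.mul_div_le n d)
  obtain ⟨ν⟩ := Function.Embedding.nonempty_of_card_le hcardle
  have hnC : n < C₂ * 2 ^ (a * h) := by
    rw [Nat.div_lt_iff_lt_mul hd0] at hup
    refine hup.trans_le (le_of_eq ?_)
    rw [pow_succ, ← pow_mul, hC₂]
    ring
  obtain ⟨K, _, _, ⟨j⟩⟩ := exists_closure (RF n F)
  have hmain := mul_rank (L := w) (T := T) j ha hd2 hT0 hTm hTK (fun k hk => hsc h k hk)
    ν.injective χ hχ1 (fun u => hχd _ (sig_isCycle ν.injective hd2 u)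
      (sig_card ν.injective hd2 u)) C f₃ h₃ hC hR hf hh0 (hord _)
  rw [← hd] at hmain
  -- the cost
  have hnR : (1:ℝ) ≤ n := by exact_mod_cast hn1
  have hnk : (1:ℝ) ≤ (n:ℝ) ^ k := one_le_pow₀ hnR
  have hnR2 : ((n * n : ℕ) : ℝ) ≤ (n:ℝ) ^ k := by
    push_cast
    rw [← sq]
    exact pow_le_pow_right₀ hnR (by omega)
  have hsR : (s:ℝ) ≤ (n:ℝ) ^ k := by
    have h1 : (s:ℝ) ≤ (n:ℝ) ^ c := by exact_mod_cast hs
    exact h1.trans (pow_le_pow_right₀ hnR (by omega))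
  have hs' : (s : ℝ) + 1 ≤ 2 * (n:ℝ) ^ k := by linarith
  have hns : ((n * n : ℕ) : ℝ) + s + 1 ≤ 3 * (n:ℝ) ^ k := by linarith
  have hs0 : (0:ℝ) ≤ s := Nat.cast_nonneg s
  have hm0 : (0:ℝ) ≤ m := Nat.cast_nonneg m
  have hn0 : (0:ℝ) ≤ ((n * n : ℕ) : ℝ) := Nat.cast_nonneg _
  have hm' : (((m : ℝ) + 1) ^ d) ^ (Δ + 1) ≤ 2 ^ (d * (Δ + 1)) * n := by
    rw [← pow_mul]
    by_cases hm0 : m = 0
    · rw [hm0, Nat.cast_zero, zero_add, one_pow]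
      exact one_le_mul_of_one_le_of_one_le (one_le_pow₀ (by norm_num)) hnR
    · have hm1 : (1:ℝ) ≤ m := by exact_mod_cast Nat.one_le_iff_ne_zero.2 hm0
      have h1 : (m : ℝ) + 1 ≤ 2 * m := by linarith
      have h2 : ((m:ℝ)) ^ (d * (Δ + 1)) ≤ n := by exact_mod_cast hm
      calc ((m : ℝ) + 1) ^ (d * (Δ + 1)) ≤ (2 * m) ^ (d * (Δ + 1)) := by gcongr
        _ = 2 ^ (d * (Δ + 1)) * (m:ℝ) ^ (d * (Δ + 1)) := mul_pow _ _ _
        _ ≤ _ := by gcongr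
  have hcost : cost (n * n) s m d ^ (Δ + 1) ≤ 6 ^ (Δ + 1) * 2 ^ (2 * d ^ 2 * (Δ + 1)) *
      2 ^ (d * (Δ + 1)) * ((n:ℝ) ^ (2 * k * (Δ + 1)) * n) := by
    have h1 : cost (n * n) s m d ^ (Δ + 1) =
        ((((n * n : ℕ) : ℝ) + s + 1) * ((s : ℝ) + 1)) ^ (Δ + 1) *
        2 ^ (2 * d ^ 2 * (Δ + 1)) * (((m : ℝ) + 1) ^ d) ^ (Δ + 1) := by
      rw [cost, pow_mul 2 (2 * d ^ 2) (Δ + 1), ← mul_pow, ← mul_pow]
      congr 1
      ring
    rw [h1]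
    have h2 : ((((n * n : ℕ) : ℝ) + s + 1) * ((s : ℝ) + 1)) ^ (Δ + 1) ≤
        6 ^ (Δ + 1) * (n:ℝ) ^ (2 * k * (Δ + 1)) := by
      have h3 : (((n * n : ℕ) : ℝ) + s + 1) * ((s : ℝ) + 1) ≤ 6 * (n:ℝ) ^ (2 * k) := by
        calc (((n * n : ℕ) : ℝ) + s + 1) * ((s : ℝ) + 1)
            ≤ (3 * (n:ℝ) ^ k) * (2 * (n:ℝ) ^ k) := by gcongr
          _ = _ := by ring
      refine (pow_le_pow_left₀ (by positivity) h3 (Δ + 1)).trans (le_of_eq ?_)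
      rw [mul_pow, ← pow_mul]
    calc ((((n * n : ℕ) : ℝ) + s + 1) * ((s : ℝ) + 1)) ^ (Δ + 1) *
        2 ^ (2 * d ^ 2 * (Δ + 1)) * (((m : ℝ) + 1) ^ d) ^ (Δ + 1)
        ≤ (6 ^ (Δ + 1) * (n:ℝ) ^ (2 * k * (Δ + 1))) *
        2 ^ (2 * d ^ 2 * (Δ + 1)) * (2 ^ (d * (Δ + 1)) * n) := by gcongr
      _ = _ := by ring
  have hRHS : (2:ℝ) ^ (a * h * w) ≤ C₁ * (n:ℝ) ^ (w - 1) := by
    refine hmain.trans ?_
    have h3 : w - 1 = k + (2 * k * (Δ + 1) + 1) := by omega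
    have h4 : (n:ℝ) ^ (w - 1) = (n:ℝ) ^ k * ((n:ℝ) ^ (2 * k * (Δ + 1)) * n) := by
      rw [h3, pow_add, pow_add (n:ℝ) (2 * k * (Δ + 1)) 1, pow_one]
    rw [h4, hC₁]
    have h5 : (a:ℝ) + b = d := by rw [hd]; push_cast; ring
    rw [h5]
    have h6 : 0 ≤ cost (n * n) s m d := zero_le_one.trans (one_le_cost (n * n) s m d)
    have h7 : 0 ≤ cost (n * n) s m d ^ (Δ + 1) := by positivity
    have h8 : ((d * 2 ^ (d ^ 2) * (3 * (6 ^ (Δ + 1) * 2 ^ (2 * d ^ 2 * (Δ + 1)) *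
        2 ^ (d * (Δ + 1)))) : ℕ) : ℝ) = (d:ℝ) * 2 ^ (d ^ 2) * (3 * (6 ^ (Δ + 1) *
        2 ^ (2 * d ^ 2 * (Δ + 1)) * 2 ^ (d * (Δ + 1)))) := by push_cast; ring
    rw [h8]
    calc (d:ℝ) * 2 ^ d ^ 2 * ((((n * n : ℕ):ℝ) + s + 1) * cost (n * n) s m d ^ (Δ + 1))
        ≤ (d:ℝ) * 2 ^ d ^ 2 * ((3 * (n:ℝ) ^ k) * (6 ^ (Δ + 1) *
          2 ^ (2 * d ^ 2 * (Δ + 1)) * 2 ^ (d * (Δ + 1)) *
          ((n:ℝ) ^ (2 * k * (Δ + 1)) * n))) := by
          gcongr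
      _ = _ := by ring
  have hnR3 : (n:ℝ) < C₂ * (2:ℝ) ^ (a * h) := by exact_mod_cast hnC
  have hw0 : w ≠ 0 := by omega
  have hfin : (n:ℝ) ^ w < (C₂:ℝ) ^ w * C₁ * (n:ℝ) ^ (w - 1) := by
    calc (n:ℝ) ^ w < (C₂ * (2:ℝ) ^ (a * h)) ^ w :=
          pow_lt_pow_left₀ hnR3 (Nat.cast_nonneg n) hw0
      _ = (C₂:ℝ) ^ w * 2 ^ (a * h * w) := by
          rw [mul_pow, ← pow_mul]
      _ ≤ (C₂:ℝ) ^ w * (C₁ * (n:ℝ) ^ (w - 1)) :=
          mul_le_mul_of_nonneg_left hRHS (by positivity)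
      _ = _ := by ring
  have hfin2 : (n:ℝ) < (C₂:ℝ) ^ w * C₁ := by
    have h1 : (n:ℝ) ^ w = n * (n:ℝ) ^ (w - 1) := by
      rw [← pow_succ']; congr 1
    rw [h1] at hfin
    exact lt_of_mul_lt_mul_right hfin (by positivity)
  have hfin3 : n < C₂ ^ w * C₁ := by exact_mod_cast hfin2
  exact absurd hfin3 (not_lt.2 hna.le)

end Pool.Agent.Y531.Mul
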