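import Pool.Agent.Y531.Mul.Forest

/-!
# A perturbation with nonzero principal minors, and the bound for determinants
-/

set_option autoImplicit false
set_option linter.unusedSectionVars false
set_option maxHeartbeats 1000000
set_option synthInstance.maxHeartbeats 200000

namespace Pool.Agent.Y531.Mul

open Finset MvPolynomial Matrix

section small
variable {F : Type*} [Field F] {σ : Type*}

/-- The power `ε ^ K`. -/
noncomputable def EE (F : Type*) [Field F] (K : ℕ) : LaurentSeries F :=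
  HahnSeries.ofPowerSeries ℤ F (PowerSeries.X ^ K)

theorem EE_injective : Function.Injective (EE F) := by
  intro K K' h
  have h1 : (PowerSeries.X ^ K : PowerSeries F) = PowerSeries.X ^ K' :=
    HahnSeries.ofPowerSeries_injective h
  have h2 := congrArg (PowerSeries.coeff K) h1
  rw [PowerSeries.coeff_X_pow, PowerSeries.coeff_X_pow, if_pos rfl] at h2
  by_contra hne
  rw [if_neg hne] at h2
  exact one_ne_zero h2

theorem small_const (x : LaurentSeries F) : ∃ K₀ : ℕ, ∀ K, K₀ ≤ K → ∃ g : PowerSeries F,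
    x * EE F K = HahnSeries.ofPowerSeries ℤ F g ∧ PowerSeries.constantCoeff g = 0 := by
  refine ⟨(-x.order).toNat + 1, fun K hK => ?_⟩
  obtain ⟨j, hj⟩ : ∃ j : ℕ, x.order + (K : ℤ) = ((j + 1 : ℕ) : ℤ) := by
    refine ⟨(x.order + K - 1).toNat, ?_⟩
    have h1 := Int.self_le_toNat (-x.order)
    push_cast
    omega
  refine ⟨PowerSeries.X ^ (j + 1) * x.powerSeriesPart, ?_, ?_⟩
  · conv_lhs => rw [← x.single_order_mul_powerSeriesPart]
    have h1 : EE F K = HahnSeries.single (K : ℤ) 1 := by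
      rw [EE, HahnSeries.ofPowerSeries_X_pow]
    rw [h1, map_mul, HahnSeries.ofPowerSeries_X_pow, ← hj, mul_right_comm,
      HahnSeries.single_mul_single, one_mul]
  · rw [map_mul, map_pow, PowerSeries.constantCoeff_X, zero_pow (Nat.succ_ne_zero _), zero_mul]

theorem small_mv (p : MvPolynomial σ (LaurentSeries F)) : ∃ K₀ : ℕ, ∀ K, K₀ ≤ K →
    ∃ g : MvPolynomial σ (PowerSeries F), p * C (EE F K) =
      MvPolynomial.map (HahnSeries.ofPowerSeries ℤ F) g ∧
      MvPolynomial.map PowerSeries.constantCoeff g = 0 := by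
  classical
  induction p using MvPolynomial.induction_on with
  | C a =>
    obtain ⟨K₀, hK₀⟩ := small_const a
    refine ⟨K₀, fun K hK => ?_⟩
    obtain ⟨g, hg, hg'⟩ := hK₀ K hK
    refine ⟨C g, ?_, ?_⟩
    · rw [← C_mul, hg, MvPolynomial.map_C]
    · rw [MvPolynomial.map_C, hg', map_zero]
  | add p q hp hq =>
    obtain ⟨K₁, hK₁⟩ := hp
    obtain ⟨K₂, hK₂⟩ := hq
    refine ⟨max K₁ K₂, fun K hK => ?_⟩
    obtain ⟨g, hg, hg'⟩ := hK₁ K ((le_max_left _ _).trans hK)
    obtain ⟨g₂, hg₂, hg₂'⟩ := hK₂ K ((le_max_right _ _).trans hK)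
    exact ⟨g + g₂, by rw [add_mul, hg, hg₂, map_add], by rw [map_add, hg', hg₂', add_zero]⟩
  | mul_X p i hp =>
    obtain ⟨K₀, hK₀⟩ := hp
    refine ⟨K₀, fun K hK => ?_⟩
    obtain ⟨g, hg, hg'⟩ := hK₀ K hK
    exact ⟨g * X i, by rw [mul_right_comm, hg, map_mul, MvPolynomial.map_X], by
      rw [map_mul, hg', zero_mul]⟩

theorem small_poly (p : Polynomial (MvPolynomial σ (LaurentSeries F))) : ∃ K₀ : ℕ, ∀ K, K₀ ≤ K →
    ∃ g : MvPolynomial σ (PowerSeries F), p.eval (C (EE F K)) * C (EE F K) =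
      MvPolynomial.map (HahnSeries.ofPowerSeries ℤ F) g ∧
      MvPolynomial.map PowerSeries.constantCoeff g = 0 := by
  classical
  induction p using Polynomial.induction_on' with
  | add p q hp hq =>
    obtain ⟨K₁, hK₁⟩ := hp
    obtain ⟨K₂, hK₂⟩ := hq
    refine ⟨max K₁ K₂, fun K hK => ?_⟩
    obtain ⟨g, hg, hg'⟩ := hK₁ K ((le_max_left _ _).trans hK)
    obtain ⟨g₂, hg₂, hg₂'⟩ := hK₂ K ((le_max_right _ _).trans hK)
    exact ⟨g + g₂, by rw [Polynomial.eval_add, add_mul, hg, hg₂, map_add], by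
      rw [map_add, hg', hg₂', add_zero]⟩
  | monomial n a =>
    obtain ⟨K₀, hK₀⟩ := small_mv a
    refine ⟨K₀, fun K hK => ?_⟩
    obtain ⟨g, hg, hg'⟩ := hK₀ K hK
    refine ⟨g * C (PowerSeries.X ^ K) ^ n, ?_, by rw [map_mul, hg', zero_mul]⟩
    rw [Polynomial.eval_monomial, mul_right_comm, hg, map_mul, map_pow, MvPolynomial.map_C]
    rfl

variable {ι : Type*} [Fintype ι] [DecidableEq ι]

/-- The perturbed matrix. -/
noncomputable def pert (A : Matrix ι ι (MvPolynomial σ (LaurentSeries F))) (K : ℕ) :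
    Matrix ι ι (MvPolynomial σ (LaurentSeries F)) :=
  Matrix.scalar ι (C (EE F K)) + A

theorem pert_eval (A : Matrix ι ι (MvPolynomial σ (LaurentSeries F))) (K : ℕ) :
    (pert A K).det = (-A).charpoly.eval (C (EE F K)) := by
  rw [Matrix.eval_charpoly, sub_neg_eq_add]
  rfl

theorem pert_prin (A : Matrix ι ι (MvPolynomial σ (LaurentSeries F))) (v : Finset ι) :
    ∃ K₀ : ℕ, ∀ K, K₀ ≤ K → (res v (pert A K)).det ≠ 0 := by
  classical
  set Av : Matrix ι ι (MvPolynomial σ (LaurentSeries F)) :=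
    Matrix.of fun i j => if i ∈ v ∧ j ∈ v then A i j else 0 with hAv
  have h0 : (-Av).charpoly ≠ 0 := (Matrix.charpoly_monic _).ne_zero
  have hfin : {K : ℕ | (-Av).charpoly.eval (C (EE F K)) = 0}.Finite := by
    have h1 : Set.Finite {x | (-Av).charpoly.IsRoot x} := Polynomial.finite_setOfPred_isRoot h0
    have h2 : Function.Injective fun K : ℕ =>
        (C (EE F K) : MvPolynomial σ (LaurentSeries F)) :=
      (MvPolynomial.C_injective _ _).comp EE_injective
    exact Set.Finite.preimage (h2.injOn) h1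
  obtain ⟨B, hB⟩ := hfin.bddAbove
  refine ⟨B + 1, fun K hK hdet => ?_⟩
  have h3 : (-Av).charpoly.eval (C (EE F K)) = 0 := by
    rw [Matrix.eval_charpoly, sub_neg_eq_add]
    have h4 : Matrix.scalar ι (C (EE F K)) + Av =
        Matrix.diagonal (fun i => if i ∈ v then 1 else C (EE F K)) * res v (pert A K) := by
      ext1 i j
      rw [Matrix.diagonal_mul, res_apply, pert, Matrix.add_apply, Matrix.add_apply,
        Matrix.scalar_apply, Matrix.diagonal_apply, Matrix.one_apply, hAv, Matrix.of_apply]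
      by_cases hi : i ∈ v <;> by_cases hj : j ∈ v <;> by_cases hij : i = j
      all_goals simp_all
    rw [h4, Matrix.det_mul, hdet, mul_zero]
  have := hB h3
  omega

theorem exists_pert (A : Matrix ι ι (MvPolynomial σ (LaurentSeries F)))
    (f₃ : MvPolynomial σ (PowerSeries F))
    (h : A.det = MvPolynomial.map (HahnSeries.ofPowerSeries ℤ F) f₃) :
    ∃ (K : ℕ) (f₃' : MvPolynomial σ (PowerSeries F)), (∀ v, (res v (pert A K)).det ≠ 0) ∧
      (pert A K).det = MvPolynomial.map (HahnSeries.ofPowerSeries ℤ F) f₃' ∧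
      MvPolynomial.map PowerSeries.constantCoeff f₃' =
        MvPolynomial.map PowerSeries.constantCoeff f₃ := by
  classical
  choose K₀ hK₀ using pert_prin A
  obtain ⟨K₁, hK₁⟩ := small_poly (-A).charpoly.divX
  obtain ⟨g, hg, hg'⟩ := hK₁ (max (Finset.univ.sup K₀) K₁) (le_max_right _ _)
  refine ⟨max (Finset.univ.sup K₀) K₁, g + f₃, fun v => hK₀ v _ ?_, ?_, ?_⟩
  · exact (Finset.le_sup (Finset.mem_univ v)).trans (le_max_left _ _)
  · have h1 : (-A).charpoly.coeff 0 = A.det := by
      rw [Polynomial.coeff_zero_eq_eval_zero, Matrix.eval_charpoly, map_zero, zero_sub, neg_neg]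
    rw [pert_eval]
    conv_lhs => rw [← Polynomial.divX_mul_X_add (-A).charpoly]
    rw [Polynomial.eval_add, Polynomial.eval_mul, Polynomial.eval_X, Polynomial.eval_C, hg, h1, h,
      map_add]
  · rw [map_add, hg', zero_add]

end small

theorem affine_mem_Lin {σ L : Type*} [Field L] {S : Set (AF σ L)} {p : MvPolynomial σ L}
    (hp : p.totalDegree ≤ 1) : algebraMap (MvPolynomial σ L) (AF σ L) p ∈ Lin S := by
  classical
  rw [p.as_sum, map_sum]
  refine Submodule.sum_mem _ fun d hd => ?_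
  have h1 : (d.sum fun _ e => e) ≤ 1 := (MvPolynomial.le_totalDegree hd).trans hp
  have hsm : ∀ a : L, ∀ q : MvPolynomial σ L,
      algebraMap (MvPolynomial σ L) (AF σ L) (C a * q) =
        a • algebraMap (MvPolynomial σ L) (AF σ L) q := by
    intro a q
    rw [← MvPolynomial.smul_eq_C_mul]
    exact map_smul (IsScalarTower.toAlgHom L (MvPolynomial σ L) (AF σ L)) a q
  by_cases h0 : d = 0
  · rw [h0]
    have h2 : (monomial (0 : σ →₀ ℕ)) (coeff 0 p) = C (coeff 0 p) * 1 := by rw [mul_one]; rfl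
    rw [h2, hsm, map_one]
    exact Submodule.smul_mem _ _ one_mem_Lin
  · obtain ⟨j, hj⟩ : ∃ j, d j ≠ 0 := by
      by_contra hcon
      push Not at hcon
      exact h0 (Finsupp.ext hcon)
    have hjs : j ∈ d.support := Finsupp.mem_support_iff.2 hj
    have hd1 : d = Finsupp.single j 1 := by
      rw [Finsupp.sum] at h1
      have h3 := Finset.single_le_sum (f := fun i => d i) (fun i _ => Nat.zero_le _) hjs
      have h4 : d j = 1 := by
        have : d j ≤ 1 := h3.trans h1
        omega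
      ext i
      by_cases hij : i = j
      · rw [hij, Finsupp.single_eq_same, h4]
      · rw [Finsupp.single_eq_of_ne hij]
        by_contra hi
        have his : i ∈ d.support := Finsupp.mem_support_iff.2 hi
        have h5 : ({i, j} : Finset σ) ⊆ d.support := by
          intro x hx
          rcases Finset.mem_insert.1 hx with rfl | hx
          · exact his
          · rw [Finset.mem_singleton] at hx; rw [hx]; exact hjs
        have h6 := Finset.sum_le_sum_of_subset (f := fun i => d i) h5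
        rw [Finset.sum_pair hij] at h6
        have h7 : d i + d j ≤ 1 := h6.trans h1
        omega
    have h2 : (monomial d) (coeff d p) = C (coeff d p) * X j := by
      rw [C_mul_X_eq_monomial, ← hd1]
    rw [h2, hsm]
    exact Submodule.smul_mem _ _ (X_mem_Lin j)

/-- **The bound for circuits and for determinants.** -/
theorem both_bound (c Δ : ℕ) : ∃ d q n₀ : ℕ, 2 ≤ d ∧ ∀ n, n₀ ≤ n →
    ∀ (F : Type*) [Field F] [CharZero F] (χ : Equiv.Perm (Fin n) → F), χ 1 ≠ 0 →
    (∀ σ : Equiv.Perm (Fin n), σ.IsCycle → σ.support.card = d → χ σ ≠ 0) →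
    (∀ (s m : ℕ), s ≤ n ^ c → m ^ q ≤ n →
      ∀ (C : Circuit (Fin n × Fin n) (LaurentSeries F) s Δ m)
      (R₀ : AF (Fin n × Fin n) (LaurentSeries F))
      (f₃ h₃ : MvPolynomial (Fin n × Fin n) (PowerSeries F)), C.Computes R₀ →
      R₀ * algebraMap (MvPolynomial (Fin n × Fin n) (LaurentSeries F)) _
          (MvPolynomial.map (HahnSeries.ofPowerSeries ℤ F) h₃) =
        algebraMap (MvPolynomial (Fin n × Fin n) (LaurentSeries F)) _
          (MvPolynomial.map (HahnSeries.ofPowerSeries ℤ F) f₃) →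
      MvPolynomial.map PowerSeries.constantCoeff f₃ ≠ 0 →
      MvPolynomial.map PowerSeries.constantCoeff h₃ ≠ 0 →
      IsRelPrime (MvPolynomial.map PowerSeries.constantCoeff f₃)
        (MvPolynomial.map PowerSeries.constantCoeff h₃) →
      ∀ k : ℕ, ¬ FX χ ∣ (MvPolynomial.map PowerSeries.constantCoeff f₃) ^ k ∧
        ¬ FX χ ∣ (MvPolynomial.map PowerSeries.constantCoeff h₃) ^ k) ∧
    ∀ (N b : ℕ), N ≤ n ^ c → b ^ q ≤ n →
    ∀ w : Fin N → List ℕ, (∀ i, (w i).length ≤ Δ) →
    (∀ v, (Finset.univ.filter fun i => w i = v).card ≤ b) →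
    ∀ A : Matrix (Fin N) (Fin N) (MvPolynomial (Fin n × Fin n) (LaurentSeries F)),
    (∀ i j, (A i j).totalDegree ≤ 1) → (∀ i j, A i j ≠ 0 → w i <+: w j ∨ w j <+: w i) →
    ∀ f₃ : MvPolynomial (Fin n × Fin n) (PowerSeries F),
      A.det = MvPolynomial.map (HahnSeries.ofPowerSeries ℤ F) f₃ →
    MvPolynomial.map PowerSeries.constantCoeff f₃ ≠ 0 →
    ∀ k : ℕ, ¬ FX χ ∣ (MvPolynomial.map PowerSeries.constantCoeff f₃) ^ k := by
  classical
  obtain ⟨d, q₀, n₀, hd, H⟩ := quot_bound (3 * c + 2) (Δ + 1)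
  refine ⟨d, 4 * q₀, n₀ + 16 ^ q₀ + 2, hd, ?_⟩
  intro n hn F _ _ χ hχ1 hχd
  have hn0 : n₀ ≤ n := (Nat.le_add_right _ _).trans ((Nat.le_add_right _ _).trans hn)
  have hn16 : 16 ^ q₀ ≤ n := (Nat.le_add_left _ _).trans ((Nat.le_add_right _ _).trans hn)
  have hn2 : 2 ≤ n := (Nat.le_add_left _ _).trans hn
  constructor
  · intro s m hs hm C R₀ f₃ h₃ hC hR hf hh hfh k
    let C' : Circuit (Fin n × Fin n) (LaurentSeries F) s (Δ + 1) m :=
      ⟨C.g, C.depth, fun i => (C.depth_le i).trans (Nat.le_succ _), C.isGate⟩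
    refine H n hn0 F χ hχ1 hχd s m (hs.trans (Nat.pow_le_pow_right (by omega) (by omega))) ?_
      C' R₀ f₃ h₃ hC hR hf hh hfh k
    rcases Nat.eq_zero_or_pos m with h | h
    · rw [h]
      rcases Nat.eq_zero_or_pos q₀ with h' | h'
      · rw [h', pow_zero]; omega
      · rw [zero_pow (by omega)]; exact Nat.zero_le _
    · exact (Nat.pow_le_pow_right h (by omega)).trans hm
  intro N b hN hb w hw hwb A hA hst f₃ hf₃ hf0 k hk
  obtain ⟨K, f₃', hP, hdet, hlim⟩ := exists_pert A f₃ hf₃
  set inc := algebraMap (MvPolynomial (Fin n × Fin n) (LaurentSeries F))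
    (AF (Fin n × Fin n) (LaurentSeries F)) with hinc
  have hinj : Function.Injective inc :=
    (algebraMap (FractionRing (MvPolynomial (Fin n × Fin n) (LaurentSeries F)))
      (AF (Fin n × Fin n) (LaurentSeries F))).injective.comp (IsFractionRing.injective _ _)
  set M : Matrix (Fin N) (Fin N) (AF (Fin n × Fin n) (LaurentSeries F)) :=
    inc.mapMatrix (pert A K) with hM
  have hMapp : ∀ i j, M i j = inc (pert A K i j) := fun i j => rfl
  have hMdet : M.det = inc (pert A K).det := (RingHom.map_det inc _).symm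
  have hpa : ∀ i j, pert A K i j = (if i = j then C (EE F K) else 0) + A i j := by
    intro i j
    rw [pert, Matrix.add_apply, Matrix.scalar_apply, Matrix.diagonal_apply]
  obtain ⟨vs, r, hr, Hord, hlen⟩ := exists_ord w hw
  rw [Fintype.card_fin] at hr
  obtain ⟨C', hC'⟩ := exists_circuit_det (s := N * (N ^ 2 + 1) + 1) (Δ := Δ)
    (m := b * (b + 2)) (b := b) (M := M) Hord (by
      intro i j hij
      by_cases h : i = j
      · rw [h]; exact Or.inl (List.prefix_refl _)
      · refine hst i j fun h0 => hij ?_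
        rw [hMapp, hpa, if_neg h, h0, add_zero, map_zero]) (by
      intro i j
      rw [hMapp, hpa, map_add]
      refine Submodule.add_mem _ ?_ (affine_mem_Lin (hA i j))
      split_ifs
      · exact affine_mem_Lin (by rw [totalDegree_C]; exact Nat.zero_le _)
      · rw [map_zero]; exact Submodule.zero_mem _) (by
      intro v
      have h1 : res v M = inc.mapMatrix (res v (pert A K)) := by
        ext i j
        rw [res_apply]
        show _ = inc (res v (pert A K) i j)
        rw [res_apply]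
        split_ifs with h2
        · rfl
        · rw [Matrix.one_apply, Matrix.one_apply]
          split_ifs
          · rw [map_one]
          · rw [map_zero]
      rw [h1, ← RingHom.map_det]
      intro h0
      exact hP v (hinj (by rw [h0, map_zero]))) hlen (fun v => hwb v) le_rfl (by
      rw [Fintype.card_fin]
      exact Nat.add_le_add_right (Nat.mul_le_mul_right _ hr) 1)
  rw [hMdet, hdet] at hC'
  rw [← hlim] at hk hf0
  refine (H n hn0 F χ hχ1 hχd _ _ ?_ ?_ C' _ f₃' 1 hC' (by rw [map_one, map_one, mul_one]) hf0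
    (by rw [map_one]; exact one_ne_zero) (by rw [map_one]; exact isRelPrime_one_right) k).1 hk
  · have h1 : 1 ≤ n ^ c := Nat.one_le_pow _ _ (by omega)
    have h3 : N ^ 3 ≤ n ^ (3 * c) := by
      rw [mul_comm, pow_mul]
      exact Nat.pow_le_pow_left hN 3
    have h4 : N ≤ n ^ (3 * c) := hN.trans (Nat.pow_le_pow_right (by omega) (by omega))
    have h5 : 1 ≤ n ^ (3 * c) := Nat.one_le_pow _ _ (by omega)
    have h6 : 4 ≤ n ^ 2 := by nlinarith
    calc N * (N ^ 2 + 1) + 1 = N ^ 3 + N + 1 := by ring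
      _ ≤ n ^ (3 * c) + n ^ (3 * c) + n ^ (3 * c) := by omega
      _ ≤ n ^ (3 * c) * 4 := by omega
      _ ≤ n ^ (3 * c) * n ^ 2 := Nat.mul_le_mul_left _ h6
      _ = n ^ (3 * c + 2) := (pow_add _ _ _).symm
  · by_cases hb0 : b = 0
    · rw [hb0, zero_mul]
      rcases Nat.eq_zero_or_pos q₀ with h | h
      · rw [h, pow_zero]; omega
      · rw [zero_pow (by omega)]; exact Nat.zero_le _
    · have h1 : b * (b + 2) ≤ 4 * b ^ 2 := by nlinarith [Nat.one_le_iff_ne_zero.2 hb0]
      have h2 : ((b * (b + 2)) ^ q₀) ^ 2 ≤ n ^ 2 := by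
        calc ((b * (b + 2)) ^ q₀) ^ 2 ≤ ((4 * b ^ 2) ^ q₀) ^ 2 :=
              Nat.pow_le_pow_left (Nat.pow_le_pow_left h1 _) _
          _ = 16 ^ q₀ * b ^ (4 * q₀) := by
              rw [mul_pow, mul_pow, ← pow_mul, ← pow_mul, ← pow_mul]
              congr 1
              · rw [mul_comm q₀ 2, pow_mul]; norm_num
              · congr 1; ring
          _ ≤ n * n := Nat.mul_le_mul hn16 hb
          _ = n ^ 2 := by ring
      exact (Nat.pow_le_pow_iff_left (by norm_num)).1 h2

end Pool.Agent.Y531.Mul
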