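import Pool.Agent.Y531.Mul.Root
import Pool.Agent.Y531.Mul.Gates

/-!
# The rank inequality
-/

set_option autoImplicit false
set_option linter.unusedSectionVars false
set_option maxHeartbeats 2000000
set_option synthInstance.maxHeartbeats 200000

namespace Pool.Agent.Y531.Mul

open Finset Pool.Agent.W942 Pool.Agent.Y531 Pool.Agent.Y531.Hit

variable {a b h : ℕ}

/-- **All functions computed by a circuit.** -/
theorem circuit_good {σ L K : Type*} [Fintype σ] [Field L] [CharZero L] [Field K] [Algebra L K]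
    {s Δ m : ℕ} {T : ℕ → ℕ} (hT0 : T 0 = 2) (hTm : Monotone T) {ϑ : ℝ} (hϑ0 : 0 < ϑ)
    (hscale : ∀ k, k < 2 * Δ + 2 → ∃ z : ℝ, 0 ≤ z ∧ z ≤ 1 ∧ NumScale a b h (T k) z ∧
      z ^ (T (k + 1)) ≤ ϑ)
    (Θ : AF σ L →ₐ[L] SF (Fin b ⊕ Fin a) ((Ed a b h → Bool) → (Ed a b h → Bool) → K))
    (hc : ∀ g, ∃ c : K, Θ g ∅ = algebraMap K ((Ed a b h → Bool) → (Ed a b h → Bool) → K) c)
    (hvar : ∀ j, Good (bitFrame a b h) 2 ϑ
      (Θ (algebraMap (MvPolynomial σ L) (AF σ L) (MvPolynomial.X j))))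
    (C : Circuit σ L s Δ m) {f : AF σ L} (hf : C.Computes f) :
    Good (bitFrame a b h) (T (2 * Δ + 2)) (((Fintype.card σ : ℝ) + s + 1) *
      (cost (Fintype.card σ) s m (a + b) ^ (Δ + 1) * ϑ)) (Θ f) := by
  classical
  have hcard : Fintype.card (Fin b ⊕ Fin a) = a + b := by
    rw [Fintype.card_sum, Fintype.card_fin, Fintype.card_fin, add_comm]
  set nv := Fintype.card σ with hnv
  set c := cost nv s m (a + b) with hcdef
  have hc1 : 1 ≤ c := one_le_cost nv s m (a + b)
  have hn0 : (0:ℝ) ≤ nv := Nat.cast_nonneg nv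
  have hs0 : (0:ℝ) ≤ s := Nat.cast_nonneg s
  have hT1 : ∀ k, 1 ≤ T k := fun k => by
    have := hTm (Nat.zero_le k)
    omega
  have hT2 : ∀ k, 2 ≤ T k := fun k => by
    have := hTm (Nat.zero_le k)
    omega
  have key : ∀ l : ℕ, l ≤ Δ → ∀ i', C.depth i' = l →
      Good (bitFrame a b h) (T (2 * l + 2)) (c ^ (l + 1) * ϑ) (Θ (C.g i')) := by
    intro l
    induction l using Nat.strong_induction_on with
    | _ l ih =>
      intro hl i' hi'
      have hXl : ϑ ≤ ((nv : ℝ) + s + 1) * (c ^ l * ϑ) := by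
        have h1 : (1:ℝ) ≤ ((nv : ℝ) + s + 1) * (c ^ l) :=
          one_le_mul_of_one_le_of_one_le (by linarith) (one_le_pow₀ hc1)
        nlinarith
      obtain ⟨z, hz0, hz1, hzs, hzT⟩ := hscale (2 * l) (by omega)
      obtain ⟨z', hz0', hz1', hzs', hzT'⟩ := hscale (2 * l + 1) (by omega)
      have h2 := gate_good (C.isGate i') Θ hc (T := T (2 * l)) (T' := T (2 * l + 1))
        (T'' := T (2 * l + 2)) (z := z) (z' := z') (X := ((nv : ℝ) + s + 1) * (c ^ l * ϑ))
        (ϑ := ϑ) (hTm (Nat.le_succ _)) (hTm (Nat.le_succ _)) (triv_bitFrame a b h) hz0 hz1 hz0'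
        hz1' hϑ0.le hXl (scale_of_num hzs) (scale_of_num hzs') hzT hzT' (fun g hg => by
          have h3 := lin_good (Φ := bitFrame a b h) (T := T (2 * l)) (X := c ^ l * ϑ)
            (hT1 _) (by positivity) (s := s) (g := C.g)
            (p := fun i'' => C.depth i'' < C.depth i') (Θ := Θ) (fun j => by
              refine (hvar j).mono (hT2 _) ?_
              exact le_mul_of_one_le_left hϑ0.le (one_le_pow₀ hc1)) (fun i'' hi'' => by
              rw [hi'] at hi''
              refine (ih (C.depth i'') hi'' (hi''.le.trans hl) i'' rfl).mono (hTm (by omega)) ?_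
              refine mul_le_mul_of_nonneg_right ?_ hϑ0.le
              exact pow_le_pow_right₀ hc1 (by omega)) hg
          refine h3.mono le_rfl ?_
          exact mul_le_mul_of_nonneg_right (by linarith) (by positivity))
      have h5 : ((s : ℝ) + 1) * 2 ^ (2 * Fintype.card (Fin b ⊕ Fin a) ^ 2) *
          ((m : ℝ) + 1) ^ Fintype.card (Fin b ⊕ Fin a) *
          (((nv : ℝ) + s + 1) * (c ^ l * ϑ)) = c ^ (l + 1) * ϑ := by
        rw [hcard, pow_succ, hcdef, cost]
        ring
      rw [h5] at h2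
      exact h2
  have h1 : {f | ∃ i', True ∧ f = C.g i'} = Set.range C.g := by
    ext x
    constructor
    · rintro ⟨i, _, hi⟩
      exact ⟨i, hi.symm⟩
    · rintro ⟨i, hi⟩
      exact ⟨i, trivial, hi.symm⟩
  have h2 := lin_good (Φ := bitFrame a b h) (T := T (2 * Δ + 2)) (X := c ^ (Δ + 1) * ϑ)
    (hT1 _) (by positivity) (s := s) (g := C.g) (p := fun _ => True) (Θ := Θ) (f := f)
    (fun j => by
      refine (hvar j).mono (hT2 _) ?_
      exact le_mul_of_one_le_left hϑ0.le (one_le_pow₀ hc1)) (fun i' _ => by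
      refine (key (C.depth i') (C.depth_le i') i' rfl).mono (hTm ?_) ?_
      · have := C.depth_le i'
        omega
      · refine mul_le_mul_of_nonneg_right ?_ hϑ0.le
        exact pow_le_pow_right₀ hc1 (Nat.succ_le_succ (C.depth_le i')))
    (by rw [h1]; exact hf)
  refine h2.mono le_rfl ?_
  exact mul_le_mul_of_nonneg_right (by linarith) (by positivity)

theorem thet_good {n : ℕ} {e : Fin (a + b) ≃ Fin b ⊕ Fin a} {ν : Vtx h e → Fin n}
    {l₀ : Fin b ⊕ Fin a} (hν : Function.Injective ν) {K : Type*} [Field K]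
    (z : Fin n × Fin n → K) {X : ℝ} (hX : 0 ≤ X) (x : Fin n × Fin n) :
    Good (bitFrame a b h) 2 X (thet e ν l₀ z x) := by
  classical
  intro B
  rw [thet, SF.add_def, SF.cst_apply, SF.sgl_apply]
  constructor
  · refine Frame.Loc.add ?_ ?_
    · by_cases hB : B = ∅
      · rw [if_pos hB]; exact Frame.Loc.algebraMap _ _
      · rw [if_neg hB]; exact Frame.Loc.zero _
    · by_cases hB : B = {lb e ν l₀ x.1}
      · rw [if_pos hB, hB]
        intro u v u' v' hs
        have hs' := hs _ (Finset.mem_singleton_self _)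
        have hsym : (bitFrame a b h).same (lb e ν l₀ x.1) u' v' u v := by
          revert hs'
          rcases lb e ν l₀ x.1 with i | j
          · intro hs' e' he'
            exact (hs' e' he').symm
          · intro hs' e' he'
            exact (hs' e' he').symm
        show (if Edge e ν x.1 x.2 u v then (1:K) else 0) =
          (if Edge e ν x.1 x.2 u' v' then (1:K) else 0)
        by_cases hE : Edge e ν x.1 x.2 u v
        · rw [if_pos hE, if_pos (edge_same hν l₀ hs' hE)]
        · rw [if_neg hE, if_neg (fun hE' => hE (edge_same hν l₀ hsym hE'))]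
      · rw [if_neg hB]; exact Frame.Loc.zero _
  · intro hB
    have h1 : B ≠ ∅ := by
      rintro rfl
      rw [Finset.card_empty] at hB
      omega
    have h2 : B ≠ {lb e ν l₀ x.1} := by
      rintro rfl
      rw [Finset.card_singleton] at hB
      omega
    rw [if_neg h1, if_neg h2, add_zero]
    exact HasRkR.zero.mono (mul_nonneg hX ((bitFrame a b h).wt_pos B).le)

/-- **The rank inequality.** -/
theorem mul_rank {F K : Type*} [Field F] [CharZero F] [Field K] [IsAlgClosed K]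
    {n s Δ m L : ℕ} {T : ℕ → ℕ} (j : LaurentSeries (LaurentSeries (RF n F)) →+* K)
    (ha : 0 < a) (hd : 2 ≤ a + b) (hT0 : T 0 = 2) (hTm : Monotone T)
    (hTK : T (2 * Δ + 3) ≤ a + b)
    (hscale : ∀ k, k < 2 * Δ + 3 → ∃ z : ℝ, 0 ≤ z ∧ z ≤ 1 ∧ NumScale a b h (T k) z ∧
      z ^ (T (k + 1)) ≤ ((2:ℝ) ^ (a * h * L))⁻¹)
    {e : Fin (a + b) ≃ Fin b ⊕ Fin a} {ν : Vtx h e → Fin n} (hν : Function.Injective ν)
    (χ : Equiv.Perm (Fin n) → F) (hχ1 : χ 1 ≠ 0) (hχ : ∀ u, χ (sig e ν hν u) ≠ 0)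
    (C : Circuit (Fin n × Fin n) (LaurentSeries F) s Δ m)
    (f₃ h₃ : MvPolynomial (Fin n × Fin n) (PowerSeries F))
    {R₀ : AF (Fin n × Fin n) (LaurentSeries F)} (hC : C.Computes R₀)
    (hR : R₀ * algebraMap (MvPolynomial (Fin n × Fin n) (LaurentSeries F)) _
        (MvPolynomial.map (HahnSeries.ofPowerSeries ℤ F) h₃) =
      algebraMap (MvPolynomial (Fin n × Fin n) (LaurentSeries F)) _
        (MvPolynomial.map (HahnSeries.ofPowerSeries ℤ F) f₃))
    (hf : MvPolynomial.map PowerSeries.constantCoeff f₃ ≠ 0)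
    (hh : MvPolynomial.map PowerSeries.constantCoeff h₃ ≠ 0)
    (hord : ordr χ (ν (star hd)) (MvPolynomial.map PowerSeries.constantCoeff h₃) <
      ordr χ (ν (star hd)) (MvPolynomial.map PowerSeries.constantCoeff f₃)) :
    (2:ℝ) ^ (a * h * L) ≤ ((a:ℝ) + b) * 2 ^ ((a + b) ^ 2) * ((((n * n : ℕ):ℝ) + s + 1) *
      cost (n * n) s m (a + b) ^ (Δ + 1)) := by
  classical
  have hcard : Fintype.card (Fin b ⊕ Fin a) = a + b := by
    rw [Fintype.card_sum, Fintype.card_fin, Fintype.card_fin, add_comm]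
  have hnv : Fintype.card (Fin n × Fin n) = n * n := by
    rw [Fintype.card_prod, Fintype.card_fin]
  set f := MvPolynomial.map PowerSeries.constantCoeff f₃ with hfdef
  set h₀ := MvPolynomial.map PowerSeries.constantCoeff h₃ with hhdef
  let i₀ : Fin b ⊕ Fin a := Sum.inr ⟨0, ha⟩
  set st := ν (star hd) with hst
  have hPP : PP χ st ≠ 0 := by
    intro h0
    apply hχ1
    have h1 := eval_PP (A := F) χ st (RingHom.id F)
    rw [h0, MvPolynomial.eval₂_zero] at h1
    exact h1.symm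
  have hchR : CharZero (RF n F) :=
    charZero_of_injective_algebraMap (algebraMap F (RF n F)).injective
  have hchL : CharZero (LaurentSeries F) :=
    charZero_of_injective_algebraMap (algebraMap F (LaurentSeries F)).injective
  obtain ⟨ψ, ψ', hψ', hψd, hψ0, hψψ'⟩ :=
    exists_psi (e := e) (ν := ν) (l₀ := i₀) χ st hPP
  obtain ⟨Wf, hWf, hfacf⟩ := exists_factor (l₀ := i₀) hν hd χ hPP hψ' hψd hf
  obtain ⟨Wh, hWh, hfach⟩ := exists_factor (l₀ := i₀) hν hd χ hPP hψ' hψd hh
  -- the fields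
  let γK : LaurentSeries F →+* K := j.comp (hmap (kk n F))
  let zK : Fin n × Fin n → K := fun x => j (HahnSeries.C (zz F χ st x))
  have hne : ∀ p : MvPolynomial (Fin n × Fin n) (LaurentSeries F), p ≠ 0 → p.eval₂ γK zK ≠ 0 := by
    intro p hp h0
    have h1 := eval_ne_zero (kk n F) (zz F χ st) (eval_zz_ne_zero χ st) p hp
    apply h1
    apply j.injective
    rw [map_zero, ← h0]
    exact (MvPolynomial.eval₂_comp_left j (hmap (kk n F))
      (fun x => (HahnSeries.C (zz F χ st x) : LaurentSeries (LaurentSeries (RF n F)))) p)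
  obtain ⟨Φ, hΦ1, hΦ2⟩ := exists_expansion (thR e ν i₀ γK zK)
    (fun p => ⟨_, thR_empty γK zK p⟩) (fun p hp h0 => by
      rw [thR_empty] at h0
      exact hne p hp (congrFun (congrFun h0 (fun _ => true)) (fun _ => true)))
  let _ : Algebra (LaurentSeries F) K := γK.toAlgebra
  let Θ : AF (Fin n × Fin n) (LaurentSeries F) →ₐ[LaurentSeries F]
      SF (Fin b ⊕ Fin a) ((Ed a b h → Bool) → (Ed a b h → Bool) → K) :=
    { Φ with
      commutes' := fun c => by
        show Φ (algebraMap _ _ c) = _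
        rw [IsScalarTower.algebraMap_apply (LaurentSeries F)
          (MvPolynomial (Fin n × Fin n) (LaurentSeries F)), hΦ1, MvPolynomial.algebraMap_eq, thR_C]
        rfl }
  have hΘ : ∀ p : MvPolynomial (Fin n × Fin n) (LaurentSeries F),
      Θ (algebraMap _ _ p) = thR e ν i₀ γK zK p := hΦ1
  set ϑ : ℝ := ((2:ℝ) ^ (a * h * L))⁻¹ with hϑ
  have hϑ0 : 0 < ϑ := by positivity
  have hout := circuit_good hT0 hTm hϑ0 (fun k hk => hscale k (by omega)) Θ hΦ2
    (fun x => by rw [hΘ, thR_X]; exact thet_good hν zK hϑ0.le x) C hC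
  rw [hnv] at hout
  set P := Θ R₀ with hP
  have hPR : P * thR e ν i₀ γK zK (MvPolynomial.map (HahnSeries.ofPowerSeries ℤ F) h₃) =
      thR e ν i₀ γK zK (MvPolynomial.map (HahnSeries.ofPowerSeries ℤ F) f₃) := by
    have h1 := congrArg Θ hR
    rw [map_mul, hΘ, hΘ] at h1
    exact h1
  set c := cost (n * n) s m (a + b) with hc
  have hc1 : 1 ≤ c := one_le_cost (n * n) s m (a + b)
  set X : ℝ := (((n * n : ℕ) : ℝ) + s + 1) * (c ^ (Δ + 1) * ϑ) with hX
  have hX0 : 0 ≤ X := by positivity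
  have hϑX : ϑ ≤ X := by
    have h1 : (1:ℝ) ≤ (((n * n : ℕ) : ℝ) + s + 1) * c ^ (Δ + 1) := by
      refine one_le_mul_of_one_le_of_one_le ?_ (one_le_pow₀ hc1)
      have h2 : (0:ℝ) ≤ ((n * n : ℕ) : ℝ) := Nat.cast_nonneg _
      have h3 : (0:ℝ) ≤ s := Nat.cast_nonneg s
      linarith
    have h2 : X = ((((n * n : ℕ) : ℝ) + s + 1) * c ^ (Δ + 1)) * ϑ := by rw [hX]; ring
    rw [h2]
    exact le_mul_of_one_le_left hϑ0.le h1
  -- over the power series
  let O : PowerSeries (LaurentSeries (RF n F)) →+* LaurentSeries (LaurentSeries (RF n F)) :=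
    HahnSeries.ofPowerSeries ℤ (LaurentSeries (RF n F))
  let γO : PowerSeries F →+* PowerSeries (LaurentSeries (RF n F)) := PowerSeries.map (kk n F)
  let zO : Fin n × Fin n → PowerSeries (LaurentSeries (RF n F)) :=
    fun x => PowerSeries.C (zz F χ st x)
  have hpre : ∀ q : MvPolynomial (Fin n × Fin n) (PowerSeries F),
      SF.mapR (SF.push (j.comp O)) (thR e ν i₀ γO zO q) =
        thR e ν i₀ γK zK (MvPolynomial.map (HahnSeries.ofPowerSeries ℤ F) q) := by
    intro q
    rw [thR_map, thR_pre]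
    congr 1
    congr 1
    · refine RingHom.ext fun p => ?_
      show j (O (PowerSeries.map (kk n F) p)) = j (hmap (kk n F) (HahnSeries.ofPowerSeries ℤ F p))
      rw [hmap_ofPS]
    · funext x
      show j (HahnSeries.ofPowerSeries ℤ _ (PowerSeries.C (zz F χ st x))) = _
      rw [ofPS_C]
  have hcc : ∀ q : MvPolynomial (Fin n × Fin n) (PowerSeries F),
      SF.mapR (SF.push (PowerSeries.constantCoeff (R := LaurentSeries (RF n F))))
        (thR e ν i₀ γO zO q) =
      thR e ν i₀ (kk n F) (zz F χ st) (MvPolynomial.map PowerSeries.constantCoeff q) := by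
    intro q
    rw [thR_map, thR_pre]
    congr 1
  have hunitO : ∀ q : MvPolynomial (Fin n × Fin n) (PowerSeries F),
      MvPolynomial.map PowerSeries.constantCoeff q ≠ 0 → IsUnit (thR e ν i₀ γO zO q) := by
    intro q hq
    apply SF.isUnit_of_apply_empty
    rw [thR_empty]
    refine IsUnit.map (algebraMap _ _) ?_
    rw [PowerSeries.isUnit_iff_constantCoeff, isUnit_iff_ne_zero]
    have h1 : PowerSeries.constantCoeff (q.eval₂ γO zO) =
        (MvPolynomial.map PowerSeries.constantCoeff q).eval₂ (kk n F) (zz F χ st) := by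
      have h2 := congrFun (congrFun (congrArg (fun x : SF (Fin b ⊕ Fin a) (FF a b h _) => x ∅)
        (hcc q)) (fun _ => true)) (fun _ => true)
      rw [thR_empty] at h2
      have h3 : (SF.mapR (SF.push (PowerSeries.constantCoeff (R := LaurentSeries (RF n F))))
          (thR e ν i₀ γO zO q)) ∅ (fun _ => true) (fun _ => true) =
          PowerSeries.constantCoeff ((thR e ν i₀ γO zO q) ∅ (fun _ => true) (fun _ => true)) := rfl
      have h4 : (thR e ν i₀ γO zO q) ∅ (fun _ => true) (fun _ => true) = q.eval₂ γO zO := by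
        rw [thR_empty]; rfl
      rw [← h4, ← h3]
      exact h2
    rw [h1]
    exact eval_zz_ne_zero χ st _ hq
  obtain ⟨wh, hwh⟩ := (hunitO h₃ hh).exists_right_inv
  set PO := thR e ν i₀ γO zO f₃ * wh with hPO
  have hwhu : IsUnit wh := IsUnit.of_mul_eq_one _ (by rw [mul_comm]; exact hwh)
  have hPOu : IsUnit PO := (hunitO f₃ hf).mul hwhu
  have hPO1 : SF.mapR (SF.push (j.comp O)) PO = P := by
    have h1 : SF.mapR (SF.push (j.comp O)) (thR e ν i₀ γO zO h₃) *
        SF.mapR (SF.push (j.comp O)) wh = 1 := by rw [← map_mul, hwh, map_one]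
    rw [hpre] at h1
    calc SF.mapR (SF.push (j.comp O)) PO
        = (P * thR e ν i₀ γK zK (MvPolynomial.map (HahnSeries.ofPowerSeries ℤ F) h₃)) *
          SF.mapR (SF.push (j.comp O)) wh := by rw [hPO, map_mul, hpre, hPR]
      _ = P * (thR e ν i₀ γK zK (MvPolynomial.map (HahnSeries.ofPowerSeries ℤ F) h₃) *
          SF.mapR (SF.push (j.comp O)) wh) := by ring
      _ = P := by rw [h1, mul_one]
  set Pτ := SF.mapR (SF.push (PowerSeries.constantCoeff (R := LaurentSeries (RF n F)))) PO with hPτ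
  have hPτ1 : Pτ * thR e ν i₀ (kk n F) (zz F χ st) h₀ =
      thR e ν i₀ (kk n F) (zz F χ st) f := by
    have h1 : SF.mapR (SF.push (PowerSeries.constantCoeff (R := LaurentSeries (RF n F))))
        (thR e ν i₀ γO zO h₃) * SF.mapR (SF.push
          (PowerSeries.constantCoeff (R := LaurentSeries (RF n F)))) wh = 1 := by
      rw [← map_mul, hwh, map_one]
    rw [hcc] at h1
    rw [hPτ, hPO, map_mul, hcc, mul_assoc, mul_comm (SF.mapR _ wh), h1, mul_one]
  -- the factorisation of the quotient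
  obtain ⟨w', hw'⟩ := hWh.exists_right_inv
  set ta : SF (Fin b ⊕ Fin a) (FF a b h (LaurentSeries (RF n F))) :=
    SF.cst (fun _ _ => tau (RF n F)) - SF.mapR (SF.push HahnSeries.C) ψ with hta
  have htau : IsUnit ta := by
    apply SF.isUnit_of_apply_empty
    have h1 : ta ∅ = algebraMap _ (FF a b h (LaurentSeries (RF n F))) (tau (RF n F)) := by
      rw [hta, SF.sub_def, SF.cst_apply, if_pos rfl]
      have h2 : (SF.mapR (SF.push (HahnSeries.C (Γ := ℤ))) ψ) ∅ =
          (0 : FF a b h (LaurentSeries (RF n F))) := by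
        funext u v
        show HahnSeries.C (ψ ∅ u v) = 0
        rw [hψ0]
        exact map_zero HahnSeries.C
      rw [h2, sub_zero]
      rfl
    rw [h1]
    exact (isUnit_iff_ne_zero.2 (by
      rw [← ofPS_X]
      intro h0
      exact PowerSeries.X_ne_zero (HahnSeries.ofPowerSeries_injective
        (h0.trans (map_zero (HahnSeries.ofPowerSeries ℤ (RF n F))).symm)))).map _
  set rf := ordr χ st f with hrf
  set rh := ordr χ st h₀ with hrh
  have hfac : Pτ = ta ^ (rf - rh) * SF.mapR (SF.push (HahnSeries.ofPowerSeries ℤ (RF n F)))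
      (Wf * w') := by
    have h1 : SF.mapR (SF.push (HahnSeries.ofPowerSeries ℤ (RF n F))) Wh *
        SF.mapR (SF.push (HahnSeries.ofPowerSeries ℤ (RF n F))) w' = 1 := by
      rw [← map_mul, hw', map_one]
    have h2 : ta ^ rh * Pτ = ta ^ rh * (ta ^ (rf - rh) *
        SF.mapR (SF.push (HahnSeries.ofPowerSeries ℤ (RF n F))) (Wf * w')) := by
      have h3 : ta ^ rf = ta ^ rh * ta ^ (rf - rh) := by
        rw [← pow_add]; congr 1; omega
      calc ta ^ rh * Pτ = Pτ * (ta ^ rh * SF.mapR (SF.push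
            (HahnSeries.ofPowerSeries ℤ (RF n F))) Wh) *
            SF.mapR (SF.push (HahnSeries.ofPowerSeries ℤ (RF n F))) w' := by
            rw [mul_assoc Pτ, mul_assoc (ta ^ rh), h1, mul_one, mul_comm]
        _ = ta ^ rf * SF.mapR (SF.push (HahnSeries.ofPowerSeries ℤ (RF n F))) Wf *
            SF.mapR (SF.push (HahnSeries.ofPowerSeries ℤ (RF n F))) w' := by
            rw [← hfach, hPτ1, hfacf]
        _ = _ := by rw [map_mul, h3]; ring
    exact (htau.pow rh).mul_left_cancel h2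
  have hWu : ∀ u v, IsUnit ((Wf * w') ∅ u v) := by
    intro u v
    have hw'u : IsUnit w' := IsUnit.of_mul_eq_one _ (by rw [mul_comm]; exact hw')
    have h1 := (hWf.mul hw'u).map
      (SF.ev0 (ι := Fin b ⊕ Fin a) (R := FF a b h (PowerSeries (RF n F))))
    have h2 := h1.map (Pi.evalRingHom (fun _ : Ed a b h → Bool =>
      (Ed a b h → Bool) → PowerSeries (RF n F)) u)
    exact h2.map (Pi.evalRingHom (fun _ : Ed a b h → Bool => PowerSeries (RF n F)) v)
  have hr : rf - rh ≠ 0 := by omega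
  have hPO0 : IsUnit (PO ∅) :=
    hPOu.map (SF.ev0 (ι := Fin b ⊕ Fin a)
      (R := FF a b h (PowerSeries (LaurentSeries (RF n F)))))
  have hsgO : IsUnit (SF.sg i₀ PO) := by
    apply SF.isUnit_of_apply_empty
    rw [SF.sg_apply_of_notMem (Finset.notMem_empty i₀)]
    exact hPO0
  obtain ⟨w, hw⟩ := hsgO.exists_right_inv
  set LO := SF.dd i₀ PO * w with hLO
  have hLO1 : SF.dd i₀ PO = LO * SF.sg i₀ PO := by
    rw [hLO, mul_assoc, mul_comm w, hw, mul_one]
  -- the logarithmic derivative over `K`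
  set LK := SF.mapR (SF.push (j.comp O)) LO with hLK
  have hLD : LD i₀ P LK := by
    rw [LD, ← hPO1, ← SF.mapR_dd, ← SF.mapR_sg, hLO1, map_mul]
  obtain ⟨cP, hP0'⟩ : ∃ cP : K, P ∅ = algebraMap K (FF a b h K) cP := hΦ2 R₀
  have hP0 : cP ≠ 0 := by
    intro h0
    have h1 : IsUnit (P ∅) := by
      rw [← hPO1]
      exact (hPOu.map (SF.mapR (ι := Fin b ⊕ Fin a) (SF.push (j.comp O)))).map
        (SF.ev0 (ι := Fin b ⊕ Fin a) (R := FF a b h K))
    rw [hP0', h0, map_zero] at h1
    exact not_isUnit_zero h1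
  obtain ⟨z, hz0, hz1, hzs, hzT⟩ := hscale (2 * Δ + 2) (by omega)
  set B : Finset (Fin b ⊕ Fin a) := Finset.univ.erase i₀ with hB
  have hBi : i₀ ∉ B := Finset.notMem_erase _ _
  have hBins : insert i₀ B = Finset.univ := Finset.insert_erase (Finset.mem_univ _)
  have hBc : B.card = a + b - 1 := by
    rw [hB, Finset.card_erase_of_mem (Finset.mem_univ _), Finset.card_univ, hcard]
  have hbd := LD.bd (triv_bitFrame a b h) hz0 hz1 hX0 (scale_of_num hzs) hout hP0 hP0' hLD
    B.card B rfl hBi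
  rw [hBins] at hbd
  have hmax : max (z ^ (Finset.univ : Finset (Fin b ⊕ Fin a)).card) X = X := by
    refine max_eq_right ?_
    rw [Finset.card_univ, hcard]
    exact ((pow_le_pow_of_le_one hz0 hz1 hTK).trans hzT).trans hϑX
  have hwt : (bitFrame a b h).wt Finset.univ = 2 ^ (b * (a * h)) := by
    rw [wt_bitFrame]
    have h4 : lef (Finset.univ : Finset (Fin b ⊕ Fin a)) = b := by
      rw [lef, Finset.preimage_univ, Finset.card_univ, Fintype.card_fin]
    have h5 : rig (Finset.univ : Finset (Fin b ⊕ Fin a)) = a := by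
      rw [rig, Finset.preimage_univ, Finset.card_univ, Fintype.card_fin]
    rw [h4, h5]
    have h6 : a * h * b + b * h * a = 2 * (b * (a * h)) := by ring
    rw [h6, pow_mul, Real.sq_sqrt (by norm_num)]
  have hrkL : HasRkR (LK B) (2 ^ ((a + b) ^ 2) * X * 2 ^ (b * (a * h))) := by
    refine hbd.2.mono ?_
    rw [hmax, hwt, hBc]
    have h1 : (2:ℝ) ^ ((a + b - 1) ^ 2) ≤ 2 ^ ((a + b) ^ 2) :=
      pow_le_pow_right₀ (by norm_num) (Nat.pow_le_pow_left (Nat.sub_le _ _) 2)
    gcongr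
  -- descent
  set Lτ := SF.mapR (SF.push (PowerSeries.constantCoeff (R := LaurentSeries (RF n F)))) LO with hLτ
  have hrkτ : HasRkR (Lτ B) (2 ^ ((a + b) ^ 2) * X * 2 ^ (b * (a * h))) := by
    obtain ⟨ρ, h1, h2⟩ := hrkL
    have h3 : HasRk (fun u v => O (LO B u v)) ρ :=
      HasRk_descend j ρ (fun u v => O (LO B u v)) (h1.congr fun u v => rfl)
    have h4 := coeff_rk (K := LaurentSeries (LaurentSeries (RF n F))) (N := LO B) (r := ρ) O
      HahnSeries.ofPowerSeries_injective h3 0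
    rw [zero_add, one_mul] at h4
    refine ⟨ρ, h4.congr fun u v => ?_, h2⟩
    show PowerSeries.constantCoeff (LO B u v) = _
    rw [PowerSeries.coeff_zero_eq_constantCoeff_apply]
  have hLτ1 : SF.dd i₀ Pτ = Lτ * SF.sg i₀ Pτ := by
    rw [hPτ, ← SF.mapR_dd, ← SF.mapR_sg, hLO1, map_mul]
  have hroot := root_rk ψ hψ0 i₀ (Wf * w') hWu (rf - rh) hr Pτ Lτ hLτ1 hfac B hBi hrkτ
  rw [hBins] at hroot
  obtain ⟨ρ, hρ, hρ'⟩ := hroot
  have hne' : (Finset.univ : Finset (Fin b ⊕ Fin a)) ≠ ∅ :=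
    Finset.ne_empty_of_mem (Finset.mem_univ i₀)
  rw [hψψ' _ hne'] at hρ
  have hle := full_rank hν hd χ hχ1 hχ ψ' hψ' hρ
  have hcE : Fintype.card (Ed a b h) = b * (a * h) := by
    rw [Fintype.card_prod, Fintype.card_prod, Fintype.card_fin, Fintype.card_fin, Fintype.card_fin]
  rw [hcE] at hle
  have hleR : (2:ℝ) ^ (b * (a * h)) ≤ ((a:ℝ) + b) *
      (2 ^ ((a + b) ^ 2) * X * 2 ^ (b * (a * h))) := by
    have h1 : ((2 ^ (b * (a * h)) : ℕ) : ℝ) ≤ ρ := by exact_mod_cast hle
    rw [Nat.cast_pow, Nat.cast_ofNat] at h1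
    refine (h1.trans hρ').trans (le_of_eq ?_)
    congr 1
    have h2 : B.card + 1 = a + b := by rw [hBc]; omega
    have h3 : ((B.card + 1 : ℕ) : ℝ) = ((a + b : ℕ) : ℝ) := by rw [h2]
    push_cast at h3
    exact h3
  have hpos2 : (0:ℝ) < 2 ^ (b * (a * h)) := by positivity
  have h5 : (1:ℝ) ≤ ((a:ℝ) + b) * (2 ^ ((a + b) ^ 2) * X) := by
    by_contra hcon
    rw [not_le] at hcon
    have h6 : ((a:ℝ) + b) * (2 ^ ((a + b) ^ 2) * X * 2 ^ (b * (a * h))) =
        (((a:ℝ) + b) * (2 ^ ((a + b) ^ 2) * X)) * 2 ^ (b * (a * h)) := by ring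
    rw [h6] at hleR
    nlinarith
  have h7 : (0:ℝ) < 2 ^ (a * h * L) := by positivity
  have h8 : ((a:ℝ) + b) * (2 ^ ((a + b) ^ 2) * X) = (((a:ℝ) + b) * 2 ^ ((a + b) ^ 2) *
      ((((n * n : ℕ):ℝ) + s + 1) * c ^ (Δ + 1))) / 2 ^ (a * h * L) := by
    rw [hX, hϑ]
    field_simp
  rw [h8, le_div_iff₀ h7, one_mul] at h5
  exact h5

end Pool.Agent.Y531.Mul
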