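import Pool.Agent.Y531.Mul.Fields

/-!
# Multiples near a generic zero
-/

set_option autoImplicit false
set_option linter.unusedSectionVars false
set_option maxHeartbeats 1000000
set_option synthInstance.maxHeartbeats 200000

namespace Pool.Agent.Y531.Mul

open Finset Pool.Agent.W942 Pool.Agent.Y531

variable {a b h n : ℕ}

section clear
variable {F : Type*} [Field F] (χ : Equiv.Perm (Fin n) → F) (s : Fin n)

/-- The entry `(s, s)` as a further variable. -/
noncomputable def bet (F : Type*) [Field F] (s : Fin n) :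
    MvPolynomial (Fin n × Fin n) F →+* Polynomial (MvPolynomial (Fin n × Fin n) F) :=
  MvPolynomial.eval₂Hom (Polynomial.C.comp MvPolynomial.C)
    (fun x => if x = (s, s) then Polynomial.X else Polynomial.C (MvPolynomial.X x))

theorem bet_C (c : F) : bet F s (MvPolynomial.C c) = Polynomial.C (MvPolynomial.C c) := by
  rw [bet, MvPolynomial.eval₂Hom_C]; rfl

theorem bet_self : bet F s (MvPolynomial.X (s, s)) = Polynomial.X := by
  rw [bet, MvPolynomial.eval₂Hom_X', if_pos rfl]

theorem bet_X {x : Fin n × Fin n} (hx : x ≠ (s, s)) :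
    bet F s (MvPolynomial.X x) = Polynomial.C (MvPolynomial.X x) := by
  rw [bet, MvPolynomial.eval₂Hom_X', if_neg hx]

theorem bet_injective : Function.Injective (bet F s) := by
  have h1 : (Polynomial.evalRingHom (MvPolynomial.X (s, s) : MvPolynomial (Fin n × Fin n) F)).comp
      (bet F s) = RingHom.id _ := by
    refine MvPolynomial.ringHom_ext (fun r => ?_) (fun x => ?_)
    · rw [RingHom.comp_apply, bet_C, Polynomial.coe_evalRingHom, Polynomial.eval_C]; rfl
    · rw [RingHom.comp_apply, Polynomial.coe_evalRingHom]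
      by_cases hx : x = (s, s)
      · rw [hx, bet_self, Polynomial.eval_X]; rfl
      · rw [bet_X s hx, Polynomial.eval_C]; rfl
  intro f g hfg
  have h2 := congrArg (Polynomial.evalRingHom (MvPolynomial.X (s, s))) hfg
  have h3 : ∀ f, Polynomial.evalRingHom (MvPolynomial.X (s, s)) (bet F s f) = f := fun f =>
    congrFun (congrArg DFunLike.coe h1) f
  rwa [h3, h3] at h2

theorem bet_FX : bet F s (FX χ) = Polynomial.C (PP χ s) * Polynomial.X +
    Polynomial.C (RR χ s) := by
  have h1 := PP_congr χ s (bet F s) Polynomial.C (bet_C s) (fun x hx => bet_X s hx)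
  rw [FX_eq χ s, map_add, map_mul, bet_self, h1.1, h1.2, mul_comm]

/-- The zero of the matrix function in the entry `(s, s)`. -/
noncomputable def rt : RF n F := -(algebraMap (MvPolynomial (Fin n × Fin n) F) (RF n F) (RR χ s)) /
  algebraMap (MvPolynomial (Fin n × Fin n) F) (RF n F) (PP χ s)

theorem algRF_inj : Function.Injective (algebraMap (MvPolynomial (Fin n × Fin n) F) (RF n F)) :=
  IsFractionRing.injective _ _

/-- The order of vanishing at the zero of the matrix function. -/
noncomputable def ordr (f : MvPolynomial (Fin n × Fin n) F) : ℕ :=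
  ((bet F s f).map (algebraMap (MvPolynomial (Fin n × Fin n) F) (RF n F))).rootMultiplicity
    (rt χ s)

theorem bet_map_ne_zero {f : MvPolynomial (Fin n × Fin n) F} (hf : f ≠ 0) :
    (bet F s f).map (algebraMap (MvPolynomial (Fin n × Fin n) F) (RF n F)) ≠ 0 := by
  intro h0
  apply hf
  apply bet_injective s
  apply Polynomial.map_injective _ (algRF_inj (n := n) (F := F))
  rw [map_zero, Polynomial.map_zero]
  exact h0

/-- **The order, up to denominators.** -/
theorem exists_clear (hP : PP χ s ≠ 0) {f : MvPolynomial (Fin n × Fin n) F} (hf : f ≠ 0) :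
    ∃ (c : MvPolynomial (Fin n × Fin n) F)
      (Q : Polynomial (MvPolynomial (Fin n × Fin n) F)), c ≠ 0 ∧
      Polynomial.C c * bet F s f =
        (Polynomial.C (PP χ s) * Polynomial.X + Polynomial.C (RR χ s)) ^ (ordr χ s f) * Q ∧
      (Q.map (algebraMap (MvPolynomial (Fin n × Fin n) F) (RF n F))).eval (rt χ s) ≠ 0 := by
  classical
  set A := algebraMap (MvPolynomial (Fin n × Fin n) F) (RF n F) with hA
  have hAi : Function.Injective A := algRF_inj
  have hmapi : Function.Injective (Polynomial.map A) := Polynomial.map_injective A hAi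
  set p := (bet F s f).map A with hp
  have hp0 : p ≠ 0 := bet_map_ne_zero s hf
  have hAP : A (PP χ s) ≠ 0 := fun h0 => hP (hAi (by rw [h0, map_zero]))
  have hlin : Polynomial.C (A (PP χ s)) * Polynomial.X + Polynomial.C (A (RR χ s)) =
      Polynomial.C (A (PP χ s)) * (Polynomial.X - Polynomial.C (rt χ s)) := by
    have h1 : A (RR χ s) = -(A (PP χ s) * rt χ s) := by
      rw [rt, ← hA]
      field_simp
    rw [mul_sub, ← map_mul, h1, map_neg, sub_eq_add_neg]
  obtain ⟨q, hq, hqn⟩ := Polynomial.exists_eq_pow_rootMultiplicity_mul_and_not_dvd p hp0 (rt χ s)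
  set r := p.rootMultiplicity (rt χ s) with hr
  have hro : ordr χ s f = r := rfl
  have hqe : q.eval (rt χ s) ≠ 0 := fun h0 => hqn (Polynomial.dvd_iff_isRoot.2 h0)
  obtain ⟨β, hβ, hQ⟩ := IsLocalization.integerNormalization_spec
    (nonZeroDivisors (MvPolynomial (Fin n × Fin n) F)) q
  set Q := IsLocalization.integerNormalization
    (nonZeroDivisors (MvPolynomial (Fin n × Fin n) F)) q with hQdef
  have hβ0 : β ≠ 0 := nonZeroDivisors.ne_zero hβ
  have hsm : β • q = Polynomial.C (A β) * q := by
    rw [← IsScalarTower.algebraMap_smul (RF n F) β q, Polynomial.smul_eq_C_mul]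
  refine ⟨β * PP χ s ^ r, Q, mul_ne_zero hβ0 (pow_ne_zero _ hP), ?_, ?_⟩
  · apply hmapi
    rw [Polynomial.map_mul, Polynomial.map_mul, Polynomial.map_pow, Polynomial.map_add,
      Polynomial.map_mul, Polynomial.map_C, Polynomial.map_C, Polynomial.map_C, Polynomial.map_X,
      hlin, hro, ← hp, hq, hQ, hsm, map_mul, map_mul, map_pow, map_pow, mul_pow]
    ring
  · rw [hQ, hsm, Polynomial.eval_mul, Polynomial.eval_C]
    exact mul_ne_zero (fun h0 => hβ0 (hAi (by rw [h0, map_zero]))) hqe

end clear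

section sf
variable {e : Fin (a + b) ≃ Fin b ⊕ Fin a} {ν : Vtx h e → Fin n} {l₀ : Fin b ⊕ Fin a}
  {F : Type*} [Field F]

/-- The expansion of polynomials in a further variable. -/
noncomputable def thP (e : Fin (a + b) ≃ Fin b ⊕ Fin a) (ν : Vtx h e → Fin n)
    (l₀ : Fin b ⊕ Fin a) {A : Type*} [CommRing A] (γ : F →+* A) (z : Fin n × Fin n → A)
    (ζ : A) : Polynomial (MvPolynomial (Fin n × Fin n) F) →+* SF (Fin b ⊕ Fin a) (FF a b h A) :=
  Polynomial.eval₂RingHom (thR e ν l₀ γ z) (SF.cst (algebraMap A (FF a b h A) ζ))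

section
variable {A A' : Type*} [CommRing A] [CommRing A'] (γ : F →+* A) (z : Fin n × Fin n → A) (ζ : A)

theorem thP_C (p : MvPolynomial (Fin n × Fin n) F) :
    thP e ν l₀ γ z ζ (Polynomial.C p) = thR e ν l₀ γ z p := by
  rw [thP, Polynomial.coe_eval₂RingHom, Polynomial.eval₂_C]

theorem thP_X : thP e ν l₀ γ z ζ Polynomial.X = SF.cst (algebraMap A (FF a b h A) ζ) := by
  rw [thP, Polynomial.coe_eval₂RingHom, Polynomial.eval₂_X]

theorem thP_map (δ : A →+* A') (p : Polynomial (MvPolynomial (Fin n × Fin n) F)) :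
    SF.mapR (SF.push δ) (thP e ν l₀ γ z ζ p) =
      thP e ν l₀ (δ.comp γ) (fun x => δ (z x)) (δ ζ) p := by
  have h1 : (SF.mapR (ι := Fin b ⊕ Fin a) (SF.push (U := Ed a b h → Bool)
      (V := Ed a b h → Bool) δ)).comp (thP e ν l₀ γ z ζ) =
      thP e ν l₀ (δ.comp γ) (fun x => δ (z x)) (δ ζ) := by
    refine Polynomial.ringHom_ext (fun p => ?_) ?_
    · rw [RingHom.comp_apply, thP_C, thP_C, thR_map]
    · rw [RingHom.comp_apply, thP_X, thP_X, SF.mapR_cst]
      rfl
  exact congrFun (congrArg DFunLike.coe h1) p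

theorem thP_empty (p : Polynomial (MvPolynomial (Fin n × Fin n) F)) :
    thP e ν l₀ γ z ζ p ∅ =
      algebraMap A (FF a b h A) ((p.map (MvPolynomial.eval₂Hom γ z)).eval ζ) := by
  have h1 : (SF.ev0 (ι := Fin b ⊕ Fin a) (R := FF a b h A)).comp (thP e ν l₀ γ z ζ) =
      (algebraMap A (FF a b h A)).comp ((Polynomial.evalRingHom ζ).comp
        (Polynomial.mapRingHom (MvPolynomial.eval₂Hom γ z))) := by
    refine Polynomial.ringHom_ext (fun p => ?_) ?_
    · rw [RingHom.comp_apply, thP_C, SF.ev0_apply, thR_empty, RingHom.comp_apply,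
        RingHom.comp_apply, Polynomial.coe_mapRingHom, Polynomial.map_C,
        Polynomial.coe_evalRingHom, Polynomial.eval_C]
      rfl
    · rw [RingHom.comp_apply, thP_X, SF.ev0_apply, SF.cst_apply, if_pos rfl, RingHom.comp_apply,
        RingHom.comp_apply, Polynomial.coe_mapRingHom, Polynomial.map_X,
        Polynomial.coe_evalRingHom, Polynomial.eval_X]
  exact congrFun (congrArg DFunLike.coe h1) p

theorem thP_bet (hν : Function.Injective ν) (hd : 2 ≤ a + b) (s : Fin n)
    (f : MvPolynomial (Fin n × Fin n) F) : thP e ν l₀ γ z ζ (bet F s f) =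
      thR e ν l₀ γ (fun x => if x = (s, s) then ζ else z x) f := by
  classical
  have h1 : (thP e ν l₀ γ z ζ).comp (bet F s) =
      thR e ν l₀ γ (fun x => if x = (s, s) then ζ else z x) := by
    refine MvPolynomial.ringHom_ext (fun r => ?_) (fun x => ?_)
    · rw [RingHom.comp_apply, bet_C, thP_C, thR_C, thR_C]
    · rw [RingHom.comp_apply, thR_X]
      by_cases hx : x = (s, s)
      · have h2 : (fun u v : Ed a b h → Bool => if Edge e ν s s u v then (1 : A) else 0) = 0 := by
          funext u v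
          rw [if_neg (not_edge_self hν hd s u v)]
          rfl
        rw [hx, bet_self, thP_X, thet, if_pos rfl]
        show _ = SF.cst (algebraMap A (FF a b h A) ζ) + SF.sgl {lb e ν l₀ s} _
        rw [h2, sgl_zero, add_zero]
      · rw [bet_X s hx, thP_C, thR_X, thet, thet, if_neg hx]
  exact congrFun (congrArg DFunLike.coe h1) f

end

/-- The point near the generic zero. -/
noncomputable def zz (F : Type*) [Field F] (χ : Equiv.Perm (Fin n) → F) (s : Fin n)
    (x : Fin n × Fin n) : LaurentSeries (RF n F) :=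
  if x = (s, s) then HahnSeries.C (rt χ s) + tau (RF n F) else HahnSeries.C (zg n F x)

/-- The constants. -/
noncomputable def kk (n : ℕ) (F : Type*) [Field F] : F →+* LaurentSeries (RF n F) :=
  (HahnSeries.C : RF n F →+* LaurentSeries (RF n F)).comp (algebraMap F (RF n F))

theorem ofPS_C {R : Type*} [Field R] (c : R) :
    HahnSeries.ofPowerSeries ℤ R (PowerSeries.C c) = HahnSeries.C c := HahnSeries.ofPowerSeries_C c

theorem ofPS_X {R : Type*} [Field R] :
    HahnSeries.ofPowerSeries ℤ R PowerSeries.X = tau R := HahnSeries.ofPowerSeries_X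

theorem eval_zg (p : MvPolynomial (Fin n × Fin n) F) :
    p.eval₂ (algebraMap F (RF n F)) (zg n F) = algebraMap _ (RF n F) p := by
  have h1 : MvPolynomial.eval₂Hom (algebraMap F (RF n F)) (zg n F) =
      algebraMap (MvPolynomial (Fin n × Fin n) F) (RF n F) := by
    refine MvPolynomial.ringHom_ext (fun r => ?_) (fun x => ?_)
    · rw [MvPolynomial.eval₂Hom_C,
        IsScalarTower.algebraMap_apply F (MvPolynomial (Fin n × Fin n) F) (RF n F)]
      rfl
    · rw [MvPolynomial.eval₂Hom_X']; rfl
  exact congrFun (congrArg DFunLike.coe h1) p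

/-- The point is generic. -/
theorem eval_zz_ne_zero (χ : Equiv.Perm (Fin n) → F) (s : Fin n)
    (q : MvPolynomial (Fin n × Fin n) F) (hq : q ≠ 0) : q.eval₂ (kk n F) (zz F χ s) ≠ 0 := by
  set p := (bet F s q).map (algebraMap _ (RF n F)) with hp
  have hp0 : p ≠ 0 := by
    intro h0
    apply hq
    apply bet_injective s
    apply Polynomial.map_injective _ algRF_inj
    rw [map_zero, Polynomial.map_zero]
    exact h0
  have h1 := Hit.eval₂_ne_zero hp0 (rt χ s)
  have h2 : p.eval₂ (algebraMap (RF n F) (LaurentSeries (RF n F)))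
      (HahnSeries.C (rt χ s) + tau (RF n F)) = q.eval₂ (kk n F) (zz F χ s) := by
    let φ : MvPolynomial (Fin n × Fin n) F →+* LaurentSeries (RF n F) :=
      (Polynomial.eval₂RingHom (algebraMap (RF n F) (LaurentSeries (RF n F)))
        (HahnSeries.C (rt χ s) + tau (RF n F))).comp
        ((Polynomial.mapRingHom (algebraMap _ (RF n F))).comp (bet F s))
    have h3 : φ = MvPolynomial.eval₂Hom (kk n F) (zz F χ s) := by
      refine MvPolynomial.ringHom_ext (fun r => ?_) (fun x => ?_)
      · rw [MvPolynomial.eval₂Hom_C]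
        simp only [φ, RingHom.comp_apply, bet_C, Polynomial.coe_mapRingHom, Polynomial.map_C,
          Polynomial.coe_eval₂RingHom, Polynomial.eval₂_C]
        rw [Hit.algMap_eq, kk, RingHom.comp_apply,
          IsScalarTower.algebraMap_apply F (MvPolynomial (Fin n × Fin n) F) (RF n F)]
        rfl
      · rw [MvPolynomial.eval₂Hom_X']
        by_cases hx : x = (s, s)
        · simp only [φ, RingHom.comp_apply, hx, bet_self, Polynomial.coe_mapRingHom,
            Polynomial.map_X, Polynomial.coe_eval₂RingHom, Polynomial.eval₂_X]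
          rw [zz, if_pos rfl]
        · simp only [φ, RingHom.comp_apply, bet_X s hx, Polynomial.coe_mapRingHom, Polynomial.map_C,
            Polynomial.coe_eval₂RingHom, Polynomial.eval₂_C]
          rw [Hit.algMap_eq, zz, if_neg hx]
          rfl
    exact congrFun (congrArg DFunLike.coe h3) q
  rwa [h2] at h1

theorem isUnit_thR {p : MvPolynomial (Fin n × Fin n) F} (hp : p ≠ 0) :
    IsUnit (thR e ν l₀ (algebraMap F (RF n F)) (zg n F) p) := by
  apply SF.isUnit_of_apply_empty
  rw [thR_empty, eval_zg]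
  exact (isUnit_iff_ne_zero.2 fun h0 => hp (algRF_inj (by rw [h0, map_zero]))).map _

/-- The zero, expanded. -/
theorem exists_psi (χ : Equiv.Perm (Fin n) → F) (s : Fin n) (hP : PP χ s ≠ 0) :
    ∃ ψ ψ' : SF (Fin b ⊕ Fin a) (FF a b h (RF n F)),
      thR e ν l₀ (algebraMap F (RF n F)) (zg n F) (PP χ s) * ψ' =
        - thR e ν l₀ (algebraMap F (RF n F)) (zg n F) (RR χ s) ∧
      ψ = ψ' - SF.cst (algebraMap (RF n F) (FF a b h (RF n F)) (rt χ s)) ∧
      ψ ∅ = 0 ∧ ∀ S, S ≠ ∅ → ψ S = ψ' S := by
  set A := algebraMap (MvPolynomial (Fin n × Fin n) F) (RF n F) with hA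
  obtain ⟨w, hw⟩ := (isUnit_thR (e := e) (ν := ν) (l₀ := l₀) hP).exists_right_inv
  obtain ⟨ψ', hψ'1⟩ : ∃ ψ', thR e ν l₀ (algebraMap F (RF n F)) (zg n F) (PP χ s) * ψ' =
      - thR e ν l₀ (algebraMap F (RF n F)) (zg n F) (RR χ s) :=
    ⟨-(thR e ν l₀ (algebraMap F (RF n F)) (zg n F) (RR χ s) * w), by
      rw [mul_neg, mul_left_comm, hw, mul_one]⟩
  have hψ'0 : ψ' ∅ = algebraMap (RF n F) (FF a b h (RF n F)) (rt χ s) := by
    have h1 := congrArg (SF.ev0 (ι := Fin b ⊕ Fin a) (R := FF a b h (RF n F))) hψ'1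
    rw [map_mul, map_neg, SF.ev0_apply, SF.ev0_apply, SF.ev0_apply, thR_empty, thR_empty, eval_zg,
      eval_zg] at h1
    funext u v
    have h2 := congrFun (congrFun h1 u) v
    have h3 : A (PP χ s) * ψ' ∅ u v = - A (RR χ s) := h2
    show ψ' ∅ u v = rt χ s
    have h4 : A (PP χ s) ≠ 0 := fun h0 => hP (algRF_inj (by rw [h0, map_zero]))
    rw [rt, eq_div_iff h4, mul_comm]
    exact h3
  refine ⟨ψ' - SF.cst (algebraMap (RF n F) (FF a b h (RF n F)) (rt χ s)), ψ', hψ'1, rfl, ?_, ?_⟩
  · rw [SF.sub_def, hψ'0, SF.cst_apply, if_pos rfl, sub_self]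
  · intro S hS
    rw [SF.sub_def, SF.cst_apply, if_neg hS, sub_zero]

/-- **The factorisation near the generic zero.** -/
theorem exists_factor (hν : Function.Injective ν) (hd : 2 ≤ a + b)
    (χ : Equiv.Perm (Fin n) → F) (hP : PP χ (ν (star hd)) ≠ 0)
    {ψ ψ' : SF (Fin b ⊕ Fin a) (FF a b h (RF n F))}
    (hψ'1 : thR e ν l₀ (algebraMap F (RF n F)) (zg n F) (PP χ (ν (star hd))) * ψ' =
        - thR e ν l₀ (algebraMap F (RF n F)) (zg n F) (RR χ (ν (star hd))))
    (hψ : ψ = ψ' - SF.cst (algebraMap (RF n F) (FF a b h (RF n F)) (rt χ (ν (star hd)))))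
    {f : MvPolynomial (Fin n × Fin n) F} (hf : f ≠ 0) :
    ∃ W : SF (Fin b ⊕ Fin a) (FF a b h (PowerSeries (RF n F))), IsUnit W ∧
      thR e ν l₀ (kk n F) (zz F χ (ν (star hd))) f =
        (SF.cst (fun _ _ => tau (RF n F)) - SF.mapR (SF.push HahnSeries.C) ψ) ^
          (ordr χ (ν (star hd)) f) *
          SF.mapR (SF.push (HahnSeries.ofPowerSeries ℤ (RF n F))) W := by
  classical
  set s := ν (star hd) with hs
  obtain ⟨c, Q, hc, hQ, hQe⟩ := exists_clear χ s hP hf
  set r := ordr χ s f with hr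
  set A := algebraMap (MvPolynomial (Fin n × Fin n) F) (RF n F) with hA
  have hunit : ∀ p : MvPolynomial (Fin n × Fin n) F, p ≠ 0 →
      IsUnit (thR e ν l₀ (algebraMap F (RF n F)) (zg n F) p) := fun p hp => isUnit_thR hp
  -- over the power series
  set PS := PowerSeries (RF n F) with hPS
  set γP : F →+* PowerSeries (RF n F) := (PowerSeries.C).comp (algebraMap F (RF n F)) with hγP
  set zP : Fin n × Fin n → PowerSeries (RF n F) := fun x => PowerSeries.C (zg n F x) with hzP
  set ζP : PowerSeries (RF n F) := PowerSeries.C (rt χ s) + PowerSeries.X with hζP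
  have hevP : MvPolynomial.eval₂Hom γP zP = (PowerSeries.C).comp A := by
    refine MvPolynomial.ringHom_ext (fun r => ?_) (fun x => ?_)
    · rw [MvPolynomial.eval₂Hom_C]
      show PowerSeries.C (algebraMap F (RF n F) r) = PowerSeries.C (A (MvPolynomial.C r))
      rw [hA, IsScalarTower.algebraMap_apply F (MvPolynomial (Fin n × Fin n) F) (RF n F)]
      rfl
    · rw [MvPolynomial.eval₂Hom_X']; rfl
  have hunitP : ∀ p : MvPolynomial (Fin n × Fin n) F, p ≠ 0 → IsUnit (thR e ν l₀ γP zP p) := by
    intro p hp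
    have h1 : thR e ν l₀ γP zP p = SF.mapR (SF.push (PowerSeries.C (R := RF n F)))
        (thR e ν l₀ (algebraMap F (RF n F)) (zg n F) p) := by
      rw [thR_map]
    rw [h1]
    exact (hunit p hp).map _
  obtain ⟨wc, hwc⟩ := (hunitP c hc).exists_right_inv
  set W := wc * (thR e ν l₀ γP zP (PP χ s)) ^ r * thP e ν l₀ γP zP ζP Q with hW
  have hwcu : IsUnit wc := IsUnit.of_mul_eq_one _ (by rw [mul_comm]; exact hwc)
  have hQ0 : IsUnit ((Q.map (MvPolynomial.eval₂Hom γP zP)).eval ζP) := by
    rw [hevP, ← Polynomial.map_map, PowerSeries.isUnit_iff_constantCoeff, isUnit_iff_ne_zero,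
      Polynomial.eval_map, Polynomial.hom_eval₂]
    have h1 : (PowerSeries.constantCoeff (R := RF n F)).comp (PowerSeries.C (R := RF n F)) =
        RingHom.id (RF n F) := by
      refine RingHom.ext fun r => ?_
      rw [RingHom.comp_apply, PowerSeries.constantCoeff_C, RingHom.id_apply]
    rw [h1, hζP, map_add, PowerSeries.constantCoeff_C, PowerSeries.constantCoeff_X, add_zero]
    exact hQe
  have hWu : IsUnit W := by
    refine (hwcu.mul ((hunitP _ hP).pow r)).mul ?_
    apply SF.isUnit_of_apply_empty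
    rw [thP_empty]
    exact hQ0.map _
  refine ⟨W, hWu, ?_⟩
  · -- over the Laurent series
    set O := HahnSeries.ofPowerSeries ℤ (RF n F) with hO
    have hOk : O.comp γP = kk n F := by
      refine RingHom.ext fun r => ?_
      show HahnSeries.ofPowerSeries ℤ (RF n F) (PowerSeries.C (algebraMap F (RF n F) r)) = _
      rw [ofPS_C]; rfl
    have hOz : (fun x => O (zP x)) = fun x => HahnSeries.C (zg n F x) := by
      funext x
      exact ofPS_C _
    have hOζ : O ζP = HahnSeries.C (rt χ s) + tau (RF n F) := by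
      rw [hζP, map_add, ofPS_C, ofPS_X]
    have h1 : thR e ν l₀ (kk n F) (zz F χ s) f = thP e ν l₀ (kk n F)
        (fun x => HahnSeries.C (zg n F x)) (HahnSeries.C (rt χ s) + tau (RF n F))
        (bet F s f) := by
      rw [thP_bet _ _ _ hν hd]
      rfl
    have h2 := congrArg (thP e ν l₀ (kk n F) (fun x => HahnSeries.C (zg n F x))
      (HahnSeries.C (rt χ s) + tau (RF n F))) hQ
    rw [map_mul, map_mul, map_pow, map_add, map_mul, thP_C, thP_C, thP_C, thP_X, ← h1] at h2
    have h3 : ∀ p, thR e ν l₀ (kk n F) (fun x => HahnSeries.C (zg n F x)) p =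
        SF.mapR (SF.push O) (thR e ν l₀ γP zP p) := by
      intro p
      rw [thR_map, hOk, hOz]
    have h3' : ∀ p, thR e ν l₀ (kk n F) (fun x => HahnSeries.C (zg n F x)) p =
        SF.mapR (SF.push HahnSeries.C) (thR e ν l₀ (algebraMap F (RF n F)) (zg n F) p) := by
      intro p
      rw [thR_map]
      rfl
    have h4 : thP e ν l₀ (kk n F) (fun x => HahnSeries.C (zg n F x))
        (HahnSeries.C (rt χ s) + tau (RF n F)) Q =
        SF.mapR (SF.push O) (thP e ν l₀ γP zP ζP Q) := by
      rw [thP_map, hOk, hOz, hOζ]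
    have h5 : thR e ν l₀ (kk n F) (fun x => HahnSeries.C (zg n F x)) (PP χ s) *
        SF.cst (algebraMap _ (FF a b h (LaurentSeries (RF n F)))
          (HahnSeries.C (rt χ s) + tau (RF n F))) +
        thR e ν l₀ (kk n F) (fun x => HahnSeries.C (zg n F x)) (RR χ s) =
        thR e ν l₀ (kk n F) (fun x => HahnSeries.C (zg n F x)) (PP χ s) *
        (SF.cst (fun _ _ => tau (RF n F)) - SF.mapR (SF.push HahnSeries.C) ψ) := by
      have h6 : thR e ν l₀ (kk n F) (fun x => HahnSeries.C (zg n F x)) (RR χ s) =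
          -(thR e ν l₀ (kk n F) (fun x => HahnSeries.C (zg n F x)) (PP χ s) *
            SF.mapR (SF.push HahnSeries.C) ψ') := by
        rw [h3', h3', ← map_mul, hψ'1, map_neg, neg_neg]
      have h7 : (SF.cst (algebraMap _ (FF a b h (LaurentSeries (RF n F)))
          (HahnSeries.C (rt χ s) + tau (RF n F))) : SF (Fin b ⊕ Fin a) _) =
          SF.cst (fun _ _ => tau (RF n F)) + SF.mapR (SF.push HahnSeries.C)
            (SF.cst (algebraMap (RF n F) (FF a b h (RF n F)) (rt χ s))) := by
        rw [SF.mapR_cst, ← map_add]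
        congr 1
        funext u v
        show HahnSeries.C (rt χ s) + tau (RF n F) = tau (RF n F) + HahnSeries.C (rt χ s)
        rw [add_comm]
      rw [h6, h7, hψ, map_sub]
      ring
    rw [h5, h4, h3 (PP χ s), h3 c] at h2
    have h8 : SF.mapR (SF.push O) (thR e ν l₀ γP zP c) * SF.mapR (SF.push O) wc = 1 := by
      rw [← map_mul, hwc, map_one]
    calc thR e ν l₀ (kk n F) (zz F χ s) f
        = (SF.mapR (SF.push O) (thR e ν l₀ γP zP c) * SF.mapR (SF.push O) wc) *
            thR e ν l₀ (kk n F) (zz F χ s) f := by rw [h8, one_mul]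
      _ = SF.mapR (SF.push O) wc * (SF.mapR (SF.push O) (thR e ν l₀ γP zP c) *
            thR e ν l₀ (kk n F) (zz F χ s) f) := by ring
      _ = _ := by
          rw [h2, hW, map_mul, map_mul, map_pow, mul_pow]
          ring

end sf

end Pool.Agent.Y531.Mul
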