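import Pool.Agent.Y531.Mul.Limit

/-!
# Solvable systems of linear equations
-/

set_option autoImplicit false
set_option linter.unusedSectionVars false
set_option maxHeartbeats 1000000
set_option synthInstance.maxHeartbeats 200000

namespace Pool.Agent.Y531.Mul

open MvPolynomial Matrix

universe u

/-- The value at `z` of the `i`-th of the `n + 1` polynomials of degree one in `n` unknowns with the
coefficients `c`. -/
def value {K : Type u} [Field K] {n : ℕ} (c : Fin (n + 1) × Fin (n + 1) → K) (i : Fin (n + 1))
    (z : Fin n → K) : K :=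
  ∑ j : Fin n, c (i, j.castSucc) * z j + c (i, Fin.last n)

/-- The system with the coefficients `c` has a solution. -/
def Solvable {K : Type u} [Field K] {n : ℕ} (c : Fin (n + 1) × Fin (n + 1) → K) : Prop :=
  ∃ z : Fin n → K, ∀ i, value c i z = 0

section sing
variable {K : Type u} [Field K] {n : ℕ}

/-- The generic determinant. -/
noncomputable def gdet (K : Type u) [Field K] (n : ℕ) : MvPolynomial (Fin n × Fin n) K :=
  (Matrix.of fun i j : Fin n => (X (i, j) : MvPolynomial (Fin n × Fin n) K)).det

theorem eval_gdet (c : Fin n × Fin n → K) :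
    eval c (gdet K n) = (Matrix.of fun i j : Fin n => c (i, j)).det := by
  rw [gdet, RingHom.map_det]
  congr 1
  ext i j
  simp

theorem gdet_ne_zero : gdet K n ≠ 0 := by
  intro h0
  have h1 := eval_gdet (K := K) (n := n) (fun x => (1 : Matrix (Fin n) (Fin n) K) x.1 x.2)
  have h2 : (Matrix.of fun i j : Fin n => (1 : Matrix (Fin n) (Fin n) K) i j) = 1 := rfl
  rw [h0, map_zero, h2, Matrix.det_one] at h1
  exact zero_ne_one h1

theorem Solvable.det {c : Fin (n + 1) × Fin (n + 1) → K} (h : Solvable c) :
    (Matrix.of fun i j => c (i, j)).det = 0 := by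
  obtain ⟨z, hz⟩ := h
  rw [← Matrix.exists_mulVec_eq_zero_iff]
  refine ⟨Fin.snoc (α := fun _ => K) z 1, ?_, ?_⟩
  · intro h0
    have h1 := congrFun h0 (Fin.last n)
    rw [Fin.snoc_last] at h1
    exact one_ne_zero h1
  · funext i
    rw [Matrix.mulVec, dotProduct, Fin.sum_univ_castSucc]
    simp only [Fin.snoc_castSucc, Fin.snoc_last, mul_one, Matrix.of_apply]
    exact hz i

/-- A polynomial which vanishes at the solvable systems vanishes at the singular matrices. -/
theorem eval_singular [Infinite K] {f : MvPolynomial (Fin (n + 1) × Fin (n + 1)) K}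
    (hf : ∀ c, Solvable c → eval c f = 0) {c : Fin (n + 1) × Fin (n + 1) → K}
    (hc : (Matrix.of fun i j => c (i, j)).det = 0) : eval c f = 0 := by
  classical
  obtain ⟨u, hu0, hu⟩ := Matrix.exists_mulVec_eq_zero_iff.2 hc
  have hu' : ∀ i, ∑ j : Fin n, c (i, j.castSucc) * u j.castSucc +
      c (i, Fin.last n) * u (Fin.last n) = 0 := by
    intro i
    have h1 := congrFun hu i
    rw [Matrix.mulVec, dotProduct, Fin.sum_univ_castSucc] at h1
    simpa only [Matrix.of_apply, Pi.zero_apply] using h1
  by_cases hl : u (Fin.last n) = 0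
  · obtain ⟨j₀, hj₀⟩ : ∃ j₀, u j₀ ≠ 0 := by
      by_contra hcon
      push Not at hcon
      exact hu0 (funext hcon)
    have hjl : j₀ ≠ Fin.last n := by
      rintro rfl
      exact hj₀ hl
    set D : Fin (n + 1) × Fin (n + 1) → K := fun x =>
      if x.2 = j₀ then c (x.1, Fin.last n) / u j₀ else 0 with hD
    set p : Polynomial K := aeval (fun x => Polynomial.C (c x) - Polynomial.X *
      Polynomial.C (D x)) f with hp
    have hev : ∀ t, p.eval t = eval (fun x => c x - t * D x) f := by
      intro t
      have h1 : (Polynomial.evalRingHom t).comp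
          (aeval (R := K) (fun x => Polynomial.C (c x) - Polynomial.X *
            Polynomial.C (D x))).toRingHom = eval (fun x => c x - t * D x) := by
        refine MvPolynomial.ringHom_ext (fun r => ?_) (fun x => ?_)
        · simp
        · simp
          exact mul_comm _ _
      exact congrFun (congrArg DFunLike.coe h1) f
    have hroot : ∀ t, t ≠ 0 → p.eval t = 0 := by
      intro t ht
      rw [hev]
      refine hf _ ⟨fun j => u j.castSucc / t, fun i => ?_⟩
      rw [value]
      have h1 : D (i, Fin.last n) = 0 := by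
        rw [hD]
        exact if_neg hjl.symm
      have h2 : ∑ j : Fin n, (c (i, j.castSucc) - t * D (i, j.castSucc)) * (u j.castSucc / t) =
          (∑ j : Fin n, c (i, j.castSucc) * u j.castSucc) / t -
            ∑ j : Fin n, D (i, j.castSucc) * u j.castSucc := by
        rw [Finset.sum_div, ← Finset.sum_sub_distrib]
        refine Finset.sum_congr rfl fun j _ => ?_
        field_simp
      have h3 : ∑ j : Fin n, D (i, j.castSucc) * u j.castSucc = c (i, Fin.last n) := by
        have h4 : ∑ j : Fin (n + 1), D (i, j) * u j = c (i, Fin.last n) := by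
          rw [Finset.sum_eq_single j₀]
          · rw [hD]
            simp only [if_true]
            field_simp
          · intro j _ hj
            rw [hD]
            simp only [if_neg hj, zero_mul]
          · intro h; exact absurd (Finset.mem_univ _) h
        rw [Fin.sum_univ_castSucc, h1, zero_mul, add_zero] at h4
        exact h4
      have h5 := hu' i
      rw [hl, mul_zero, add_zero] at h5
      show ∑ j : Fin n, (c (i, j.castSucc) - t * D (i, j.castSucc)) * (u j.castSucc / t) +
        (c (i, Fin.last n) - t * D (i, Fin.last n)) = 0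
      rw [h2, h3, h5, h1]
      ring
    have hp0 : p = 0 := by
      refine Polynomial.eq_zero_of_infinite_isRoot p ?_
      refine Set.Infinite.mono (s := {t : K | t ≠ 0}) (fun t ht => hroot t ht) ?_
      exact (Set.finite_singleton (0 : K)).infinite_compl
    have h6 := hev 0
    rw [hp0, Polynomial.eval_zero] at h6
    simpa using h6.symm
  · refine hf c ⟨fun j => u j.castSucc / u (Fin.last n), fun i => ?_⟩
    have h1 := hu' i
    rw [value]
    have h2 : ∑ j : Fin n, c (i, j.castSucc) * (u j.castSucc / u (Fin.last n)) =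
        (∑ j : Fin n, c (i, j.castSucc) * u j.castSucc) / u (Fin.last n) := by
      rw [Finset.sum_div]
      exact Finset.sum_congr rfl fun j _ => (mul_div_assoc _ _ _).symm
    rw [h2, div_add' _ _ _ hl, h1, zero_div]

/-- The coefficients of the general solvable system. -/
noncomputable def sysPoly (K : Type u) [Field K] (n : ℕ) (x : Fin (n + 1) × Fin (n + 1)) :
    MvPolynomial ((Fin (n + 1) × Fin n) ⊕ Fin n) K :=
  Fin.lastCases (-∑ k : Fin n, X (Sum.inl (x.1, k)) * X (Sum.inr k))
    (fun j => X (Sum.inl (x.1, j))) x.2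

/-- Polynomials in the coefficients of the general solvable system. -/
noncomputable def pull (K : Type u) [Field K] (n : ℕ) :
    MvPolynomial (Fin (n + 1) × Fin (n + 1)) K →ₐ[K]
      MvPolynomial ((Fin (n + 1) × Fin n) ⊕ Fin n) K :=
  aeval (sysPoly K n)

/-- The system at a point. -/
noncomputable def sysAt (y : (Fin (n + 1) × Fin n) ⊕ Fin n → K) (x : Fin (n + 1) × Fin (n + 1)) :
    K :=
  eval y (sysPoly K n x)

theorem sysAt_castSucc (y : (Fin (n + 1) × Fin n) ⊕ Fin n → K) (i : Fin (n + 1)) (j : Fin n) :
    sysAt y (i, j.castSucc) = y (Sum.inl (i, j)) := by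
  rw [sysAt, sysPoly, Fin.lastCases_castSucc, eval_X]

theorem sysAt_last (y : (Fin (n + 1) × Fin n) ⊕ Fin n → K) (i : Fin (n + 1)) :
    sysAt y (i, Fin.last n) = -∑ k : Fin n, y (Sum.inl (i, k)) * y (Sum.inr k) := by
  rw [sysAt, sysPoly, Fin.lastCases_last, map_neg, map_sum]
  simp only [map_mul, eval_X]

theorem eval_pull (y : (Fin (n + 1) × Fin n) ⊕ Fin n → K)
    (f : MvPolynomial (Fin (n + 1) × Fin (n + 1)) K) :
    eval y (pull K n f) = eval (sysAt y) f := by
  have h1 : (eval y).comp (pull K n).toRingHom = eval (sysAt y) := by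
    refine MvPolynomial.ringHom_ext (fun r => ?_) (fun x => ?_)
    · simp
    · rw [eval_X, RingHom.comp_apply]
      show eval y (pull K n (X x)) = _
      rw [pull, aeval_X]
      rfl
  exact congrFun (congrArg DFunLike.coe h1) f

theorem solvable_sysAt (y : (Fin (n + 1) × Fin n) ⊕ Fin n → K) : Solvable (sysAt y) := by
  refine ⟨fun k => y (Sum.inr k), fun i => ?_⟩
  rw [value, sysAt_last]
  simp only [sysAt_castSucc]
  rw [add_neg_cancel]

theorem Solvable.exists_eq {c : Fin (n + 1) × Fin (n + 1) → K} (h : Solvable c) :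
    ∃ y, sysAt y = c := by
  obtain ⟨z, hz⟩ := h
  refine ⟨Sum.elim (fun x => c (x.1, x.2.castSucc)) z, ?_⟩
  funext ⟨i, j⟩
  refine Fin.lastCases ?_ (fun j => ?_) j
  · rw [sysAt_last]
    have h1 := hz i
    rw [value] at h1
    simp only [Sum.elim_inl, Sum.elim_inr]
    exact (eq_neg_of_add_eq_zero_right h1).symm
  · rw [sysAt_castSucc]
    rfl

theorem pull_eq_zero_iff [Infinite K] (f : MvPolynomial (Fin (n + 1) × Fin (n + 1)) K) :
    pull K n f = 0 ↔ ∀ c, Solvable c → eval c f = 0 := by
  constructor
  · intro h c hc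
    obtain ⟨y, rfl⟩ := hc.exists_eq
    rw [← eval_pull, h, map_zero]
  · intro h
    refine MvPolynomial.funext fun y => ?_
    rw [eval_pull, map_zero]
    exact h _ (solvable_sysAt y)

/-! ## Field extensions -/

theorem dvd_of_map_dvd {σ : Type} {K' : Type u} [Field K'] [Algebra K K'] {p q : MvPolynomial σ K}
    (h : map (algebraMap K K') p ∣ map (algebraMap K K') q) : p ∣ q := by
  classical
  obtain ⟨g, hg⟩ := h
  obtain ⟨ρ, hρ⟩ := LinearMap.exists_leftInverse_of_injective (Algebra.linearMap K K')
    (LinearMap.ker_eq_bot.2 (algebraMap K K').injective)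
  have hρ1 : ∀ x : K, ρ (algebraMap K K' x) = x := fun x =>
    congrFun (congrArg DFunLike.coe hρ) x
  have hρm : ∀ (x : K) (y : K'), ρ (algebraMap K K' x * y) = x * ρ y := by
    intro x y
    rw [← Algebra.smul_def, map_smul, smul_eq_mul]
  set g' : MvPolynomial σ K := ∑ m ∈ g.support, monomial m (ρ (coeff m g)) with hg'
  have hc : ∀ m, coeff m g' = ρ (coeff m g) := by
    intro m
    rw [hg', coeff_sum]
    simp only [coeff_monomial]
    rw [Finset.sum_ite_eq' g.support m (fun m => ρ (coeff m g))]
    split_ifs with h1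
    · rfl
    · rw [notMem_support_iff.1 h1, map_zero]
  refine ⟨g', ?_⟩
  ext m
  have h1 := congrArg (fun r => ρ (coeff m r)) hg
  simp only [coeff_map, hρ1] at h1
  rw [h1, coeff_mul, coeff_mul, map_sum]
  refine Finset.sum_congr rfl fun x _ => ?_
  rw [coeff_map, hρm, hc]

theorem map_pull (K' : Type u) [Field K'] [Algebra K K']
    (f : MvPolynomial (Fin (n + 1) × Fin (n + 1)) K) :
    map (algebraMap K K') (pull K n f) = pull K' n (map (algebraMap K K') f) := by
  have h1 : (map (algebraMap K K')).comp (pull K n).toRingHom =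
      (pull K' n).toRingHom.comp (map (algebraMap K K')) := by
    refine MvPolynomial.ringHom_ext (fun r => ?_) (fun x => ?_)
    · simp
    · rw [RingHom.comp_apply, RingHom.comp_apply, map_X]
      show map (algebraMap K K') (pull K n (X x)) = pull K' n (X x)
      rw [pull, pull, aeval_X, aeval_X]
      obtain ⟨i, j⟩ := x
      refine Fin.lastCases ?_ (fun j => ?_) j
      · rw [sysPoly, sysPoly, Fin.lastCases_last, Fin.lastCases_last, map_neg, map_sum]
        simp only [map_mul, map_X]
      · rw [sysPoly, sysPoly, Fin.lastCases_castSucc, Fin.lastCases_castSucc, map_X]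
  exact congrFun (congrArg DFunLike.coe h1) f

theorem map_gdet (K' : Type u) [Field K'] [Algebra K K'] :
    map (algebraMap K K') (gdet K n) = gdet K' n := by
  rw [gdet, gdet, RingHom.map_det]
  congr 1
  ext1 i j
  simp

/-- **A polynomial which vanishes at the solvable systems.** -/
theorem dvd_of_solvable [Infinite K] {f : MvPolynomial (Fin (n + 1) × Fin (n + 1)) K}
    (hf : ∀ c, Solvable c → eval c f = 0) : ∃ k : ℕ, gdet K (n + 1) ∣ f ^ k := by
  have h1 : pull K n f = 0 := (pull_eq_zero_iff f).2 hf
  have : Infinite (AlgebraicClosure K) := IsAlgClosed.instInfinite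
  have h2 : pull (AlgebraicClosure K) n (map (algebraMap K (AlgebraicClosure K)) f) = 0 := by
    rw [← map_pull, h1, map_zero]
  have h3 := (pull_eq_zero_iff _).1 h2
  have h4 : VanishesWith (gdet (AlgebraicClosure K) (n + 1))
      (map (algebraMap K (AlgebraicClosure K)) f) := by
    refine Or.inr ⟨inferInstance, fun x hx => ?_⟩
    rw [eval_gdet] at hx
    exact eval_singular h3 hx
  obtain ⟨k, hk⟩ := exists_pow h4
  refine ⟨k, dvd_of_map_dvd (K' := AlgebraicClosure K) ?_⟩
  rw [map_gdet, map_pow]
  exact hk

end sing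

end Pool.Agent.Y531.Mul
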