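import Pool.Agent.Y531.Mul.Sing

/-!
# Tests which do not decide the solvability of linear systems
-/

set_option autoImplicit false
set_option linter.unusedSectionVars false
set_option maxHeartbeats 1000000
set_option synthInstance.maxHeartbeats 200000

namespace Pool.Agent.Y531.Mul

open MvPolynomial Matrix

universe u

/-- The polynomial `f` is zero, or it divides a nonzero polynomial `g` which is the numerator or the
denominator of a rational function in lowest terms in the class `ShallowLimit`, or which is in the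
class `ForestLimit`. -/
def Easy {σ : Type} {F : Type u} [Field F] (n c Δ q : ℕ) (f : MvPolynomial σ F) : Prop :=
  f = 0 ∨ ∃ g : MvPolynomial σ F, f ∣ g ∧ g ≠ 0 ∧
    (ForestLimit n c Δ q g ∨ ∃ h : MvPolynomial σ F, h ≠ 0 ∧ IsRelPrime g h ∧
      (ShallowLimit n c Δ q g h ∨ ShallowLimit n c Δ q h g))

theorem FX_sign (F : Type u) [Field F] (n : ℕ) :
    FX (fun σ : Equiv.Perm (Fin n) => ((Equiv.Perm.sign σ : ℤ) : F)) = gdet F n := by
  rw [gdet, ← Matrix.det_transpose, FX, Matrix.det_apply']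
  refine Finset.sum_congr rfl fun σ _ => ?_
  rw [map_intCast]
  rfl

theorem easy_bound (c Δ : ℕ) : ∃ q n₀ : ℕ, ∀ n, n₀ ≤ n → ∀ (F : Type u) [Field F] [CharZero F]
    (f : MvPolynomial (Fin (n + 1) × Fin (n + 1)) F), Easy (n + 1) c Δ q f → f ≠ 0 →
    ∃ y, Solvable y ∧ eval y f ≠ 0 := by
  obtain ⟨d, q, n₀, hd, H⟩ := limit_bound c Δ
  refine ⟨q, n₀, fun n hn F _ _ f hf hf0 => ?_⟩
  by_contra hcon
  push Not at hcon
  have hs : ∀ σ : Equiv.Perm (Fin (n + 1)), ((Equiv.Perm.sign σ : ℤ) : F) ≠ 0 := by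
    intro σ
    rcases Int.units_eq_one_or (Equiv.Perm.sign σ) with h | h <;> rw [h] <;> simp
  obtain ⟨H1, H2⟩ := H (n + 1) (by omega) F
    (fun σ : Equiv.Perm (Fin (n + 1)) => ((Equiv.Perm.sign σ : ℤ) : F)) (hs _)
    (fun σ _ _ => hs σ)
  have : Infinite F := CharZero.infinite F
  obtain ⟨k, hk⟩ := dvd_of_solvable hcon
  rcases hf with rfl | ⟨g, hfg, hg0, hg⟩
  · exact hf0 rfl
  · have hv : VanishesWith (FX (fun σ : Equiv.Perm (Fin (n + 1)) =>
        ((Equiv.Perm.sign σ : ℤ) : F))) g := by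
      rw [FX_sign]
      exact Or.inl ⟨k, hk.trans (pow_dvd_pow_of_dvd hfg k)⟩
    rcases hg with hg | ⟨h, hh0, hgh, hg | hg⟩
    · exact H2 g hg0 hg hv
    · exact (H1 g h hg0 hh0 hgh hg).1 hv
    · exact (H1 h g hh0 hg0 hgh.symm hg).2 hv

section two
variable {K : Type u} [Field K] [Infinite K] {n : ℕ}

theorem exists_solvable (T : Finset (MvPolynomial (Fin (n + 1) × Fin (n + 1)) K))
    (hT : ∀ f ∈ T, f ≠ 0 → ∃ y, Solvable y ∧ eval y f ≠ 0) :
    ∃ y, Solvable y ∧ ∀ f ∈ T, f ≠ 0 → eval y f ≠ 0 := by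
  classical
  have h1 : ∏ f ∈ T.filter (fun f => f ≠ 0), pull K n f ≠ 0 := by
    refine Finset.prod_ne_zero_iff.2 fun f hf => ?_
    rw [Finset.mem_filter] at hf
    intro h0
    obtain ⟨y, hy, hyf⟩ := hT f hf.1 hf.2
    exact hyf ((pull_eq_zero_iff f).1 h0 y hy)
  obtain ⟨y, hy⟩ : ∃ y, eval y (∏ f ∈ T.filter (fun f => f ≠ 0), pull K n f) ≠ 0 := by
    by_contra hcon
    push Not at hcon
    exact h1 (MvPolynomial.funext fun y => by rw [hcon, map_zero])
  refine ⟨sysAt y, solvable_sysAt y, fun f hf hf0 => ?_⟩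
  rw [map_prod] at hy
  rw [← eval_pull]
  exact Finset.prod_ne_zero_iff.1 hy f (Finset.mem_filter.2 ⟨hf, hf0⟩)

theorem exists_not_solvable (T : Finset (MvPolynomial (Fin (n + 1) × Fin (n + 1)) K)) :
    ∃ y, ¬ Solvable y ∧ ∀ f ∈ T, f ≠ 0 → eval y f ≠ 0 := by
  classical
  have h1 : gdet K (n + 1) * ∏ f ∈ T.filter (fun f => f ≠ 0), f ≠ 0 := by
    refine mul_ne_zero gdet_ne_zero (Finset.prod_ne_zero_iff.2 fun f hf => ?_)
    exact (Finset.mem_filter.1 hf).2
  obtain ⟨y, hy⟩ : ∃ y, eval y (gdet K (n + 1) * ∏ f ∈ T.filter (fun f => f ≠ 0), f) ≠ 0 := by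
    by_contra hcon
    push Not at hcon
    exact h1 (MvPolynomial.funext fun y => by rw [hcon, map_zero])
  rw [map_mul, map_prod] at hy
  refine ⟨y, fun hs => left_ne_zero_of_mul hy ?_, fun f hf hf0 =>
    Finset.prod_ne_zero_iff.1 (right_ne_zero_of_mul hy) f (Finset.mem_filter.2 ⟨hf, hf0⟩)⟩
  rw [eval_gdet]
  exact hs.det

end two

/-! ## Decision trees with tests for zero -/

/-- Decision trees whose tests ask whether a polynomial is zero at the input. -/
inductive Tree (K : Type u) [Field K] (σ : Type) : Type u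
  | leaf (answer : Bool) : Tree K σ
  | node (f : MvPolynomial σ K) (zero nonzero : Tree K σ) : Tree K σ

namespace Tree
variable {K : Type u} [Field K] {σ : Type}

open Classical in
/-- The answer of the tree. -/
noncomputable def run : Tree K σ → (σ → K) → Bool
  | leaf b, _ => b
  | node f t₀ t₁, x => if eval x f = 0 then t₀.run x else t₁.run x

/-- All polynomials which the tree tests have the property. -/
def All (P : MvPolynomial σ K → Prop) : Tree K σ → Prop
  | leaf _ => True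
  | node f t₀ t₁ => P f ∧ t₀.All P ∧ t₁.All P

/-- The polynomials which the tree tests. -/
def tests : Tree K σ → Set (MvPolynomial σ K)
  | leaf _ => ∅
  | node f t₀ t₁ => insert f (t₀.tests ∪ t₁.tests)

theorem finite_tests : ∀ t : Tree K σ, t.tests.Finite
  | leaf _ => Set.finite_empty
  | node _ t₀ t₁ => (t₀.finite_tests.union t₁.finite_tests).insert _

theorem All.mem {P : MvPolynomial σ K → Prop} : ∀ {t : Tree K σ}, t.All P → ∀ f ∈ t.tests, P f
  | leaf _, _, _, hf => absurd hf (Set.notMem_empty _)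
  | node _ _ _, ⟨h1, h2, h3⟩, _, hf => by
    rcases hf with rfl | hf | hf
    · exact h1
    · exact h2.mem _ hf
    · exact h3.mem _ hf

theorem run_congr {x y : σ → K} : ∀ t : Tree K σ,
    (∀ f ∈ t.tests, (eval x f = 0 ↔ eval y f = 0)) → t.run x = t.run y
  | leaf _, _ => rfl
  | node f t₀ t₁, h => by
    have h0 := run_congr t₀ fun g hg => h g (Or.inr (Or.inl hg))
    have h1 := run_congr t₁ fun g hg => h g (Or.inr (Or.inr hg))
    have h2 := h f (Or.inl rfl)
    rw [run, run]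
    by_cases h3 : eval x f = 0
    · rw [if_pos h3, if_pos (h2.1 h3), h0]
    · rw [if_neg h3, if_neg (fun h4 => h3 (h2.2 h4)), h1]

end Tree

/-- **Zero tests.** -/
theorem tree_bound (c Δ : ℕ) : ∃ q n₀ : ℕ, ∀ n, n₀ ≤ n → ∀ (F : Type u) [Field F] [CharZero F],
    (∀ T : Finset (MvPolynomial (Fin (n + 1) × Fin (n + 1)) F),
      (∀ f ∈ T, Easy (n + 1) c Δ q f) → ∃ c₁ c₂, ¬ Solvable c₁ ∧ Solvable c₂ ∧
      ∀ f ∈ T, f ≠ 0 → eval c₁ f ≠ 0 ∧ eval c₂ f ≠ 0) ∧
    ∀ t : Tree F (Fin (n + 1) × Fin (n + 1)), t.All (Easy (n + 1) c Δ q) →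
      ∃ c₁, ¬ (t.run c₁ = true ↔ Solvable c₁) := by
  classical
  obtain ⟨q, n₀, H⟩ := easy_bound c Δ
  refine ⟨q, n₀, fun n hn F _ _ => ?_⟩
  have : Infinite F := CharZero.infinite F
  have key : ∀ T : Finset (MvPolynomial (Fin (n + 1) × Fin (n + 1)) F),
      (∀ f ∈ T, Easy (n + 1) c Δ q f) → ∃ c₁ c₂, ¬ Solvable c₁ ∧ Solvable c₂ ∧
      ∀ f ∈ T, f ≠ 0 → eval c₁ f ≠ 0 ∧ eval c₂ f ≠ 0 := by
    intro T hT
    obtain ⟨c₁, h1, h2⟩ := exists_not_solvable T
    obtain ⟨c₂, h3, h4⟩ := exists_solvable T fun f hf hf0 => H n hn F f (hT f hf) hf0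
    exact ⟨c₁, c₂, h1, h3, fun f hf hf0 => ⟨h2 f hf hf0, h4 f hf hf0⟩⟩
  refine ⟨key, fun t ht => ?_⟩
  obtain ⟨c₁, c₂, h1, h2, h3⟩ := key t.finite_tests.toFinset fun f hf =>
    ht.mem f (t.finite_tests.mem_toFinset.1 hf)
  have h4 : t.run c₁ = t.run c₂ := t.run_congr fun f hf => by
    by_cases hf0 : f = 0
    · rw [hf0, map_zero, map_zero]
    · have h5 := h3 f (t.finite_tests.mem_toFinset.2 hf) hf0
      exact ⟨fun h => absurd h h5.1, fun h => absurd h h5.2⟩
  by_cases hr : t.run c₂ = true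
  · exact ⟨c₁, fun h => h1 (h.1 (h4.trans hr))⟩
  · exact ⟨c₂, fun h => hr (h.2 h2)⟩

end Pool.Agent.Y531.Mul
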