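import Pool.Agent.Y531.Mul.Cycle
import Pool.Agent.Y531.Hit.Root

/-!
# Expansion of polynomials along the edges, and the polynomials of a matrix function
-/

set_option autoImplicit false
set_option linter.unusedSectionVars false
set_option maxHeartbeats 1000000
set_option synthInstance.maxHeartbeats 200000

namespace Pool.Agent.Y531.Mul

open Finset Pool.Agent.W942 Pool.Agent.Y531

variable {a b h n : ℕ}

/-- The functions of two words. -/
abbrev FF (a b h : ℕ) (A : Type*) : Type _ := (Ed a b h → Bool) → (Ed a b h → Bool) → A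

section
variable (e : Fin (a + b) ≃ Fin b ⊕ Fin a) (ν : Vtx h e → Fin n) (l₀ : Fin b ⊕ Fin a)

/-- The expansion of an entry. -/
noncomputable def thet {A : Type*} [CommRing A] (z : Fin n × Fin n → A) (x : Fin n × Fin n) :
    SF (Fin b ⊕ Fin a) (FF a b h A) := by
  classical
  exact SF.cst (algebraMap A (FF a b h A) (z x)) +
    SF.sgl {lb e ν l₀ x.1} (fun u v => if Edge e ν x.1 x.2 u v then 1 else 0)

/-- The expansion of polynomials. -/
noncomputable def thR {C A : Type*} [CommRing C] [CommRing A] (γ : C →+* A)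
    (z : Fin n × Fin n → A) :
    MvPolynomial (Fin n × Fin n) C →+* SF (Fin b ⊕ Fin a) (FF a b h A) :=
  MvPolynomial.eval₂Hom ((SF.cst (ι := Fin b ⊕ Fin a)).comp
    ((algebraMap A (FF a b h A)).comp γ)) (thet e ν l₀ z)

variable {e ν l₀}

section
variable {C A A' : Type*} [CommRing C] [CommRing A] [CommRing A'] (γ : C →+* A)
  (z : Fin n × Fin n → A)

theorem thR_C (c : C) : thR e ν l₀ γ z (MvPolynomial.C c) =
    SF.cst (algebraMap A (FF a b h A) (γ c)) := by
  rw [thR, MvPolynomial.eval₂Hom_C]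
  rfl

theorem thR_X (x : Fin n × Fin n) : thR e ν l₀ γ z (MvPolynomial.X x) = thet e ν l₀ z x := by
  rw [thR, MvPolynomial.eval₂Hom_X']

theorem thet_map (δ : A →+* A') (x : Fin n × Fin n) :
    SF.mapR (SF.push δ) (thet e ν l₀ z x) = thet e ν l₀ (fun x => δ (z x)) x := by
  rw [thet, thet, map_add, SF.mapR_cst, SF.mapR_sgl]
  congr 2
  funext u v
  rw [SF.push_apply]
  by_cases hE : Edge e ν x.1 x.2 u v
  · rw [if_pos hE, if_pos hE, map_one]
  · rw [if_neg hE, if_neg hE, map_zero]

theorem thR_map (δ : A →+* A') (p : MvPolynomial (Fin n × Fin n) C) :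
    SF.mapR (SF.push δ) (thR e ν l₀ γ z p) = thR e ν l₀ (δ.comp γ) (fun x => δ (z x)) p := by
  have h1 : (SF.mapR (ι := Fin b ⊕ Fin a) (SF.push (U := Ed a b h → Bool)
      (V := Ed a b h → Bool) δ)).comp (thR e ν l₀ γ z) =
      thR e ν l₀ (δ.comp γ) (fun x => δ (z x)) := by
    refine MvPolynomial.ringHom_ext (fun r => ?_) (fun x => ?_)
    · rw [RingHom.comp_apply, thR_C, thR_C, SF.mapR_cst]
      rfl
    · rw [RingHom.comp_apply, thR_X, thR_X, thet_map]
  exact congrFun (congrArg DFunLike.coe h1) p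

theorem thR_pre {C' : Type*} [CommRing C'] (γ' : C' →+* C) (p : MvPolynomial (Fin n × Fin n) C') :
    thR e ν l₀ γ z (MvPolynomial.map γ' p) = thR e ν l₀ (γ.comp γ') z p := by
  have h1 : (thR e ν l₀ γ z).comp (MvPolynomial.map γ') = thR e ν l₀ (γ.comp γ') z := by
    refine MvPolynomial.ringHom_ext (fun r => ?_) (fun x => ?_)
    · rw [RingHom.comp_apply, MvPolynomial.map_C, thR_C, thR_C]
      rfl
    · rw [RingHom.comp_apply, MvPolynomial.map_X, thR_X, thR_X]
  exact congrFun (congrArg DFunLike.coe h1) p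

theorem thR_empty (p : MvPolynomial (Fin n × Fin n) C) :
    thR e ν l₀ γ z p ∅ = algebraMap A (FF a b h A) (p.eval₂ γ z) := by
  have h1 : (SF.ev0 (ι := Fin b ⊕ Fin a) (R := FF a b h A)).comp (thR e ν l₀ γ z) =
      (algebraMap A (FF a b h A)).comp (MvPolynomial.eval₂Hom γ z) := by
    refine MvPolynomial.ringHom_ext (fun r => ?_) (fun x => ?_)
    · rw [RingHom.comp_apply, thR_C, SF.ev0_apply, SF.cst_apply, if_pos rfl, RingHom.comp_apply,
        MvPolynomial.eval₂Hom_C]
    · rw [RingHom.comp_apply, thR_X, SF.ev0_apply, thet, SF.add_def, SF.cst_apply, if_pos rfl,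
        SF.sgl_apply, if_neg (Finset.singleton_ne_empty _).symm, add_zero, RingHom.comp_apply,
        MvPolynomial.eval₂Hom_X']
  exact congrFun (congrArg DFunLike.coe h1) p

end

end

section poly
variable {F : Type*} [Field F] (χ : Equiv.Perm (Fin n) → F) (s : Fin n)

/-- The matrix function with weights `χ`. -/
noncomputable def FX : MvPolynomial (Fin n × Fin n) F :=
  ∑ σ : Equiv.Perm (Fin n), MvPolynomial.C (χ σ) * ∏ p, MvPolynomial.X (p, σ p)

/-- The coefficient of the entry `(s, s)`. -/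
noncomputable def PP : MvPolynomial (Fin n × Fin n) F := by
  classical
  exact ∑ σ ∈ (Finset.univ : Finset (Equiv.Perm (Fin n))).filter (fun σ => σ s = s),
    MvPolynomial.C (χ σ) * ∏ p ∈ Finset.univ.erase s, MvPolynomial.X (p, σ p)

/-- The part without the entry `(s, s)`. -/
noncomputable def RR : MvPolynomial (Fin n × Fin n) F := by
  classical
  exact ∑ σ ∈ (Finset.univ : Finset (Equiv.Perm (Fin n))).filter (fun σ => σ s ≠ s),
    MvPolynomial.C (χ σ) * ∏ p, MvPolynomial.X (p, σ p)

theorem FX_eq : FX χ = MvPolynomial.X (s, s) * PP χ s + RR χ s := by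
  classical
  rw [FX, PP, RR, ← Finset.sum_filter_add_sum_filter_not Finset.univ
    (fun σ : Equiv.Perm (Fin n) => σ s = s)]
  congr 1
  rw [Finset.mul_sum]
  refine Finset.sum_congr rfl fun σ hσ => ?_
  rw [← Finset.mul_prod_erase Finset.univ _ (Finset.mem_univ s), (Finset.mem_filter.1 hσ).2]
  ring

/-- A ring homomorphism which does not see the entry `(s, s)`. -/
theorem PP_congr {A : Type*} [CommRing A] (φ φ' : MvPolynomial (Fin n × Fin n) F →+* A)
    (hC : ∀ c, φ (MvPolynomial.C c) = φ' (MvPolynomial.C c))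
    (hX : ∀ x, x ≠ (s, s) → φ (MvPolynomial.X x) = φ' (MvPolynomial.X x)) :
    φ (PP χ s) = φ' (PP χ s) ∧ φ (RR χ s) = φ' (RR χ s) := by
  classical
  constructor
  · rw [PP, map_sum, map_sum]
    refine Finset.sum_congr rfl fun σ _ => ?_
    rw [map_mul, map_mul, map_prod, map_prod, hC]
    congr 1
    refine Finset.prod_congr rfl fun p hp => hX _ fun h => ?_
    exact (Finset.mem_erase.1 hp).1 (Prod.mk.inj h).1
  · rw [RR, map_sum, map_sum]
    refine Finset.sum_congr rfl fun σ hσ => ?_
    rw [map_mul, map_mul, map_prod, map_prod, hC]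
    congr 1
    refine Finset.prod_congr rfl fun p _ => hX _ fun h => ?_
    obtain ⟨h1, h2⟩ := Prod.mk.inj h
    subst h1
    exact (Finset.mem_filter.1 hσ).2 h2

/-- The unit matrix. -/
def one' (A : Type*) [CommRing A] (x : Fin n × Fin n) : A := if x.1 = x.2 then 1 else 0

theorem eval_PP {A : Type*} [CommRing A] (γ : F →+* A) :
    (PP χ s).eval₂ γ (one' A) = γ (χ 1) := by
  classical
  rw [PP, MvPolynomial.eval₂_sum, Finset.sum_eq_single 1]
  · rw [MvPolynomial.eval₂_mul, MvPolynomial.eval₂_C]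
    have h1 : (∏ p ∈ Finset.univ.erase s, MvPolynomial.X (p, (1 : Equiv.Perm (Fin n)) p) :
        MvPolynomial (Fin n × Fin n) F).eval₂ γ (one' A) = 1 := by
      rw [← MvPolynomial.coe_eval₂Hom, map_prod]
      refine Finset.prod_eq_one fun p _ => ?_
      rw [MvPolynomial.eval₂Hom_X', one']
      exact if_pos rfl
    rw [h1, mul_one]
  · intro σ hσ hne
    have h1 : ∃ p, σ p ≠ p := by
      by_contra hcon
      push Not at hcon
      exact hne (Equiv.ext hcon)
    obtain ⟨p, hp⟩ := h1
    have hps : p ≠ s := by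
      rintro rfl
      exact hp (Finset.mem_filter.1 hσ).2
    rw [← MvPolynomial.coe_eval₂Hom, map_mul, map_prod,
      Finset.prod_eq_zero (Finset.mem_erase.2 ⟨hps, Finset.mem_univ p⟩), mul_zero]
    rw [MvPolynomial.eval₂Hom_X', one', if_neg]
    exact fun h => hp h.symm
  · intro h
    refine absurd ?_ h
    rw [Finset.mem_filter]
    exact ⟨Finset.mem_univ _, rfl⟩

end poly

section
variable {e : Fin (a + b) ≃ Fin b ⊕ Fin a} {ν : Vtx h e → Fin n} {l₀ : Fin b ⊕ Fin a}

theorem pe_thet_one {A : Type*} [CommRing A] (u v : Ed a b h → Bool) (p q : Fin n) :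
    SF.pe u v (thet e ν l₀ (one' A) (p, q)) = ent A e ν l₀ u v p q := by
  classical
  refine SF.ext' fun S => ?_
  rw [SF.pe_apply, thet, ent, SF.add_def, SF.add_def, SF.cst_apply, SF.cst_apply, SF.sgl_apply,
    SF.sgl_apply, Pi.add_apply, Pi.add_apply]
  congr 1
  · by_cases hS : S = ∅
    · rw [if_pos hS, if_pos hS]; rfl
    · rw [if_neg hS, if_neg hS]; rfl
  · by_cases hS : S = {lb e ν l₀ p}
    · rw [if_pos hS, if_pos hS]
    · rw [if_neg hS, if_neg hS]; rfl

/-- **The expansion of the second part at the unit matrix.** -/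
theorem thR_RR {F A : Type*} [Field F] [CommRing A] (γ : F →+* A) (hν : Function.Injective ν)
    (hd : 2 ≤ a + b) (χ : Equiv.Perm (Fin n) → F) (u v : Ed a b h → Bool) :
    SF.pe u v (thR e ν l₀ γ (one' A) (RR χ (ν (star hd)))) =
      if v = mt u then SF.sgl Finset.univ (γ (χ (sig e ν hν u))) else 0 := by
  classical
  have hterm : ∀ σ : Equiv.Perm (Fin n), SF.pe u v (thR e ν l₀ γ (one' A)
      (MvPolynomial.C (χ σ) * ∏ p, MvPolynomial.X (p, σ p))) =
      SF.cst (γ (χ σ)) * ∏ p, ent A e ν l₀ u v p (σ p) := by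
    intro σ
    rw [map_mul, map_mul, thR_C, map_prod, map_prod]
    congr 1
    · refine SF.ext' fun S => ?_
      rw [SF.pe_apply, SF.cst_apply, SF.cst_apply]
      by_cases hS : S = ∅
      · rw [if_pos hS, if_pos hS]; rfl
      · rw [if_neg hS, if_neg hS]; rfl
    · refine Finset.prod_congr rfl fun p _ => ?_
      rw [thR_X, pe_thet_one]
  rw [RR, map_sum, map_sum, Finset.sum_congr rfl fun σ _ => hterm σ]
  by_cases hv : v = mt u
  · rw [if_pos hv]
    have hsig : sig e ν hν u (ν (star hd)) ≠ ν (star hd) := by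
      rw [star_eq_cyc (ν := ν) hd u, sig_cyc]
      intro h1
      exact rot_ne hd _ (cyc_injective hν u h1)
    rw [Finset.sum_eq_single (sig e ν hν u)]
    · rw [(prod_ent hν hd _ hsig).2 hv rfl]
      refine SF.ext' fun S => ?_
      rw [SF.cst_mul_apply, SF.sgl_apply, SF.sgl_apply]
      by_cases hS : S = Finset.univ
      · rw [if_pos hS, if_pos hS, mul_one]
      · rw [if_neg hS, if_neg hS, mul_zero]
    · intro σ hσ hne
      rw [(prod_ent hν hd σ (Finset.mem_filter.1 hσ).2).1 (fun h1 => hne h1.2), mul_zero]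
    · intro h1
      refine absurd ?_ h1
      rw [Finset.mem_filter]
      exact ⟨Finset.mem_univ _, hsig⟩
  · rw [if_neg hv]
    refine Finset.sum_eq_zero fun σ hσ => ?_
    rw [(prod_ent hν hd σ (Finset.mem_filter.1 hσ).2).1 (fun h1 => hv h1.1), mul_zero]

end

theorem mt_injective (a b h : ℕ) : Function.Injective (mt (a := a) (b := b) (h := h)) := by
  intro u u' huu
  funext x
  obtain ⟨i, j, p⟩ := x
  have h1 : lo (finProdFinEquiv (i, j)) = (i, j) := by rw [lo, Equiv.symm_apply_apply]
  have h2 := mt_ro u (finProdFinEquiv (i, j)) p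
  have h3 := mt_ro u' (finProdFinEquiv (i, j)) p
  rw [huu, h3, h1] at h2
  exact h2.symm

/-- A matrix supported on the matching is invertible. -/
theorem det_mt_ne_zero {F : Type*} [Field F]
    (P : Matrix (Ed a b h → Bool) (Ed a b h → Bool) F) (hP : ∀ u v, P u v = 0 ↔ v ≠ mt u) :
    P.det ≠ 0 := by
  classical
  let κ : Equiv.Perm (Ed a b h → Bool) :=
    Equiv.ofBijective mt (Finite.injective_iff_bijective.1 (mt_injective a b h))
  have h1 := Matrix.det_permute' κ P
  have h2 : P.submatrix id κ = Matrix.diagonal fun u => P u (κ u) := by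
    ext u w
    rw [Matrix.submatrix_apply, Matrix.diagonal_apply]
    by_cases h : u = w
    · subst h; rw [if_pos rfl]; rfl
    · rw [if_neg h, id, hP]
      intro h3
      exact h (mt_injective a b _ h3.symm)
  rw [h2, Matrix.det_diagonal] at h1
  intro h3
  rw [h3, mul_zero] at h1
  rw [Finset.prod_eq_zero_iff] at h1
  obtain ⟨u, _, hu⟩ := h1
  exact (hP u (κ u)).1 hu rfl

end Pool.Agent.Y531.Mul
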