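import Pool.Agent.Y531.Bits

/-!
# Reading two words in turns
-/

set_option autoImplicit false
set_option linter.unusedSectionVars false
set_option maxHeartbeats 1000000

namespace Pool.Agent.Y531.Mul

open Finset Pool.Agent.Y531

variable {a b h : ℕ}

/-- The positions. -/
abbrev Pos (a b h : ℕ) : Type := Fin (b * a) × Fin h

/-- The left label of a unit, and the index inside. -/
def lo (κ : Fin (b * a)) : Fin b × Fin a := finProdFinEquiv.symm κ
/-- The right label of a unit, and the index inside. -/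
def ro (κ : Fin (b * a)) : Fin a × Fin b := finProdFinEquiv.symm (Fin.cast (Nat.mul_comm b a) κ)

theorem lo_fst (κ : Fin (b * a)) : ((lo κ).1 : ℕ) = κ / a := rfl
theorem ro_fst (κ : Fin (b * a)) : ((ro κ).1 : ℕ) = κ / b := rfl

def bit (x : Bool) : ZMod 2 := if x then 1 else 0

theorem bit_inj {x y : Bool} (h : bit x + bit y = 0) : x = y := by
  revert h; revert x y; decide
theorem bit_add_self (x : Bool) : bit x + bit x = 0 := by
  revert x; decide

/-- The word read at a label. -/
def wd (l : Fin b ⊕ Fin a) (u v : Ed a b h → Bool) : Pos a b h → ZMod 2 := fun x => match l with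
  | Sum.inl i => if (lo x.1).1 = i then bit (u ((lo x.1).1, (lo x.1).2, x.2)) else 0
  | Sum.inr j => if (ro x.1).1 = j then bit (v ((ro x.1).2, (ro x.1).1, x.2)) else 0

theorem wd_inl (i : Fin b) (u v : Ed a b h → Bool) (x : Pos a b h) :
    wd (Sum.inl i) u v x = if (lo x.1).1 = i then bit (u ((lo x.1).1, (lo x.1).2, x.2)) else 0 := rfl
theorem wd_inr (j : Fin a) (u v : Ed a b h → Bool) (x : Pos a b h) :
    wd (Sum.inr j) u v x = if (ro x.1).1 = j then bit (v ((ro x.1).2, (ro x.1).1, x.2)) else 0 := rfl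

/-- The word which matches. -/
def mt (u : Ed a b h → Bool) : Ed a b h → Bool := fun x =>
  u ((lo (Fin.cast (Nat.mul_comm a b) (finProdFinEquiv (x.2.1, x.1)))).1,
    (lo (Fin.cast (Nat.mul_comm a b) (finProdFinEquiv (x.2.1, x.1)))).2, x.2.2)

theorem mt_ro (u : Ed a b h → Bool) (κ : Fin (b * a)) (p : Fin h) :
    mt u ((ro κ).2, (ro κ).1, p) = u ((lo κ).1, (lo κ).2, p) := by
  have h1 : Fin.cast (Nat.mul_comm a b) (finProdFinEquiv ((ro κ).1, (ro κ).2)) = κ := by
    show Fin.cast (Nat.mul_comm a b) (finProdFinEquiv (ro κ)) = κ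
    rw [ro, Equiv.apply_symm_apply]
    rfl
  show u ((lo (Fin.cast (Nat.mul_comm a b) (finProdFinEquiv ((ro κ).1, (ro κ).2)))).1, _, _) = _
  simp only [h1]

theorem sum_wd (u v : Ed a b h → Bool) (x : Pos a b h) :
    ∑ l, wd l u v x = bit (u ((lo x.1).1, (lo x.1).2, x.2)) +
      bit (v ((ro x.1).2, (ro x.1).1, x.2)) := by
  rw [Fintype.sum_sum_type]
  congr 1
  · simp only [wd]
    rw [Finset.sum_ite_eq, if_pos (Finset.mem_univ _)]
  · simp only [wd]
    rw [Finset.sum_ite_eq, if_pos (Finset.mem_univ _)]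

theorem sum_wd_eq_zero (u v : Ed a b h → Bool) : ∑ l, wd l u v = 0 ↔ v = mt u := by
  constructor
  · intro h0
    funext x
    obtain ⟨i, j, p⟩ := x
    set κ : Fin (b * a) := Fin.cast (Nat.mul_comm a b) (finProdFinEquiv (j, i)) with hκ
    have hro : ro κ = (j, i) := by
      rw [ro, hκ]
      have : Fin.cast (Nat.mul_comm b a) (Fin.cast (Nat.mul_comm a b) (finProdFinEquiv (j, i))) =
        finProdFinEquiv (j, i) := rfl
      rw [this, Equiv.symm_apply_apply]
    have h1 := congrFun h0 (κ, p)
    rw [Finset.sum_apply, sum_wd] at h1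
    have h2 := bit_inj h1
    simp only [hro] at h2
    rw [← h2]
    rfl
  · rintro rfl
    funext x
    rw [Finset.sum_apply, sum_wd, mt_ro, bit_add_self]
    rfl

theorem wd_same (l : Fin b ⊕ Fin a) (u v u' v' : Ed a b h → Bool)
    (hs : (bitFrame a b h).same l u v u' v') : wd l u v = wd l u' v' := by
  funext x
  rcases l with i | j
  · simp only [wd]
    by_cases hx : (lo x.1).1 = i
    · rw [if_pos hx, if_pos hx, hs ((lo x.1).1, (lo x.1).2, x.2) hx]
    · rw [if_neg hx, if_neg hx]
  · simp only [wd]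
    by_cases hx : (ro x.1).1 = j
    · rw [if_pos hx, if_pos hx, hs ((ro x.1).2, (ro x.1).1, x.2) hx]
    · rw [if_neg hx, if_neg hx]

/-- The order in which the labels are read. -/
def key : Fin b ⊕ Fin a → ℕ := Sum.elim (fun i => 2 * (i * a)) (fun j => 2 * (j * b) + 1)

theorem key_inj (ha : 0 < a) (hb : 0 < b) : Function.Injective (key (a := a) (b := b)) := by
  rintro (i | j) (i' | j') hk
  · simp only [key, Sum.elim_inl] at hk
    have h1 : (i : ℕ) * a = i' * a := by omega
    have h2 := Nat.eq_of_mul_eq_mul_right ha h1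
    rw [Fin.ext h2]
  · simp only [key, Sum.elim_inl, Sum.elim_inr] at hk
    omega
  · simp only [key, Sum.elim_inl, Sum.elim_inr] at hk
    omega
  · simp only [key, Sum.elim_inr] at hk
    have h1 : (j : ℕ) * b = j' * b := by omega
    have h2 := Nat.eq_of_mul_eq_mul_right hb h1
    rw [Fin.ext h2]

/-- Sorting. -/
theorem exists_sort {ι : Type*} [Fintype ι] {d : ℕ} (hd : Fintype.card ι = d) (f : ι → ℕ)
    (hf : Function.Injective f) : ∃ e : Fin d ≃ ι, StrictMono (f ∘ e) := by
  classical
  let s : Finset ℕ := Finset.univ.image f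
  have hs : s.card = d := by rw [Finset.card_image_of_injective _ hf, Finset.card_univ, hd]
  let o := s.orderIsoOfFin hs
  have h1 : ∀ t, ∃ l, f l = (o t : ℕ) := by
    intro t
    have := (o t).2
    rw [Finset.mem_image] at this
    obtain ⟨l, _, hl⟩ := this
    exact ⟨l, hl⟩
  choose g hg using h1
  have hgi : Function.Injective g := by
    intro t t' htt
    have h2 : ((o t : s) : ℕ) = (o t' : s) := by rw [← hg, ← hg, htt]
    exact o.injective (Subtype.ext h2)
  have hgb : Function.Bijective g := (Fintype.bijective_iff_injective_and_card g).2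
    ⟨hgi, by rw [Fintype.card_fin, hd]⟩
  refine ⟨Equiv.ofBijective g hgb, ?_⟩
  intro t t' htt
  show f (g t) < f (g t')
  rw [hg, hg]
  exact o.strictMono htt

/-- The partial sums. -/
def psum (e : Fin (a + b) ≃ Fin b ⊕ Fin a) (k : ℕ) (u v : Ed a b h → Bool) : Pos a b h → ZMod 2 :=
  ∑ t ∈ Finset.univ.filter (fun t : Fin (a + b) => (t : ℕ) < k), wd (e t) u v

theorem psum_zero (e : Fin (a + b) ≃ Fin b ⊕ Fin a) (u v : Ed a b h → Bool) :
    psum e 0 u v = 0 := by
  rw [psum]
  refine Finset.sum_eq_zero fun t ht => ?_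
  exact absurd (Finset.mem_filter.1 ht).2 (Nat.not_lt_zero _)

theorem psum_succ (e : Fin (a + b) ≃ Fin b ⊕ Fin a) (t : Fin (a + b)) (u v : Ed a b h → Bool) :
    psum e (t + 1) u v = psum e t u v + wd (e t) u v := by
  rw [psum, psum]
  have h1 : (Finset.univ.filter fun t' : Fin (a + b) => (t' : ℕ) < t + 1) =
      insert t (Finset.univ.filter fun t' : Fin (a + b) => (t' : ℕ) < t) := by
    ext t'
    rw [Finset.mem_insert, Finset.mem_filter, Finset.mem_filter]
    constructor
    · rintro ⟨_, h⟩
      by_cases h2 : (t' : ℕ) = t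
      · exact Or.inl (Fin.ext h2)
      · exact Or.inr ⟨Finset.mem_univ _, by omega⟩
    · rintro (h | ⟨_, h⟩)
      · exact ⟨Finset.mem_univ _, by rw [h]; omega⟩
      · exact ⟨Finset.mem_univ _, by omega⟩
  rw [h1, Finset.sum_insert (by simp), add_comm]

theorem psum_all (e : Fin (a + b) ≃ Fin b ⊕ Fin a) (u v : Ed a b h → Bool) :
    psum e (a + b) u v = ∑ l, wd l u v := by
  rw [psum, Finset.filter_true_of_mem fun t _ => t.2]
  exact Equiv.sum_comp e fun l => wd l u v

/-- The values which occur. -/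
def vals (e : Fin (a + b) ≃ Fin b ⊕ Fin a) (k : ℕ) : Finset (Pos a b h → ZMod 2) :=
  Finset.univ.image fun u => psum e k u (mt u)

theorem vals_zero (e : Fin (a + b) ≃ Fin b ⊕ Fin a) : vals (h := h) e 0 = {0} := by
  rw [vals]
  ext x
  rw [Finset.mem_image, Finset.mem_singleton]
  constructor
  · rintro ⟨u, _, rfl⟩
    exact psum_zero e u _
  · rintro rfl
    exact ⟨fun _ => false, Finset.mem_univ _, psum_zero e _ _⟩

theorem card_vals (ha : 0 < a) (hb : 0 < b) (hba : b ≤ a) (e : Fin (a + b) ≃ Fin b ⊕ Fin a)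
    (he : StrictMono (key ∘ e)) (t : Fin (a + b)) : (vals (h := h) e t).card ≤ 2 ^ (a * h) := by
  classical
  set τ := key (e t) with hτ
  have hlt : ∀ t' : Fin (a + b), (t' : ℕ) < t ↔ key (e t') < τ := by
    intro t'
    have h1 := he.lt_iff_lt (a := t') (b := t)
    rw [Fin.lt_def] at h1
    exact h1.symm
  -- the units which are read on one side only
  set D : Finset (Fin (b * a)) := Finset.univ.filter fun κ =>
    ¬ (key (Sum.inl (lo κ).1 : Fin b ⊕ Fin a) < τ ↔ key (Sum.inr (ro κ).1 : Fin b ⊕ Fin a) < τ)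
    with hD
  have hDc : D.card ≤ a := by
    have h1 : (D.image fun κ : Fin (b * a) => (κ : ℕ)) ⊆ Finset.Ico (τ / 2) (τ / 2 + a) := by
      intro x hx
      obtain ⟨κ, hκ, rfl⟩ := Finset.mem_image.1 hx
      have h2 := (Finset.mem_filter.1 hκ).2
      simp only [key, Sum.elim_inl, Sum.elim_inr, lo_fst, ro_fst] at h2
      rw [Finset.mem_Ico]
      have h3 := Nat.div_add_mod (κ : ℕ) a
      have h4 := Nat.div_add_mod (κ : ℕ) b
      have h5 := Nat.mod_lt (κ : ℕ) ha
      have h6 := Nat.mod_lt (κ : ℕ) hb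
      rw [Nat.mul_comm a] at h3
      rw [Nat.mul_comm b] at h4
      by_cases h7 : 2 * ((κ : ℕ) / a * a) < τ
      · have h8 : ¬ (2 * ((κ : ℕ) / b * b) + 1 < τ) := fun h => h2 (iff_of_true h7 h)
        omega
      · have h8 : 2 * ((κ : ℕ) / b * b) + 1 < τ := by
          by_contra h
          exact h2 (iff_of_false h7 h)
        omega
    have h2 := Finset.card_le_card h1
    rw [Finset.card_image_of_injective _ Fin.val_injective, Nat.card_Ico] at h2
    omega
  let Fr : (D × Fin h → Bool) → (Pos a b h → ZMod 2) := fun r x =>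
    if hx : x.1 ∈ D then bit (r (⟨x.1, hx⟩, x.2)) else 0
  have hsub : vals (h := h) e t ⊆ Finset.univ.image Fr := by
    intro s hs
    obtain ⟨u, _, rfl⟩ := Finset.mem_image.1 hs
    refine Finset.mem_image.2 ⟨fun y => u ((lo y.1.1).1, (lo y.1.1).2, y.2), Finset.mem_univ _, ?_⟩
    funext x
    set β := bit (u ((lo x.1).1, (lo x.1).2, x.2)) with hβ
    have h1 : psum e t u (mt u) x =
        (if key (Sum.inl (lo x.1).1 : Fin b ⊕ Fin a) < τ then β else 0) +
        (if key (Sum.inr (ro x.1).1 : Fin b ⊕ Fin a) < τ then β else 0) := by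
      have h2 : psum e t u (mt u) x = ∑ l, if key l < τ then wd l u (mt u) x else 0 := by
        rw [psum, Finset.sum_apply, Finset.sum_filter,
          ← Equiv.sum_comp e fun l => if key l < τ then wd l u (mt u) x else 0]
        refine Finset.sum_congr rfl fun t' _ => ?_
        simp only [hlt]
      rw [h2, Fintype.sum_sum_type]
      congr 1
      · rw [Finset.sum_eq_single (lo x.1).1]
        · have h3 : wd (Sum.inl (lo x.1).1) u (mt u) x = β := by
            rw [wd_inl]
            exact if_pos rfl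
          rw [h3]
        · intro i _ hi
          have h3 : wd (Sum.inl i) u (mt u) x = 0 := by
            rw [wd_inl]
            exact if_neg (fun h4 => hi h4.symm)
          rw [h3, ite_self]
        · intro h; exact absurd (Finset.mem_univ _) h
      · rw [Finset.sum_eq_single (ro x.1).1]
        · have h3 : wd (Sum.inr (ro x.1).1) u (mt u) x = β := by
            rw [wd_inr, mt_ro]
            exact if_pos rfl
          rw [h3]
        · intro i _ hi
          have h3 : wd (Sum.inr i) u (mt u) x = 0 := by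
            rw [wd_inr]
            exact if_neg (fun h4 => hi h4.symm)
          rw [h3, ite_self]
        · intro h; exact absurd (Finset.mem_univ _) h
    rw [h1]
    show (if hx : x.1 ∈ D then bit (u ((lo x.1).1, (lo x.1).2, x.2)) else 0) = _
    by_cases hx : x.1 ∈ D
    · rw [dif_pos hx]
      have h2 := (Finset.mem_filter.1 hx).2
      by_cases h3 : key (Sum.inl (lo x.1).1 : Fin b ⊕ Fin a) < τ
      · rw [if_pos h3, if_neg (fun h4 => h2 (iff_of_true h3 h4)), add_zero]
      · rw [if_neg h3, if_pos, zero_add]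
        by_contra h4
        exact h2 (iff_of_false h3 h4)
    · rw [dif_neg hx]
      have h2 : key (Sum.inl (lo x.1).1 : Fin b ⊕ Fin a) < τ ↔
          key (Sum.inr (ro x.1).1 : Fin b ⊕ Fin a) < τ := by
        by_contra h
        exact hx (Finset.mem_filter.2 ⟨Finset.mem_univ _, h⟩)
      by_cases h3 : key (Sum.inl (lo x.1).1 : Fin b ⊕ Fin a) < τ
      · rw [if_pos h3, if_pos (h2.1 h3), bit_add_self]
      · rw [if_neg h3, if_neg (fun h4 => h3 (h2.2 h4)), add_zero]
  refine (Finset.card_le_card hsub).trans (Finset.card_image_le.trans ?_)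
  rw [Finset.card_univ, Fintype.card_fun, Fintype.card_bool, Fintype.card_prod, Fintype.card_coe,
    Fintype.card_fin]
  exact Nat.pow_le_pow_right (by norm_num) (Nat.mul_le_mul_right h hDc)

end Pool.Agent.Y531.Mul
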